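import Pool.Agent.Lib.MP_9dcace_sd.LDefs

/-!
Definitions for section H (polarity).  `V` is the vertex set of a 3-polytope, a finite subset of space.
-/

set_option autoImplicit false

open Classical

namespace Pool.SD

open Pool.SX (E3 dp)

/-- `B` is the set of the points of `V` on a plane `a . x = c` with `V` in `a . x <= c`
(the empty set, `V` itself, or the vertex set of a face) -/
def IsSupp (V B : Finset (Fin 3 → ℝ)) : Prop :=
  ∃ (a : Fin 3 → ℝ) (c : ℝ), (∀ x ∈ V, ∑ i, a i * x i ≤ c) ∧ ∀ x, x ∈ B ↔ x ∈ V ∧ ∑ i, a i * x i = c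

/-- `B` is the vertex set of a facet: a maximal proper supporting set -/
def IsFacet (V B : Finset (Fin 3 → ℝ)) : Prop :=
  IsSupp V B ∧ B ≠ V ∧ ∀ B', IsSupp V B' → B ⊆ B' → B' ≠ V → B' = B

/-- every vertex lies on at most three facets -/
def IsSimple (V : Finset (Fin 3 → ℝ)) : Prop :=
  ∀ v ∈ V, ∀ Fs : Finset (Finset (Fin 3 → ℝ)), (∀ B ∈ Fs, IsFacet V B ∧ v ∈ B) → Fs.card ≤ 3

/-- the centroid -/
noncomputable def cen (V : Finset E3) : E3 := (V.card : ℝ)⁻¹ • ∑ v ∈ V, v

/-- the centred point -/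
noncomputable def pt (V : Finset E3) (v : E3) : E3 := v - cen V

/-- the polar body -/
def Pol (V : Finset E3) : Set E3 := {α | ∀ v ∈ V, dp α (pt V v) ≤ 1}

/-- the vertices of the polar body: the active inequalities span the space -/
def Wt (V : Finset E3) : Set E3 :=
  {α | α ∈ Pol V ∧ ∀ β : E3, (∀ v ∈ V, dp α (pt V v) = 1 → dp β (pt V v) = 0) → β = 0}

/-- the active points of `α` -/
noncomputable def act (V : Finset E3) (α : E3) : Finset E3 := V.filter (fun v => dp α (pt V v) = 1)

/-- the hypotheses on `V` -/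
structure Poly (V : Finset E3) : Prop where
  conv : ∀ v ∈ V, v ∉ convexHull ℝ ((V : Set E3) \ {v})
  span : affineSpan ℝ (V : Set E3) = ⊤

end Pool.SD
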