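import Pool.Agent.Lib.MP_9dcace_sd.ADefs

/-!
ROW A2 (choice of the offsets).
For a triangle T f g h: `smooth` (colours are different: nb f g, nb g h, nb h f by `rot`): d3 (a f) (a g) (a h) = V * D', V | 240, all the primes of D' are >= y.
Induction over the prefixes of idx: d is defined on the prefix with 240 | d f, T0 <= d f <= T0 + 240 Bd^5 and the divisibility for all the triangles in the
prefix.  Step f: for every g in E := {g : nb f g, idx g < idx f, and the h with T f g h has idx h < idx f} (at most 5) let D'_g be as above and r_g the residue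
of `unit_res` (af = a f, ag = a g, ah = a h; hu from `prim` for the neighbours g, h and p >= y).  `crt` on Option A: moduli |D'_g| and
240 (residue 0); pairwise coprime: a common prime of D'_g and D'_g' is >= y and divides both determinants: `cop`; a common prime of 240 and D'_g is <= 5 and >= y.
The product is <= 240 * Bd^5 (|D'_g| <= |d3| <= Bd, Bd >= 1, D' ≠ 0).
Then D' | num, V | 240 | d f, d g, d h so V | num, V and D' are coprime: V * D' | num.
For a triangle whose last element is g or h rotate (`num_rot`, `d3_rot`).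
-/

set_option autoImplicit false

open Classical

namespace Pool.SD

private theorem prime_dvd_240 (p : ℕ) (hp : p.Prime) (h : p ∣ 240) : p ≤ 5 := by
  have h1 : (240 : ℕ) = 2 ^ 4 * (3 * 5) := by norm_num
  rw [h1] at h
  rcases (Nat.Prime.dvd_mul hp).mp h with h2 | h2
  · have := Nat.le_of_dvd (by norm_num) (hp.dvd_of_dvd_pow h2)
    omega
  · rcases (Nat.Prime.dvd_mul hp).mp h2 with h3 | h3
    · have := Nat.le_of_dvd (by norm_num) h3
      omega
    · exact Nat.le_of_dvd (by norm_num) h3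

/-- data of one triangle -/
private theorem tri_data {A : Type} [Fintype A] (S : Pool.SX.Sph A) (idx col : A → ℕ)
    (ho : Ord S idx col)
    (y m : ℕ) (hy : 17 ≤ y) (hm : ∀ p : ℕ, p.Prime → p < y → 240 * p ∣ m) (a : A → Z3)
    (ha : Nrm S idx col y m a) (f g h : A) (hT : S.T f g h) :
    ∃ V D' : ℤ, d3 (a f) (a g) (a h) = V * D' ∧ V ∣ 240 ∧
      ∀ p : ℕ, p.Prime → (p : ℤ) ∣ D' → y ≤ p := by
  have h1 : nb S f g := ⟨h, hT⟩
  have h2 : nb S g h := ⟨f, S.rot hT⟩
  have h3 : nb S h f := ⟨g, S.rot (S.rot hT)⟩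
  exact smooth y m hy hm (col f) (col g) (col h) (ho.six f) (ho.six g) (ho.six h)
    (ho.proper f g h1) (ho.proper h f h3).symm (ho.proper g h h2) (a f) (a g) (a h)
    (ha.cls f) (ha.cls g) (ha.cls h)

private theorem ne_zero_of_primes (y : ℕ) (hy : 17 ≤ y) (D : ℤ)
    (hD : ∀ p : ℕ, p.Prime → (p : ℤ) ∣ D → y ≤ p) : D ≠ 0 := by
  rintro rfl
  have := hD 2 Nat.prime_two (dvd_zero _)
  omega

private theorem coprime_VD (y : ℕ) (hy : 17 ≤ y) (V D : ℤ) (hV : V ∣ 240)
    (hD : ∀ p : ℕ, p.Prime → (p : ℤ) ∣ D → y ≤ p) : IsCoprime V D := by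
  rw [Int.isCoprime_iff_gcd_eq_one]
  by_contra hne
  obtain ⟨p, hp, hpd⟩ := Nat.exists_prime_and_dvd hne
  have hpV : (p : ℤ) ∣ V := (Int.natCast_dvd_natCast.mpr hpd).trans (Int.gcd_dvd_left _ _)
  have hpD : (p : ℤ) ∣ D := (Int.natCast_dvd_natCast.mpr hpd).trans (Int.gcd_dvd_right _ _)
  have h1 : (p : ℤ) ∣ ((240 : ℕ) : ℤ) := by
    have := hpV.trans hV
    exact_mod_cast this
  have h2 := prime_dvd_240 p hp (Int.natCast_dvd_natCast.mp h1)
  have h3 := hD p hp hpD
  omega

private theorem abs_le_of_mul (V D B : ℤ) (hV : V ∣ 240) (h : |V * D| ≤ B) : |D| ≤ B := by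
  have hV0 : V ≠ 0 := by
    rintro rfl
    rw [zero_dvd_iff] at hV
    norm_num at hV
  have h1 : 1 ≤ |V| := Int.one_le_abs hV0
  rw [abs_mul] at h
  nlinarith [abs_nonneg D]

/-- the step -/
private theorem step {A : Type} [Fintype A] (S : Pool.SX.Sph A) (idx col : A → ℕ)
    (ho : Ord S idx col)
    (y m : ℕ) (hy : 17 ≤ y) (hm : ∀ p : ℕ, p.Prime → p < y → 240 * p ∣ m) (a : A → Z3)
    (ha : Nrm S idx col y m a) (Bd : ℤ) (hBd1 : 1 ≤ Bd)
    (hBd : ∀ f g h, |d3 (a f) (a g) (a h)| ≤ Bd) (T0 : ℤ) (d : A → ℤ) (f0 : A)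
    (hd : ∀ g, idx g < idx f0 → (240 : ℤ) ∣ d g) :
    ∃ x : ℤ, T0 ≤ x ∧ x ≤ T0 + 240 * Bd ^ 5 ∧ (240 : ℤ) ∣ x ∧
      ∀ g h, S.T f0 g h → idx g < idx f0 → idx h < idx f0 → ∀ i,
        d3 (a f0) (a g) (a h) ∣ num (a f0) (a g) (a h) x (d g) (d h) i := by
  let E : Finset A := Finset.univ.filter
    (fun g => ∃ h, S.T f0 g h ∧ idx g < idx f0 ∧ idx h < idx f0)
  have hE : ∀ g, g ∈ E ↔ ∃ h, S.T f0 g h ∧ idx g < idx f0 ∧ idx h < idx f0 := by
    intro g
    simp [E]
  have hE5 : E.card ≤ 5 := by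
    refine le_trans (Finset.card_le_card ?_) (ho.five f0)
    intro g hg
    obtain ⟨h, h1, h2, h3⟩ := (hE g).mp hg
    exact Finset.mem_filter.mpr ⟨Finset.mem_univ _, ⟨h, h1⟩, h2⟩
  -- data
  have hdata : ∀ g : A, ∃ (V D' r : ℤ), (g ∈ E → ∀ h, S.T f0 g h → idx g < idx f0 →
      idx h < idx f0 → d3 (a f0) (a g) (a h) = V * D' ∧ V ∣ 240 ∧
      (∀ p : ℕ, p.Prime → (p : ℤ) ∣ D' → y ≤ p) ∧
      (∀ x : ℤ, D' ∣ x - r → ∀ i, D' ∣ num (a f0) (a g) (a h) x (d g) (d h) i)) := by
    intro g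
    by_cases hg : g ∈ E
    · obtain ⟨h, h1, h2, h3⟩ := (hE g).mp hg
      obtain ⟨V, D', e1, e2, e3⟩ := tri_data S idx col ho y m hy hm a ha f0 g h h1
      have hD0 := ne_zero_of_primes y hy D' e3
      obtain ⟨r, hr⟩ := unit_res D' hD0 (a f0) (a g) (a h) (d g) (d h)
        (by rw [e1]; exact dvd_mul_left _ _)
        (fun p hp hpD => ha.prim g h ⟨f0, S.rot h1⟩ p hp (e3 p hp hpD))
      refine ⟨V, D', r, fun _ h' hT' _ _ => ?_⟩
      have hh : h' = h := S.uniq hT' h1
      subst hh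
      exact ⟨e1, e2, e3, hr⟩
    · exact ⟨0, 0, 0, fun h => absurd h hg⟩
  choose V D r hdata using hdata
  have hdata2 : ∀ g ∈ E, ∃ h, S.T f0 g h ∧ idx g < idx f0 ∧ idx h < idx f0 ∧
      d3 (a f0) (a g) (a h) = V g * D g ∧ V g ∣ 240 ∧
      (∀ p : ℕ, p.Prime → (p : ℤ) ∣ D g → y ≤ p) ∧
      (∀ x : ℤ, D g ∣ x - r g → ∀ i, D g ∣ num (a f0) (a g) (a h) x (d g) (d h) i) := by
    intro g hg
    obtain ⟨h, h1, h2, h3⟩ := (hE g).mp hg
    obtain ⟨e1, e2, e3, e4⟩ := hdata g hg h h1 h2 h3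
    exact ⟨h, h1, h2, h3, e1, e2, e3, e4⟩
  -- chinese remainders
  let M : Option A → ℕ := fun o => o.elim 240 (fun g => (D g).natAbs)
  let R : Option A → ℤ := fun o => o.elim 0 (fun g => r g)
  have hM0 : M none = 240 := rfl
  have hMs : ∀ g, M (some g) = (D g).natAbs := fun g => rfl
  have hMpos : ∀ o ∈ Finset.insertNone E, 0 < M o := by
    intro o ho'
    rcases o with _ | g
    · rw [hM0]; norm_num
    · rw [hMs]
      have hg : g ∈ E := by simpa using ho'
      obtain ⟨h, h1, h2, h3, e1, e2, e3, e4⟩ := hdata2 g hg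
      exact Int.natAbs_pos.mpr (ne_zero_of_primes y hy (D g) e3)
  have hcop1 : ∀ g ∈ E, Nat.Coprime 240 (D g).natAbs := by
    intro g hg
    obtain ⟨h, h1, h2, h3, e1, e2, e3, e4⟩ := hdata2 g hg
    refine Nat.coprime_of_dvd ?_
    intro p hp hp1 hp2
    have h4 := prime_dvd_240 p hp hp1
    have h5 := e3 p hp (Int.natCast_dvd.mpr hp2)
    omega
  have hcop2 : ∀ g ∈ E, ∀ g' ∈ E, g ≠ g' → Nat.Coprime (D g).natAbs (D g').natAbs := by
    intro g hg g' hg' hne
    obtain ⟨h, h1, h2, h3, e1, e2, e3, e4⟩ := hdata2 g hg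
    obtain ⟨h', h1', h2', h3', e1', e2', e3', e4'⟩ := hdata2 g' hg'
    refine Nat.coprime_of_dvd ?_
    intro p hp hp1 hp2
    have k1 : (p : ℤ) ∣ D g := Int.natCast_dvd.mpr hp1
    have k2 : (p : ℤ) ∣ D g' := Int.natCast_dvd.mpr hp2
    refine ha.cop f0 g h g' h' h1 h1' hne h2 h3 h2' h3' p hp (e3 p hp k1) ⟨?_, ?_⟩
    · rw [e1]; exact k1.mul_left _
    · rw [e1']; exact k2.mul_left _
  have hcop : ∀ o ∈ Finset.insertNone E, ∀ o' ∈ Finset.insertNone E, o ≠ o' →
      Nat.Coprime (M o) (M o') := by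
    intro o ho1 o' ho2 hne
    rcases o with _ | g <;> rcases o' with _ | g'
    · exact absurd rfl hne
    · rw [hM0, hMs]
      exact hcop1 g' (by simpa using ho2)
    · rw [hM0, hMs]
      exact (hcop1 g (by simpa using ho1)).symm
    · rw [hMs, hMs]
      exact hcop2 g (by simpa using ho1) g' (by simpa using ho2) (fun h => hne (by rw [h]))
  obtain ⟨x, hx1, hx2, hx3⟩ := crt (Finset.insertNone E) M hMpos hcop R T0
  have hx240 : (240 : ℤ) ∣ x := by
    have := hx3 none (by simp)
    simpa [hM0, R] using this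
  have hprod : ∏ o ∈ Finset.insertNone E, (M o : ℤ) ≤ 240 * Bd ^ 5 := by
    have e1 : ∏ o ∈ Finset.insertNone E, (M o : ℤ) = (M none : ℤ) * ∏ g ∈ E, (M (some g) : ℤ) :=
      Finset.prod_insertNone _ _
    rw [e1, hM0]
    have e2 : ∏ g ∈ E, (M (some g) : ℤ) ≤ Bd ^ E.card := by
      refine le_trans (Finset.prod_le_prod (fun g _ => by positivity)
        (g := fun _ => Bd) ?_) ?_
      · intro g hg
        rw [hMs]
        obtain ⟨h, h1, h2, h3, e1, e2, e3, e4⟩ := hdata2 g hg
        rw [Int.natCast_natAbs]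
        refine abs_le_of_mul (V g) (D g) Bd e2 ?_
        rw [← e1]
        exact hBd _ _ _
      · rw [Finset.prod_const]
    have e3 : Bd ^ E.card ≤ Bd ^ 5 := pow_le_pow_right₀ hBd1 hE5
    have e4 := e2.trans e3
    push_cast
    linarith
  refine ⟨x, hx1, by linarith, hx240, ?_⟩
  intro g h hT hig hih i
  have hg : g ∈ E := (hE g).mpr ⟨h, hT, hig, hih⟩
  obtain ⟨e1, e2, e3, e4⟩ := hdata g hg h hT hig hih
  rw [e1]
  refine IsCoprime.mul_dvd (coprime_VD y hy (V g) (D g) e2 e3) ?_ ?_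
  · have v1 : V g ∣ x := e2.trans hx240
    have v2 : V g ∣ d g := e2.trans (hd g hig)
    have v3 : V g ∣ d h := e2.trans (hd h hih)
    change V g ∣ x * cz (a g) (a h) i + d g * cz (a h) (a f0) i + d h * cz (a f0) (a g) i
    exact dvd_add (dvd_add (v1.mul_right _) (v2.mul_right _)) (v3.mul_right _)
  · refine e4 x ?_ i
    have := hx3 (some g) (by simpa using hg)
    rw [hMs] at this
    exact Int.natAbs_dvd.mp this

theorem offsets {A : Type} [Fintype A] (S : Pool.SX.Sph A) (idx col : A → ℕ) (ho : Ord S idx col)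
    (y m : ℕ) (hy : 17 ≤ y) (hm : ∀ p : ℕ, p.Prime → p < y → 240 * p ∣ m) (a : A → Z3)
    (ha : Nrm S idx col y m a) (Bd : ℤ) (hBd1 : 1 ≤ Bd)
    (hBd : ∀ f g h, |d3 (a f) (a g) (a h)| ≤ Bd) (T0 : ℤ) :
    ∃ d : A → ℤ, (∀ f, T0 ≤ d f ∧ d f ≤ T0 + 240 * Bd ^ 5) ∧
      ∀ f g h, S.T f g h → ∀ i,
        d3 (a f) (a g) (a h) ∣ num (a f) (a g) (a h) (d f) (d g) (d h) i := by
  have main : ∀ n : ℕ, ∃ d : A → ℤ, (∀ f, idx f < n → T0 ≤ d f ∧ d f ≤ T0 + 240 * Bd ^ 5 ∧
      (240 : ℤ) ∣ d f) ∧ ∀ f g h, S.T f g h → idx f < n → idx g < n → idx h < n → ∀ i,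
        d3 (a f) (a g) (a h) ∣ num (a f) (a g) (a h) (d f) (d g) (d h) i := by
    intro n
    induction n with
    | zero =>
      exact ⟨fun _ => 0, fun f hf => absurd hf (Nat.not_lt_zero _),
        fun f g h _ hf => absurd hf (Nat.not_lt_zero _)⟩
    | succ n ih =>
      obtain ⟨d, hd1, hd2⟩ := ih
      by_cases hex : ∃ f0, idx f0 = n
      · obtain ⟨f0, hf0⟩ := hex
        obtain ⟨x, hx1, hx2, hx3, hx4⟩ := step S idx col ho y m hy hm a ha Bd hBd1 hBd T0 d f0
          (fun g hg => (hd1 g (by omega)).2.2)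
        have hne : ∀ g, idx g < n → Function.update d f0 x g = d g := by
          intro g hg
          refine Function.update_of_ne ?_ _ _
          rintro rfl
          omega
        have hlt : ∀ g, idx g < n + 1 → g ≠ f0 → idx g < n := by
          intro g hg hgf
          have : idx g ≠ n := by
            intro h
            exact hgf (ho.inj (by rw [h, hf0]))
          omega
        have key : ∀ g h, S.T f0 g h → idx g < n + 1 → idx h < n + 1 → ∀ i,
            d3 (a f0) (a g) (a h) ∣ num (a f0) (a g) (a h) (Function.update d f0 x f0)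
              (Function.update d f0 x g) (Function.update d f0 x h) i := by
          intro g h hT hg hh i
          have hg' : idx g < n := hlt g hg (S.ne hT).symm
          have hh' : idx h < n := hlt h hh (S.ne (S.rot (S.rot hT)))
          rw [Function.update_self, hne g hg', hne h hh']
          exact hx4 g h hT (by omega) (by omega) i
        refine ⟨Function.update d f0 x, fun f hf => ?_, fun f g h hT hf hg hh i => ?_⟩
        · by_cases hff : f = f0
          · subst hff
            rw [Function.update_self]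
            exact ⟨hx1, hx2, hx3⟩
          · rw [hne f (hlt f hf hff)]
            exact hd1 f (hlt f hf hff)
        · by_cases hff : f = f0
          · subst hff
            exact key g h hT hg hh i
          · by_cases hgf : g = f0
            · subst hgf
              have := key h f (S.rot hT) hh hf i
              rwa [d3_rot, num_rot] at this
            · by_cases hhf : h = f0
              · subst hhf
                have := key f g (S.rot (S.rot hT)) hf hg i
                rwa [d3_rot, d3_rot, num_rot, num_rot] at this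
              · have hf' := hlt f hf hff
                have hg' := hlt g hg hgf
                have hh' := hlt h hh hhf
                rw [hne f hf', hne g hg', hne h hh']
                exact hd2 f g h hT hf' hg' hh' i
      · have hlt : ∀ g, idx g < n + 1 → idx g < n := by
          intro g hg
          have : idx g ≠ n := fun h => hex ⟨g, h⟩
          omega
        exact ⟨d, fun f hf => hd1 f (hlt f hf), fun f g h hT hf hg hh i =>
          hd2 f g h hT (hlt f hf) (hlt g hg) (hlt h hh) i⟩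
  obtain ⟨d, hd1, hd2⟩ := main (Finset.univ.sup idx + 1)
  have hlt : ∀ f, idx f < Finset.univ.sup idx + 1 := fun f =>
    Nat.lt_succ_of_le (Finset.le_sup (Finset.mem_univ f))
  exact ⟨d, fun f => ⟨(hd1 f (hlt f)).1, (hd1 f (hlt f)).2.1⟩, fun f g h hT i =>
    hd2 f g h hT (hlt f) (hlt g) (hlt h) i⟩

end Pool.SD
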