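import Pool.Agent.Lib.MP_9dcace_sd.ADefs

/-!
ROW A3 (parameters, 150-200 lines).
`asym`: y := the largest number with (240 * 4^y)^8 <= K (`Nat.findGreatest`), k + 1 := y / 64.  K < (240 * 4^(y+1))^8 <= 4^(8 (y + 5)) (240 < 4^4).
 Put y0 := 4^(4096 (c+1)), K0 := (240 * 4^y0)^8: for K >= K0, y >= y0 >= 4096.  K^c < 4^(8 (y+5) c + 1) <= 4^(16 y c + 1)... and
 y^(k+1) >= (4^(4096 (c+1)))^(y/64) and y / 64 >= y / 128 (real division; y >= 128): the exponent is >= 32 (c+1) y > 16 y c + 1.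
 (If c = 0: K^0 = 1 < y^(k+1).)
`params`: n >= 4, Q >= 1, K = K0 * (n Q)^64 with a suitable K0 (>= the K0 of asym for c = 182 and >= 3000^64).  Facts:
 (1000 y)^16 <= 4^(8y) (1000 y <= 2^y for y >= 17) <= K;  St := 40 (k+1) + 2 n^2 + 200 <= 1000 y n^2, so St^16 <= K n^32, St^32 <= K^2 n^64 <= K^3;
 m <= 240 * 4^y, m^8 <= K;  B := m (2 St^3 + 1) <= 3 m St^3, B^32 <= 3^32 K^4 K^9 <= 3^32 K^13;  700 Q^2 B <= K:  (700 Q^2 B)^32 <= 2100^32 Q^64 K^13 <= K^15 <= K^32.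
 H := 8 K^2 Q^2: 2 (K Q + B)^2 <= 2 (2 K Q)^2.  H^32 = 8^32 K^64 Q^64 <= K^66.
 W := 12 St^2 H^2 (H + m St^3) : m St^3 <= B <= K <= H, so W <= 24 St^2 H^3, W^32 <= 24^32 (K^3)^2 (K^66)^3 <= K^(1 + 6 + 198) <= K^224 = (K^7)^32, so W <= K^7 and
 W^26 <= K^182 < y^(k+1).
-/

set_option autoImplicit false

namespace Pool.SD

private theorem A3_self (y : ℕ) : y < (240 * 4 ^ y) ^ 8 := by
  have h1 : y < 4 ^ y := Nat.lt_pow_self (by norm_num)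
  have h2 : 4 ^ y ≤ 240 * 4 ^ y := Nat.le_mul_of_pos_left _ (by norm_num)
  exact lt_of_lt_of_le h1 (h2.trans (Nat.le_self_pow (by norm_num) _))

theorem asym (c : ℕ) : ∃ K0 : ℕ, ∀ K : ℕ, K0 ≤ K → ∃ y k : ℕ, 17 ≤ y ∧ 64 * (k + 1) ≤ y ∧
    (240 * 4 ^ y) ^ 8 ≤ K ∧ K ^ c < y ^ (k + 1) := by
  obtain ⟨y0, hy0⟩ : ∃ y0 : ℕ, y0 = 4 ^ (4096 * (c + 1)) := ⟨_, rfl⟩
  have hy0' : 4096 ≤ y0 := by
    have h1 : 4096 * (c + 1) < 4 ^ (4096 * (c + 1)) := Nat.lt_pow_self (by norm_num)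
    rw [← hy0] at h1
    omega
  refine ⟨(240 * 4 ^ y0) ^ 8, fun K hK => ?_⟩
  have hy0K : y0 ≤ K := (A3_self y0).le.trans hK
  obtain ⟨y, hy⟩ : ∃ y, y = Nat.findGreatest (fun y => (240 * 4 ^ y) ^ 8 ≤ K) K := ⟨_, rfl⟩
  have hyP : (240 * 4 ^ y) ^ 8 ≤ K := by
    rw [hy]
    exact Nat.findGreatest_spec (P := fun y => (240 * 4 ^ y) ^ 8 ≤ K) hy0K hK
  have hyy0 : y0 ≤ y := by
    rw [hy]
    exact Nat.le_findGreatest (P := fun y => (240 * 4 ^ y) ^ 8 ≤ K) hy0K hK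
  have hylt : K < (240 * 4 ^ (y + 1)) ^ 8 := by
    by_contra hcon
    push Not at hcon
    have h1 : y + 1 ≤ K := (A3_self (y + 1)).le.trans hcon
    have h2 := Nat.le_findGreatest (P := fun y => (240 * 4 ^ y) ^ 8 ≤ K) h1 hcon
    rw [← hy] at h2
    omega
  have hK2 : K ≤ 4 ^ (8 * (y + 5)) := by
    refine hylt.le.trans ?_
    have h1 : 240 * 4 ^ (y + 1) ≤ 4 ^ (y + 5) := by
      have e : 4 ^ (y + 5) = 4 ^ 4 * 4 ^ (y + 1) := by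
        rw [← pow_add]
        congr 1
        omega
      rw [e]
      exact Nat.mul_le_mul_right _ (by norm_num)
    calc (240 * 4 ^ (y + 1)) ^ 8 ≤ (4 ^ (y + 5)) ^ 8 := Nat.pow_le_pow_left h1 8
      _ = 4 ^ (8 * (y + 5)) := by rw [← pow_mul, mul_comm (y + 5) 8]
  obtain ⟨j, hj⟩ : ∃ j, j = y / 64 := ⟨_, rfl⟩
  have hj1 : 64 * j ≤ y := by omega
  have hj2 : y ≤ 128 * j := by omega
  have hj3 : 1 ≤ j := by omega
  refine ⟨y, j - 1, by omega, by omega, hyP, ?_⟩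
  have hjj : j - 1 + 1 = j := by omega
  rw [hjj]
  have h1 : K ^ c ≤ 4 ^ (8 * (y + 5) * c) := by
    rw [pow_mul]
    exact Nat.pow_le_pow_left hK2 c
  have h2 : 4 ^ (4096 * (c + 1) * j) ≤ y ^ j := by
    rw [pow_mul, ← hy0]
    exact Nat.pow_le_pow_left hyy0 j
  refine lt_of_le_of_lt h1 (lt_of_lt_of_le ?_ h2)
  refine Nat.pow_lt_pow_right (by norm_num) ?_
  have h3 : 8 * (y + 5) * c ≤ 16 * y * c := Nat.mul_le_mul_right c (by omega)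
  have h4 : 16 * y * c ≤ 16 * (128 * j) * c :=
    Nat.mul_le_mul_right c (Nat.mul_le_mul_left 16 hj2)
  have h5 : 16 * (128 * j) * c = 2048 * (c * j) := by ring
  have h6 : 4096 * (c + 1) * j = 4096 * (c * j) + 4096 * j := by ring
  rw [h6]
  rw [h5] at h4
  generalize c * j = X at h4 ⊢
  omega

private theorem A3_two (y : ℕ) (hy : 17 ≤ y) : 1000 * y ≤ 2 ^ y := by
  induction y, hy using Nat.le_induction with
  | base => norm_num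
  | succ y hy ih =>
    rw [pow_succ]
    omega

private theorem A3_nat (K y m n Q St : ℕ) (hn : 1 ≤ n) (hQ : 1 ≤ Q) (hy17 : 17 ≤ y)
    (hK : 2100 ^ 32 ≤ K) (hnK : n ^ 64 ≤ K) (hQK : Q ^ 64 ≤ K) (h8 : (240 * 4 ^ y) ^ 8 ≤ K)
    (hm : m ≤ 240 * 4 ^ y) (hSt : St ≤ 1000 * y * n ^ 2) (hSt1 : 1 ≤ St) :
    700 * Q ^ 2 * (m * (2 * St ^ 3 + 1)) ≤ K ∧
    12 * St ^ 2 * (8 * K ^ 2 * Q ^ 2) ^ 2 * (8 * K ^ 2 * Q ^ 2 + m * St ^ 3) ≤ K ^ 7 := by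
  have hK1 : 1 ≤ K := le_trans (by norm_num) hK
  have h2 : (1000 * y) ^ 16 ≤ K := by
    refine le_trans ?_ h8
    calc (1000 * y) ^ 16 ≤ (2 ^ y) ^ 16 := Nat.pow_le_pow_left (A3_two y hy17) 16
      _ = (4 ^ y) ^ 8 := by
        rw [← pow_mul, ← pow_mul, show (4 : ℕ) = 2 ^ 2 by norm_num, ← pow_mul]
        congr 1
        ring
      _ ≤ (240 * 4 ^ y) ^ 8 := Nat.pow_le_pow_left (Nat.le_mul_of_pos_left _ (by norm_num)) 8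
  have h3 : St ^ 16 ≤ K * n ^ 32 := by
    calc St ^ 16 ≤ (1000 * y * n ^ 2) ^ 16 := Nat.pow_le_pow_left hSt 16
      _ = (1000 * y) ^ 16 * n ^ 32 := by rw [mul_pow, ← pow_mul]
      _ ≤ K * n ^ 32 := Nat.mul_le_mul_right _ h2
  have h4 : St ^ 32 ≤ K ^ 3 := by
    calc St ^ 32 = (St ^ 16) ^ 2 := by rw [← pow_mul]
      _ ≤ (K * n ^ 32) ^ 2 := Nat.pow_le_pow_left h3 2
      _ = K ^ 2 * n ^ 64 := by rw [mul_pow, ← pow_mul]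
      _ ≤ K ^ 2 * K := Nat.mul_le_mul_left _ hnK
      _ = K ^ 3 := by ring
  have h5 : m ^ 8 ≤ K := (Nat.pow_le_pow_left hm 8).trans h8
  have hSt3 : 1 ≤ St ^ 3 := Nat.one_le_pow _ _ hSt1
  have h6 : m * (2 * St ^ 3 + 1) ≤ 3 * m * St ^ 3 := by
    calc m * (2 * St ^ 3 + 1) ≤ m * (3 * St ^ 3) := Nat.mul_le_mul_left _ (by omega)
      _ = 3 * m * St ^ 3 := by ring
  have h7 : 700 * Q ^ 2 * (m * (2 * St ^ 3 + 1)) ≤ K := by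
    have h9 : (700 * Q ^ 2 * (m * (2 * St ^ 3 + 1))) ^ 32 ≤ K ^ 32 := by
      calc (700 * Q ^ 2 * (m * (2 * St ^ 3 + 1))) ^ 32
          ≤ (700 * Q ^ 2 * (3 * m * St ^ 3)) ^ 32 :=
            Nat.pow_le_pow_left (Nat.mul_le_mul_left _ h6) 32
        _ = 2100 ^ 32 * Q ^ 64 * (m ^ 8) ^ 4 * (St ^ 32) ^ 3 := by
            rw [show 700 * Q ^ 2 * (3 * m * St ^ 3) = 2100 * Q ^ 2 * m * St ^ 3 by ring,
              mul_pow, mul_pow, mul_pow, ← pow_mul, ← pow_mul, ← pow_mul, ← pow_mul]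
        _ ≤ K * K * K ^ 4 * (K ^ 3) ^ 3 := by
            refine Nat.mul_le_mul (Nat.mul_le_mul (Nat.mul_le_mul hK hQK)
              (Nat.pow_le_pow_left h5 4)) (Nat.pow_le_pow_left h4 3)
        _ = K ^ 15 := by ring
        _ ≤ K ^ 32 := Nat.pow_le_pow_right hK1 (by norm_num)
    exact (Nat.pow_le_pow_iff_left (by norm_num)).1 h9
  refine ⟨h7, ?_⟩
  have hQ2 : 1 ≤ Q ^ 2 := Nat.one_le_pow _ _ hQ
  have hB : m * St ^ 3 ≤ 8 * K ^ 2 * Q ^ 2 := by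
    have e1 : m * St ^ 3 ≤ 700 * Q ^ 2 * (m * (2 * St ^ 3 + 1)) := by
      calc m * St ^ 3 ≤ m * (2 * St ^ 3 + 1) := Nat.mul_le_mul_left _ (by omega)
        _ ≤ 700 * Q ^ 2 * (m * (2 * St ^ 3 + 1)) := Nat.le_mul_of_pos_left _ (by positivity)
    have e2 : K ≤ 8 * K ^ 2 * Q ^ 2 := by
      calc K = 1 * K * 1 := by ring
        _ ≤ (8 * K) * K * Q ^ 2 := Nat.mul_le_mul (Nat.mul_le_mul_right _ (by omega)) hQ2
        _ = 8 * K ^ 2 * Q ^ 2 := by ring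
    exact e1.trans (h7.trans e2)
  have hH : (8 * K ^ 2 * Q ^ 2) ^ 32 ≤ K ^ 66 := by
    calc (8 * K ^ 2 * Q ^ 2) ^ 32 = 8 ^ 32 * K ^ 64 * Q ^ 64 := by
          rw [mul_pow, mul_pow, ← pow_mul, ← pow_mul]
      _ ≤ K * K ^ 64 * K := by
          refine Nat.mul_le_mul (Nat.mul_le_mul_right _ ?_) hQK
          exact le_trans (by norm_num) hK
      _ = K ^ 66 := by ring
  generalize 8 * K ^ 2 * Q ^ 2 = H at hB hH
  have h10 : (12 * St ^ 2 * H ^ 2 * (H + m * St ^ 3)) ^ 32 ≤ (K ^ 7) ^ 32 := by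
    calc (12 * St ^ 2 * H ^ 2 * (H + m * St ^ 3)) ^ 32
        ≤ (12 * St ^ 2 * H ^ 2 * (H + H)) ^ 32 :=
          Nat.pow_le_pow_left (Nat.mul_le_mul_left _ (Nat.add_le_add_left hB _)) 32
      _ = 24 ^ 32 * (St ^ 32) ^ 2 * (H ^ 32) ^ 3 := by
          rw [show 12 * St ^ 2 * H ^ 2 * (H + H) = 24 * St ^ 2 * H ^ 3 by ring,
            mul_pow, mul_pow, ← pow_mul, ← pow_mul, ← pow_mul, ← pow_mul]
      _ ≤ K * (K ^ 3) ^ 2 * (K ^ 66) ^ 3 := by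
          refine Nat.mul_le_mul (Nat.mul_le_mul (le_trans (by norm_num) hK)
            (Nat.pow_le_pow_left h4 2)) (Nat.pow_le_pow_left hH 3)
      _ = K ^ 205 := by ring
      _ ≤ K ^ 224 := Nat.pow_le_pow_right hK1 (by norm_num)
      _ = (K ^ 7) ^ 32 := by rw [← pow_mul]
  exact (Nat.pow_le_pow_iff_left (by norm_num)).1 h10

theorem params : ∃ K0 : ℕ, 1 ≤ K0 ∧ ∀ n Q : ℕ, 4 ≤ n → 1 ≤ Q → ∃ y k St m : ℕ,
    Par n y k St m ((K0 * (n * Q) ^ 64 : ℕ) : ℤ) Q (8 * ((K0 * (n * Q) ^ 64 : ℕ) : ℤ) ^ 2 * Q ^ 2) ∧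
    700 * (Q : ℤ) ^ 2 * (m * (2 * (St : ℤ) ^ 3 + 1)) ≤ ((K0 * (n * Q) ^ 64 : ℕ) : ℤ) := by
  obtain ⟨K1, hK1⟩ := asym 182
  refine ⟨K1 + 2100 ^ 32, le_trans (by norm_num) (Nat.le_add_left _ _), fun n Q hn hQ => ?_⟩
  have hnQ : 1 ≤ n * Q := Nat.mul_pos (by omega) hQ
  have hnQ64 : 1 ≤ (n * Q) ^ 64 := Nat.one_le_pow _ _ hnQ
  obtain ⟨K, hKdef⟩ : ∃ K : ℕ, K = (K1 + 2100 ^ 32) * (n * Q) ^ 64 := ⟨_, rfl⟩
  rw [← hKdef]
  have hKa : K1 + 2100 ^ 32 ≤ K := by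
    rw [hKdef]
    exact Nat.le_mul_of_pos_right _ hnQ64
  have hKb : (n * Q) ^ 64 ≤ K := by
    rw [hKdef]
    exact Nat.le_mul_of_pos_left _ (lt_of_lt_of_le (by norm_num) (Nat.le_add_left _ _))
  have hK2 : 2100 ^ 32 ≤ K := (Nat.le_add_left _ _).trans hKa
  have hKpos : 1 ≤ K := le_trans (by norm_num) hK2
  have hnK : n ^ 64 ≤ K :=
    (Nat.pow_le_pow_left (Nat.le_mul_of_pos_right n hQ) 64).trans hKb
  have hQK : Q ^ 64 ≤ K :=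
    (Nat.pow_le_pow_left (Nat.le_mul_of_pos_left Q (by omega)) 64).trans hKb
  obtain ⟨y, k, hy17, hyk, hy8, hbig⟩ := hK1 K ((Nat.le_add_right _ _).trans hKa)
  obtain ⟨m, hm0, hm240, hmp, hmle⟩ := modulus y hy17
  obtain ⟨St, hSt⟩ : ∃ St : ℕ, St = 40 * (k + 1) + 2 * n ^ 2 + 200 := ⟨_, rfl⟩
  have hSt1 : 1 ≤ St := by omega
  have hSt2 : St ≤ 1000 * y * n ^ 2 := by
    have e1 : 1 ≤ n ^ 2 := Nat.one_le_pow _ _ (by omega)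
    have e2 : St ≤ y + 2 * n ^ 2 + 200 := by omega
    obtain ⟨N, hN⟩ : ∃ N, N = n ^ 2 := ⟨_, rfl⟩
    rw [← hN] at e1 e2 ⊢
    nlinarith
  obtain ⟨hA, hW⟩ := A3_nat K y m n Q St (by omega) hQ hy17 hK2 hnK hQK hy8 hmle hSt2 hSt1
  have hAz : 700 * (Q : ℤ) ^ 2 * (m * (2 * (St : ℤ) ^ 3 + 1)) ≤ (K : ℤ) := by exact_mod_cast hA
  have hKz : (1 : ℤ) ≤ K := by exact_mod_cast hKpos
  have hQz : (1 : ℤ) ≤ Q := by exact_mod_cast hQ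
  refine ⟨y, k, St, m, ?_, hAz⟩
  refine ⟨hy17, hyk, ?_, hm0, hm240, hmp, hKz, hQz, ?_, ?_⟩
  · omega
  · obtain ⟨B, hB⟩ : ∃ B : ℤ, B = m * (2 * (St : ℤ) ^ 3 + 1) := ⟨_, rfl⟩
    rw [← hB] at hAz ⊢
    have hB0 : 0 ≤ B := by rw [hB]; positivity
    have hQ2 : (1 : ℤ) ≤ (Q : ℤ) ^ 2 := one_le_pow₀ hQz
    have hBK : B ≤ K := by nlinarith
    have hBKQ : B ≤ K * Q := by nlinarith
    have h1 : (K * Q + B) ^ 2 ≤ (2 * (K * Q) : ℤ) ^ 2 := by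
      apply pow_le_pow_left₀
      · positivity
      · linarith
    calc 2 * ((K : ℤ) * Q + B) ^ 2 ≤ 2 * (2 * (K * Q) : ℤ) ^ 2 := by linarith
      _ = 8 * (K : ℤ) ^ 2 * Q ^ 2 := by ring
  · have h1 : (12 * St ^ 2 * (8 * K ^ 2 * Q ^ 2) ^ 2 * (8 * K ^ 2 * Q ^ 2 + m * St ^ 3)) ^ 26 <
        y ^ (k + 1) := by
      refine lt_of_le_of_lt (Nat.pow_le_pow_left hW 26) ?_
      rw [← pow_mul]
      exact hbig
    exact_mod_cast h1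

end Pool.SD
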