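import Pool.Agent.Lib.MP_9dcace_sd.ADefs

/-!
ROW A4 (signs under perturbation, 120-180 lines).
`sign3`: write a = K p + δ, 0 <= δ <= B.  d3 a.. is a sum of 6 products of three entries; each product changes by at most
 (K Q + B)^3 - (K Q)^3 <= 7 (K Q)^2 B (B <= K Q), total <= 42 K^2 Q^2 B < K^3 (42 Q^2 B < K).  K^3 d3 p.. <= - K^3.
`sign4`: the same, by the expansion of the 4 x 4 determinant in four 3 x 3 determinants.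
-/

set_option autoImplicit false

namespace Pool.SD

private theorem A4_abs3 {a b c A B C : ℤ} (ha : |a| ≤ A) (hb : |b| ≤ B) (hc : |c| ≤ C) :
    |a * b * c| ≤ A * B * C := by
  rw [abs_mul, abs_mul]
  have hA := (abs_nonneg a).trans ha
  have hB := (abs_nonneg b).trans hb
  exact mul_le_mul (mul_le_mul ha hb (abs_nonneg _) hA) hc (abs_nonneg _) (mul_nonneg hA hB)

private theorem A4_delta {x y K B : ℤ} (h : K * y ≤ x ∧ x ≤ K * y + B) : |x - K * y| ≤ B := by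
  rw [abs_le]
  constructor <;> linarith [h.1, h.2]

private theorem A4_prod (K Q B : ℤ) (hK : 1 ≤ K) (hBM : B ≤ K * Q)
    {x1 x2 x3 y1 y2 y3 : ℤ} (q1 : |y1| ≤ Q) (q2 : |y2| ≤ Q) (q3 : |y3| ≤ Q)
    (h1 : K * y1 ≤ x1 ∧ x1 ≤ K * y1 + B) (h2 : K * y2 ≤ x2 ∧ x2 ≤ K * y2 + B)
    (h3 : K * y3 ≤ x3 ∧ x3 ≤ K * y3 + B) :
    |x1 * x2 * x3 - K ^ 3 * (y1 * y2 * y3)| ≤ 7 * (K * Q) ^ 2 * B := by
  have hK0 : (0 : ℤ) ≤ K := by linarith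
  have m : ∀ y : ℤ, |y| ≤ Q → |K * y| ≤ K * Q := by
    intro y hy
    rw [abs_mul, abs_of_nonneg hK0]
    exact mul_le_mul_of_nonneg_left hy hK0
  have m1 := m y1 q1
  have m2 := m y2 q2
  have m3 := m y3 q3
  have d1 := A4_delta h1
  have d2 := A4_delta h2
  have d3 := A4_delta h3
  set e1 := x1 - K * y1
  set e2 := x2 - K * y2
  set e3 := x3 - K * y3
  have t1 : |K * y1 * (K * y2) * e3| ≤ K * Q * (K * Q) * B := A4_abs3 m1 m2 d3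
  have t2 : |K * y1 * (K * y3) * e2| ≤ K * Q * (K * Q) * B := A4_abs3 m1 m3 d2
  have t3 : |K * y2 * (K * y3) * e1| ≤ K * Q * (K * Q) * B := A4_abs3 m2 m3 d1
  have t4 : |K * y1 * e2 * e3| ≤ K * Q * (K * Q) * B := A4_abs3 m1 (d2.trans hBM) d3
  have t5 : |K * y2 * e1 * e3| ≤ K * Q * (K * Q) * B := A4_abs3 m2 (d1.trans hBM) d3
  have t6 : |K * y3 * e1 * e2| ≤ K * Q * (K * Q) * B := A4_abs3 m3 (d1.trans hBM) d2
  have t7 : |e1 * e2 * e3| ≤ K * Q * (K * Q) * B := A4_abs3 (d1.trans hBM) (d2.trans hBM) d3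
  have key : x1 * x2 * x3 - K ^ 3 * (y1 * y2 * y3) =
      K * y1 * (K * y2) * e3 + K * y1 * (K * y3) * e2 + K * y2 * (K * y3) * e1 +
      K * y1 * e2 * e3 + K * y2 * e1 * e3 + K * y3 * e1 * e2 + e1 * e2 * e3 := by
    simp only [e1, e2, e3]; ring
  rw [key, abs_le]
  rw [abs_le] at t1 t2 t3 t4 t5 t6 t7
  constructor
  · linarith [t1.1, t2.1, t3.1, t4.1, t5.1, t6.1, t7.1]
  · linarith [t1.2, t2.2, t3.2, t4.2, t5.2, t6.2, t7.2]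

private theorem A4_diff (K Q B : ℤ) (hK : 1 ≤ K) (hBM : B ≤ K * Q)
    (pf pg ph af ag ah : Z3) (hpf : ∀ i, |pf i| ≤ Q) (hpg : ∀ i, |pg i| ≤ Q)
    (hph : ∀ i, |ph i| ≤ Q) (hf : ∀ i, K * pf i ≤ af i ∧ af i ≤ K * pf i + B)
    (hg : ∀ i, K * pg i ≤ ag i ∧ ag i ≤ K * pg i + B)
    (hh : ∀ i, K * ph i ≤ ah i ∧ ah i ≤ K * ph i + B) :
    |d3 af ag ah - K ^ 3 * d3 pf pg ph| ≤ 42 * (K * Q) ^ 2 * B := by
  have p := fun i j k => A4_prod K Q B hK hBM (hpf i) (hpg j) (hph k) (hf i) (hg j) (hh k)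
  have t1 := abs_le.1 (p 0 1 2)
  have t2 := abs_le.1 (p 0 2 1)
  have t3 := abs_le.1 (p 1 2 0)
  have t4 := abs_le.1 (p 1 0 2)
  have t5 := abs_le.1 (p 2 0 1)
  have t6 := abs_le.1 (p 2 1 0)
  rw [abs_le]
  simp only [d3, dz, cz0, cz1, cz2]
  constructor
  · linarith [t1.1, t2.2, t3.1, t4.2, t5.1, t6.2]
  · linarith [t1.2, t2.1, t3.2, t4.1, t5.2, t6.1]

private theorem A4_bd (Q : ℤ) (pf pg ph : Z3) (hpf : ∀ i, |pf i| ≤ Q) (hpg : ∀ i, |pg i| ≤ Q)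
    (hph : ∀ i, |ph i| ≤ Q) : |d3 pf pg ph| ≤ 6 * Q ^ 3 := by
  have p := fun i j k => A4_abs3 (hpf i) (hpg j) (hph k)
  have t1 := abs_le.1 (p 0 1 2)
  have t2 := abs_le.1 (p 0 2 1)
  have t3 := abs_le.1 (p 1 2 0)
  have t4 := abs_le.1 (p 1 0 2)
  have t5 := abs_le.1 (p 2 0 1)
  have t6 := abs_le.1 (p 2 1 0)
  rw [abs_le]
  simp only [d3, dz, cz0, cz1, cz2]
  constructor
  · linarith [t1.1, t2.2, t3.1, t4.2, t5.1, t6.2]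
  · linarith [t1.2, t2.1, t3.2, t4.1, t5.2, t6.1]

private theorem A4_BM {K Q B : ℤ} (hK : 1 ≤ K) (hQ : 1 ≤ Q) (hB : 0 ≤ B)
    (hBK : 700 * Q ^ 2 * B ≤ K) : B ≤ K * Q := by
  have hQ2 : (1 : ℤ) ≤ Q ^ 2 := one_le_pow₀ hQ
  have h1 : B ≤ Q ^ 2 * B := by nlinarith
  have h2 : K ≤ K * Q := by nlinarith
  have h3 : 0 ≤ Q ^ 2 * B := mul_nonneg (by positivity) hB
  linarith

theorem sign3 (K Q B : ℤ) (hK : 1 ≤ K) (hQ : 1 ≤ Q) (hB : 0 ≤ B) (hBK : 700 * Q ^ 2 * B ≤ K)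
    (pf pg ph af ag ah : Z3) (hpf : ∀ i, |pf i| ≤ Q) (hpg : ∀ i, |pg i| ≤ Q)
    (hph : ∀ i, |ph i| ≤ Q) (hf : ∀ i, K * pf i ≤ af i ∧ af i ≤ K * pf i + B)
    (hg : ∀ i, K * pg i ≤ ag i ∧ ag i ≤ K * pg i + B)
    (hh : ∀ i, K * ph i ≤ ah i ∧ ah i ≤ K * ph i + B) (h : d3 pf pg ph ≤ -1) :
    d3 af ag ah < 0 := by
  have hBM := A4_BM hK hQ hB hBK
  have h1 := (abs_le.1 (A4_diff K Q B hK hBM pf pg ph af ag ah hpf hpg hph hf hg hh)).2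
  have hK2 : (0 : ℤ) < K ^ 2 := by positivity
  have h2 : K ^ 3 * d3 pf pg ph ≤ K ^ 3 * (-1) :=
    mul_le_mul_of_nonneg_left h (by positivity)
  have h3 : K ^ 2 * (700 * Q ^ 2 * B) ≤ K ^ 2 * K := mul_le_mul_of_nonneg_left hBK hK2.le
  have h4 : 0 ≤ K ^ 2 * (Q ^ 2 * B) := by positivity
  have h5 : (0 : ℤ) < K ^ 3 := by positivity
  have e1 : 42 * (K * Q) ^ 2 * B = 42 * (K ^ 2 * (Q ^ 2 * B)) := by ring
  have e2 : K ^ 2 * (700 * Q ^ 2 * B) = 700 * (K ^ 2 * (Q ^ 2 * B)) := by ring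
  have e3 : K ^ 2 * K = K ^ 3 := by ring
  rw [e1] at h1
  rw [e2, e3] at h3
  linarith

private theorem A4_gap (ae af ag ah : Z3) (de df dg dh : ℤ) :
    gap ae af ag ah de df dg dh =
      de * d3 af ag ah - df * d3 ae ag ah - dg * d3 ae ah af - dh * d3 ae af ag := by
  simp only [gap, d3, dz, num, cz0, cz1, cz2]; ring

private theorem A4_term (K Q B T B' : ℤ) (hK : 1 ≤ K) (_hQ : 1 ≤ Q) (_hB : 0 ≤ B)
    (hBM : B ≤ K * Q) (hB' : 0 ≤ B') (hT : 1 ≤ T) (hTB' : B' ≤ T)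
    (pf pg ph af ag ah : Z3) (hpf : ∀ i, |pf i| ≤ Q) (hpg : ∀ i, |pg i| ≤ Q)
    (hph : ∀ i, |ph i| ≤ Q) (hf : ∀ i, K * pf i ≤ af i ∧ af i ≤ K * pf i + B)
    (hg : ∀ i, K * pg i ≤ ag i ∧ ag i ≤ K * pg i + B)
    (hh : ∀ i, K * ph i ≤ ah i ∧ ah i ≤ K * ph i + B) (d : ℤ) (hd : T ≤ d ∧ d ≤ T + B') :
    |d * d3 af ag ah - T * (K ^ 3 * d3 pf pg ph)| ≤
      84 * T * (K * Q) ^ 2 * B + 6 * K ^ 3 * Q ^ 3 * B' := by
  have h1 := A4_diff K Q B hK hBM pf pg ph af ag ah hpf hpg hph hf hg hh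
  have h2 := A4_bd Q pf pg ph hpf hpg hph
  have hd0 : |d| ≤ 2 * T := by
    rw [abs_le]; constructor <;> linarith [hd.1, hd.2]
  have hdT : |d - T| ≤ B' := by
    rw [abs_le]; constructor <;> linarith [hd.1, hd.2]
  have hK3 : |K ^ 3| ≤ K ^ 3 := by rw [abs_of_nonneg (by positivity)]
  have t1 : |d * (d3 af ag ah - K ^ 3 * d3 pf pg ph)| ≤ 2 * T * (42 * (K * Q) ^ 2 * B) := by
    rw [abs_mul]
    exact mul_le_mul hd0 h1 (abs_nonneg _) (by linarith)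
  have t2 : |(d - T) * K ^ 3 * d3 pf pg ph| ≤ B' * K ^ 3 * (6 * Q ^ 3) := A4_abs3 hdT hK3 h2
  have key : d * d3 af ag ah - T * (K ^ 3 * d3 pf pg ph) =
      d * (d3 af ag ah - K ^ 3 * d3 pf pg ph) + (d - T) * K ^ 3 * d3 pf pg ph := by ring
  rw [key]
  refine (abs_add_le _ _).trans ?_
  have e : 84 * T * (K * Q) ^ 2 * B + 6 * K ^ 3 * Q ^ 3 * B' =
      2 * T * (42 * (K * Q) ^ 2 * B) + B' * K ^ 3 * (6 * Q ^ 3) := by ring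
  rw [e]
  exact add_le_add t1 t2

theorem sign4 (K Q B T B' : ℤ) (hK : 1 ≤ K) (hQ : 1 ≤ Q) (hB : 0 ≤ B)
    (hBK : 700 * Q ^ 2 * B ≤ K) (hB' : 0 ≤ B') (hT : 1 ≤ T) (hTB : 100 * Q ^ 3 * B' ≤ T)
    (pe pf pg ph ae af ag ah : Z3) (de df dg dh : ℤ) (hpe : ∀ i, |pe i| ≤ Q)
    (hpf : ∀ i, |pf i| ≤ Q) (hpg : ∀ i, |pg i| ≤ Q) (hph : ∀ i, |ph i| ≤ Q)
    (he : ∀ i, K * pe i ≤ ae i ∧ ae i ≤ K * pe i + B)
    (hf : ∀ i, K * pf i ≤ af i ∧ af i ≤ K * pf i + B)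
    (hg : ∀ i, K * pg i ≤ ag i ∧ ag i ≤ K * pg i + B)
    (hh : ∀ i, K * ph i ≤ ah i ∧ ah i ≤ K * ph i + B) (hde : T ≤ de ∧ de ≤ T + B')
    (hdf : T ≤ df ∧ df ≤ T + B') (hdg : T ≤ dg ∧ dg ≤ T + B') (hdh : T ≤ dh ∧ dh ≤ T + B')
    (h : gap pe pf pg ph 1 1 1 1 ≤ -1) : gap ae af ag ah de df dg dh < 0 := by
  have hBM := A4_BM hK hQ hB hBK
  have hQ3 : (1 : ℤ) ≤ Q ^ 3 := one_le_pow₀ hQ
  have hTB' : B' ≤ T := by nlinarith [mul_nonneg (by linarith : (0 : ℤ) ≤ Q ^ 3 - 1) hB']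
  have P := fun (pf pg ph af ag ah : Z3) (hpf : ∀ i, |pf i| ≤ Q) (hpg : ∀ i, |pg i| ≤ Q)
    (hph : ∀ i, |ph i| ≤ Q) (hf : ∀ i, K * pf i ≤ af i ∧ af i ≤ K * pf i + B)
    (hg : ∀ i, K * pg i ≤ ag i ∧ ag i ≤ K * pg i + B)
    (hh : ∀ i, K * ph i ≤ ah i ∧ ah i ≤ K * ph i + B) (d : ℤ) (hd : T ≤ d ∧ d ≤ T + B') =>
    abs_le.1 (A4_term K Q B T B' hK hQ hB hBM hB' hT hTB' pf pg ph af ag ah hpf hpg hph hf hg hh d hd)
  have t1 := (P pf pg ph af ag ah hpf hpg hph hf hg hh de hde).2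
  have t2 := (P pe pg ph ae ag ah hpe hpg hph he hg hh df hdf).1
  have t3 := (P pe ph pf ae ah af hpe hph hpf he hh hf dg hdg).1
  have t4 := (P pe pf pg ae af ag hpe hpf hpg he hf hg dh hdh).1
  rw [A4_gap] at h ⊢
  have hTK : (0 : ℤ) < T * K ^ 3 := by positivity
  have h2 := mul_le_mul_of_nonneg_left h hTK.le
  have h3 : T * K ^ 2 * (700 * Q ^ 2 * B) ≤ T * K ^ 2 * K :=
    mul_le_mul_of_nonneg_left hBK (by positivity)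
  have h4 : K ^ 3 * (100 * Q ^ 3 * B') ≤ K ^ 3 * T :=
    mul_le_mul_of_nonneg_left hTB (by positivity)
  have h5 : 0 ≤ T * K ^ 2 * Q ^ 2 * B := by positivity
  have h6 : 0 ≤ K ^ 3 * Q ^ 3 * B' := by positivity
  have e1 : T * K ^ 2 * (700 * Q ^ 2 * B) = 700 * (T * K ^ 2 * Q ^ 2 * B) := by ring
  have e2 : T * K ^ 2 * K = T * K ^ 3 := by ring
  have e3 : K ^ 3 * (100 * Q ^ 3 * B') = 100 * (K ^ 3 * Q ^ 3 * B') := by ring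
  have e4 : K ^ 3 * T = T * K ^ 3 := by ring
  have e5 : 84 * T * (K * Q) ^ 2 * B + 6 * K ^ 3 * Q ^ 3 * B' =
    84 * (T * K ^ 2 * Q ^ 2 * B) + 6 * (K ^ 3 * Q ^ 3 * B') := by ring
  rw [e1, e2] at h3
  rw [e3, e4] at h4
  rw [e5] at t1 t2 t3 t4
  nlinarith [t1, t2, t3, t4, h2, h3, h4, h5, h6, hTK]

end Pool.SD
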