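import Pool.Agent.Lib.MP_9dcace_sd.ADefs

/-!
ROW A5 (the base configuration, 80-120 lines).
q f i := n * g f i - ∑ e, g e i (integers), n = card A.  |q f i| <= n N.
gap (q e) (q f) (q g) (q h) 1 1 1 1 = - dt4 (q f) (q g) (q h) (q e) (ring identity, as integers or reals), and dt4 is invariant under translations and
 homogeneous of degree 3: dt4 (q ..) = n^3 dt4 (g ..) > 0 by `Pos`; it is an integer, so <= -1 for the gap.
d3 (q f) (q g) (q h) = - dt4 (q f) (q g) (q h) 0, and 0 = ∑ e, q e, dt4 affine in the last argument: n * dt4 (q f) (q g) (q h) 0 = ∑ e, dt4 (q f) (q g) (q h) (q e) >= the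
 terms are 0 for e ∈ {f,g,h} and > 0 for the others (there is one: n >= 4).
-/

set_option autoImplicit false

namespace Pool.SD

/-- the integer version of `dt4` -/
private def dtz (p q r u : Z3) : ℤ :=
  (q 0 - p 0) * ((r 1 - p 1) * (u 2 - p 2) - (r 2 - p 2) * (u 1 - p 1))
  - (q 1 - p 1) * ((r 0 - p 0) * (u 2 - p 2) - (r 2 - p 2) * (u 0 - p 0))
  + (q 2 - p 2) * ((r 0 - p 0) * (u 1 - p 1) - (r 1 - p 1) * (u 0 - p 0))

private theorem gap_dtz (e f g h : Z3) : gap e f g h 1 1 1 1 = - dtz f g h e := by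
  simp only [gap, d3, dz, num, cz0, cz1, cz2, dtz]
  ring

private theorem d3_dtz (f g h : Z3) : d3 f g h = - dtz f g h 0 := by
  simp only [d3, dz, cz0, cz1, cz2, dtz, Pi.zero_apply]
  ring

private theorem dtz_affine (f g h : Z3) : ∃ c0 c1 c2 : ℤ, ∀ u : Z3,
    dtz f g h u = dtz f g h 0 + c0 * u 0 + c1 * u 1 + c2 * u 2 := by
  refine ⟨(g 1 - f 1) * (h 2 - f 2) - (g 2 - f 2) * (h 1 - f 1),
    (g 2 - f 2) * (h 0 - f 0) - (g 0 - f 0) * (h 2 - f 2),
    (g 0 - f 0) * (h 1 - f 1) - (g 1 - f 1) * (h 0 - f 0), ?_⟩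
  intro u
  simp only [dtz, Pi.zero_apply]
  ring

private theorem dtz_self (f g h : Z3) :
    dtz f g h f = 0 ∧ dtz f g h g = 0 ∧ dtz f g h h = 0 := by
  simp only [dtz]
  refine ⟨by ring, by ring, by ring⟩

theorem base {A : Type} [Fintype A] (S : Pool.SX.Sph A) (h4 : 4 ≤ Fintype.card A)
    (g : A → Fin 3 → ℕ) (hg : S.Pos (fun v i => (g v i : ℝ))) (N : ℕ) (hN : ∀ v i, g v i ≤ N) :
    ∃ q : A → Z3, (∀ f i, |q f i| ≤ ((Fintype.card A * N : ℕ) : ℤ)) ∧
      (∀ f g h, S.T f g h → d3 (q f) (q g) (q h) ≤ -1) ∧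
      (∀ e f g h, S.T f g h → e ≠ f → e ≠ g → e ≠ h →
        gap (q e) (q f) (q g) (q h) 1 1 1 1 ≤ -1) := by
  classical
  set n : ℕ := Fintype.card A with hn
  have hn0 : (0 : ℤ) < n := by
    have : 0 < n := by omega
    exact_mod_cast this
  set s : Fin 3 → ℤ := fun i => ∑ e, (g e i : ℤ) with hs
  set q : A → Z3 := fun f i => n * (g f i : ℤ) - s i with hq
  -- the sum of the points is zero
  have hsum : ∀ i, ∑ e, q e i = 0 := by
    intro i
    simp only [hq]
    rw [Finset.sum_sub_distrib, ← Finset.mul_sum, Finset.sum_const, Finset.card_univ, nsmul_eq_mul]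
    simp only [hs]
    ring
  -- scaling
  have hscale : ∀ u v w z : A, dtz (q u) (q v) (q w) (q z) =
      (n : ℤ) ^ 3 * dtz (fun i => (g u i : ℤ)) (fun i => (g v i : ℤ)) (fun i => (g w i : ℤ))
        (fun i => (g z i : ℤ)) := by
    intro u v w z
    simp only [dtz, hq]
    ring
  have hpos : ∀ u v w z : A, S.T u v w → z ≠ u → z ≠ v → z ≠ w →
      1 ≤ dtz (q u) (q v) (q w) (q z) := by
    intro u v w z ht h1 h2 h3
    have h5 := hg u v w z ht h1 h2 h3
    have h6 : ((dtz (fun i => (g u i : ℤ)) (fun i => (g v i : ℤ)) (fun i => (g w i : ℤ))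
        (fun i => (g z i : ℤ)) : ℤ) : ℝ) =
        Pool.SX.dt4 (fun i => (g u i : ℝ)) (fun i => (g v i : ℝ)) (fun i => (g w i : ℝ))
          (fun i => (g z i : ℝ)) := by
      simp only [dtz, Pool.SX.dt4]
      push_cast
      ring
    have h7 : 0 < dtz (fun i => (g u i : ℤ)) (fun i => (g v i : ℤ)) (fun i => (g w i : ℤ))
        (fun i => (g z i : ℤ)) := by
      have : (0 : ℝ) < ((dtz (fun i => (g u i : ℤ)) (fun i => (g v i : ℤ)) (fun i => (g w i : ℤ))
        (fun i => (g z i : ℤ)) : ℤ) : ℝ) := by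
        rw [h6]
        exact h5
      exact_mod_cast this
    rw [hscale]
    have h8 : 0 < (n : ℤ) ^ 3 * dtz (fun i => (g u i : ℤ)) (fun i => (g v i : ℤ))
        (fun i => (g w i : ℤ)) (fun i => (g z i : ℤ)) := by positivity
    omega
  refine ⟨q, ?_, ?_, ?_⟩
  · intro f i
    have h1 : (0 : ℤ) ≤ (g f i : ℤ) := by positivity
    have h2 : (g f i : ℤ) ≤ N := by exact_mod_cast hN f i
    have h3 : 0 ≤ s i := Finset.sum_nonneg fun e _ => by positivity
    have h5 : s i ≤ n * N := by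
      have h6 : s i ≤ ∑ _e : A, (N : ℤ) := Finset.sum_le_sum fun e _ => by exact_mod_cast hN e i
      rw [Finset.sum_const, Finset.card_univ, nsmul_eq_mul] at h6
      exact h6
    have h7 : (n : ℤ) * (g f i : ℤ) ≤ n * N := mul_le_mul_of_nonneg_left h2 hn0.le
    have h8 : 0 ≤ (n : ℤ) * (g f i : ℤ) := mul_nonneg hn0.le h1
    push_cast
    change |(n : ℤ) * (g f i : ℤ) - s i| ≤ _
    rw [abs_le]
    constructor <;> linarith
  · intro u v w ht
    rw [d3_dtz]
    obtain ⟨c0, c1, c2, hc⟩ := dtz_affine (q u) (q v) (q w)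
    have h1 : ∑ e, dtz (q u) (q v) (q w) (q e) = n * dtz (q u) (q v) (q w) 0 := by
      have h2 : ∑ e, dtz (q u) (q v) (q w) (q e) = ∑ e, (dtz (q u) (q v) (q w) 0 +
          c0 * q e 0 + c1 * q e 1 + c2 * q e 2) := Finset.sum_congr rfl fun e _ => hc (q e)
      rw [h2, Finset.sum_add_distrib, Finset.sum_add_distrib, Finset.sum_add_distrib,
        ← Finset.mul_sum, ← Finset.mul_sum, ← Finset.mul_sum, hsum, hsum, hsum, Finset.sum_const,
        Finset.card_univ, nsmul_eq_mul]
      ring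
    have h3 : ∀ e, 0 ≤ dtz (q u) (q v) (q w) (q e) := by
      intro e
      obtain ⟨k1, k2, k3⟩ := dtz_self (q u) (q v) (q w)
      by_cases e1 : e = u
      · rw [e1, k1]
      · by_cases e2 : e = v
        · rw [e2, k2]
        · by_cases e3 : e = w
          · rw [e3, k3]
          · have := hpos u v w e ht e1 e2 e3
            omega
    obtain ⟨e, he⟩ : ∃ e, e ∉ ({u, v, w} : Finset A) := by
      by_contra hcon
      push Not at hcon
      have h5 : (Finset.univ : Finset A) ⊆ {u, v, w} := fun e _ => hcon e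
      have h6 := Finset.card_le_card h5
      rw [Finset.card_univ] at h6
      have h7 : ({u, v, w} : Finset A).card ≤ 3 := Finset.card_le_three
      omega
    simp only [Finset.mem_insert, Finset.mem_singleton, not_or] at he
    have h5 : 1 ≤ ∑ e, dtz (q u) (q v) (q w) (q e) := by
      have h6 := Finset.single_le_sum (f := fun e => dtz (q u) (q v) (q w) (q e))
        (fun e _ => h3 e) (Finset.mem_univ e)
      have h7 := hpos u v w e ht he.1 he.2.1 he.2.2
      exact le_trans h7 h6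
    have h6 : 0 < dtz (q u) (q v) (q w) 0 := by
      by_contra hcon
      rw [not_lt] at hcon
      rw [h1] at h5
      have : (n : ℤ) * dtz (q u) (q v) (q w) 0 ≤ 0 := mul_nonpos_of_nonneg_of_nonpos hn0.le hcon
      omega
    omega
  · intro e u v w ht h1 h2 h3
    rw [gap_dtz]
    have := hpos u v w e ht h1 h2 h3
    omega

end Pool.SD
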