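import Pool.Agent.Lib.MP_9dcace_sd.ADefs
import Pool.Agent.Lib.MP_9dcace_sx.S1

/-!
ROW O1 (degeneracy and colouring).
-/

set_option autoImplicit false

open Classical

namespace Pool.SD

theorem nb_symm {A : Type} [Fintype A] (S : Pool.SX.Sph A) (f g : A) (h : nb S f g) :
    nb S g f := by
  obtain ⟨w, hw⟩ := h
  obtain ⟨w', _, hw'⟩ := S.opp hw
  exact ⟨w', hw'⟩

private theorem nb_cases {A F : Type} [Fintype A] [Fintype F] {S : Pool.SX.Sph A}
    {s : Pool.SX.Sch A F} (hs : Pool.SX.SchOf S s) {f g : A} (h : nb S f g) :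
    (∃ c, s.inn f ∧ g = s.out c f) ∨ (∃ c, s.inn g ∧ f = s.out c g) ∨
      (¬ s.inn f ∧ ¬ s.inn g ∧ f ≠ g) := by
  obtain ⟨w, hw⟩ := h
  have hne := S.ne hw
  have hout : ∀ i j : Fin 3, f = s.a i → g = s.a j →
      (¬ s.inn f ∧ ¬ s.inn g ∧ f ≠ g) := by
    intro i j hi hj
    exact ⟨fun h => h i hi, fun h => h j hj, hne⟩
  rcases hs.all f g w hw with ⟨g', k, h1, h2, -⟩ | ⟨h1, h2, -⟩ | ⟨h1, h2, -⟩ | ⟨h1, h2, -⟩
  · rcases s.edge g' k with he | ⟨hi, he⟩ | ⟨hi, he⟩
    · right; right
      refine hout k (k + 1) ?_ ?_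
      · rw [h1, he, s.o0]
      · rw [h2, he, s.o1]
    · left
      refine ⟨k + 1, ?_, ?_⟩
      · rw [h1]; exact hi
      · have h3 := s.tL0 (k + 1) (s.t k g') hi
        rw [← he] at h3
        rw [h2, h1, h3]
    · right; left
      refine ⟨k, ?_, ?_⟩
      · rw [h2]; exact hi
      · have h3 := s.tR0 k (s.t (k + 1) g') hi
        rw [← he] at h3
        rw [h1, h2, h3]
  · exact Or.inr (Or.inr (hout 1 0 h1 h2))
  · exact Or.inr (Or.inr (hout 0 2 h1 h2))
  · exact Or.inr (Or.inr (hout 2 1 h1 h2))

theorem degen {A F : Type} [Fintype A] [Fintype F] (S : Pool.SX.Sph A) (s : Pool.SX.Sch A F)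
    (hs : Pool.SX.SchOf S s) (W : Finset A) (hW : W.Nonempty) :
    ∃ f ∈ W, (W.filter (fun g => nb S f g)).card ≤ 5 := by
  by_contra hcon
  push Not at hcon
  set E := (W ×ˢ W).filter (fun q => nb S q.1 q.2) with hE
  set I := W.filter (fun v => s.inn v) with hI
  set O := W.filter (fun v => ¬ s.inn v) with hO
  set J := (I ×ˢ (Finset.univ : Finset (Fin 3))).filter (fun q => s.out q.2 q.1 ∈ W) with hJ
  -- lower bound
  have hEcard : E.card = ∑ f ∈ W, (W.filter (fun g => nb S f g)).card := by
    rw [hE, Finset.card_filter, Finset.sum_product]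
    refine Finset.sum_congr rfl fun f _ => ?_
    rw [Finset.card_filter]
  have hlow : 6 * W.card ≤ E.card := by
    rw [hEcard, mul_comm, ← smul_eq_mul, ← Finset.sum_const]
    exact Finset.sum_le_sum fun f hf => hcon f hf
  -- upper bound
  have hsub : E ⊆ J.image (fun q => (q.1, s.out q.2 q.1)) ∪
      J.image (fun q => (s.out q.2 q.1, q.1)) ∪ O.offDiag := by
    rintro ⟨f, g⟩ hq
    rw [hE, Finset.mem_filter, Finset.mem_product] at hq
    obtain ⟨⟨hf, hg⟩, hn⟩ := hq
    rw [Finset.mem_union, Finset.mem_union]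
    rcases nb_cases hs hn with ⟨c, h1, h2⟩ | ⟨c, h1, h2⟩ | ⟨h1, h2, h3⟩
    · left; left
      refine Finset.mem_image.2 ⟨(f, c), ?_, ?_⟩
      · rw [hJ, Finset.mem_filter, Finset.mem_product, hI, Finset.mem_filter]
        refine ⟨⟨⟨hf, h1⟩, Finset.mem_univ _⟩, ?_⟩
        simp only at h2 ⊢
        rw [← h2]; exact hg
      · simp only at h2 ⊢
        rw [← h2]
    · left; right
      refine Finset.mem_image.2 ⟨(g, c), ?_, ?_⟩
      · rw [hJ, Finset.mem_filter, Finset.mem_product, hI, Finset.mem_filter]
        refine ⟨⟨⟨hg, h1⟩, Finset.mem_univ _⟩, ?_⟩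
        simp only at h2 ⊢
        rw [← h2]; exact hf
      · simp only at h2 ⊢
        rw [← h2]
    · right
      rw [Finset.mem_offDiag, hO, Finset.mem_filter, Finset.mem_filter]
      exact ⟨⟨hf, h1⟩, ⟨hg, h2⟩, h3⟩
  have hup : E.card ≤ 2 * J.card + (O.card * O.card - O.card) := by
    refine (Finset.card_le_card hsub).trans ?_
    refine (Finset.card_union_le _ _).trans ?_
    rw [Finset.offDiag_card]
    refine Nat.add_le_add_right ?_ _
    refine (Finset.card_union_le _ _).trans ?_
    rw [two_mul]
    exact Nat.add_le_add Finset.card_image_le Finset.card_image_le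
  have hWc : I.card + O.card = W.card := Finset.card_filter_add_card_filter_not _
  have hO3 : O.card ≤ 3 := by
    have h1 : O ⊆ Finset.univ.image s.a := by
      intro v hv
      rw [hO, Finset.mem_filter] at hv
      have h2 := hv.2
      unfold Pool.SX.Sch.inn at h2
      push Not at h2
      obtain ⟨k, hk⟩ := h2
      exact Finset.mem_image.2 ⟨k, Finset.mem_univ _, hk.symm⟩
    refine (Finset.card_le_card h1).trans (Finset.card_image_le.trans ?_)
    simp
  have hJ3 : J.card ≤ 3 * I.card := by
    refine (Finset.card_filter_le _ _).trans ?_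
    rw [Finset.card_product, Finset.card_univ, Fintype.card_fin, mul_comm]
  have hWpos : 0 < W.card := hW.card_pos
  by_cases hO0 : O.card = 0
  · -- all vertices are inner
    have hWI : W = I := by
      have : O = ∅ := Finset.card_eq_zero.1 hO0
      ext v
      rw [hI, Finset.mem_filter]
      refine ⟨fun hv => ⟨hv, ?_⟩, fun h => h.1⟩
      by_contra hn
      have : v ∈ O := by rw [hO, Finset.mem_filter]; exact ⟨hv, hn⟩
      rw [‹O = ∅›] at this
      simp at this
    obtain ⟨v, hv, hmax⟩ := W.exists_max_image (fun v => s.r 0 v) hW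
    have hvi : s.inn v := by
      rw [hWI, hI, Finset.mem_filter] at hv
      exact hv.2
    have hvn : s.out 0 v ∉ W := by
      intro h
      have h1 := hmax _ h
      have h2 := (s.out_pot hvi 0).1
      exact absurd h1 (not_le.2 h2)
    have hlt : J.card < 3 * I.card := by
      have h1 : J ⊂ I ×ˢ (Finset.univ : Finset (Fin 3)) := by
        refine ⟨Finset.filter_subset _ _, fun h => ?_⟩
        have h2 : ((v, 0) : A × Fin 3) ∈ I ×ˢ (Finset.univ : Finset (Fin 3)) := by
          rw [Finset.mem_product]
          exact ⟨by rw [← hWI]; exact hv, Finset.mem_univ _⟩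
        have h3 := h h2
        rw [hJ, Finset.mem_filter] at h3
        exact hvn h3.2
      have h2 := Finset.card_lt_card h1
      rw [Finset.card_product, Finset.card_univ, Fintype.card_fin, mul_comm] at h2
      exact h2
    rw [hO0] at hup hWc
    omega
  · have h1 : O.card = 1 ∨ O.card = 2 ∨ O.card = 3 := by omega
    rcases h1 with h1 | h1 | h1 <;> rw [h1] at hup hWc <;> omega

private theorem order_aux {A : Type} [Fintype A] (S : Pool.SX.Sph A)
    (h : ∀ W : Finset A, W.Nonempty → ∃ f ∈ W, (W.filter (fun g => nb S f g)).card ≤ 5) :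
    ∀ (n : ℕ) (W : Finset A), W.card = n → ∃ idx col : A → ℕ,
      (∀ f ∈ W, idx f < n) ∧ (∀ f ∈ W, ∀ g ∈ W, idx f = idx g → f = g) ∧
      (∀ f ∈ W, (W.filter (fun g => nb S f g ∧ idx g < idx f)).card ≤ 5) ∧
      (∀ f ∈ W, col f < 6) ∧ (∀ f ∈ W, ∀ g ∈ W, nb S f g → col f ≠ col g) := by
  intro n
  induction n with
  | zero =>
    intro W hW
    rw [Finset.card_eq_zero] at hW
    subst hW
    exact ⟨fun _ => 0, fun _ => 0, by simp, by simp, by simp, by simp, by simp⟩
  | succ n ih =>
    intro W hW
    have hne : W.Nonempty := Finset.card_pos.1 (by omega)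
    obtain ⟨f₀, hf₀, h5⟩ := h W hne
    obtain ⟨idx, col, i1, i2, i3, i4, i5⟩ := ih (W.erase f₀) (by
      rw [Finset.card_erase_of_mem hf₀, hW, Nat.add_sub_cancel])
    -- a free colour
    obtain ⟨c, hc6, hc⟩ : ∃ c ∈ Finset.range 6, c ∉ (W.filter (fun g => nb S f₀ g)).image col := by
      apply Finset.exists_mem_notMem_of_card_lt_card
      rw [Finset.card_range]
      exact lt_of_le_of_lt Finset.card_image_le (by omega)
    have hself : ¬ nb S f₀ f₀ := fun ⟨w, hw⟩ => S.ne hw rfl
    have hmem : ∀ f ∈ W, f ≠ f₀ → f ∈ W.erase f₀ := fun f hf hne => Finset.mem_erase.2 ⟨hne, hf⟩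
    refine ⟨Function.update idx f₀ n, Function.update col f₀ c, ?_, ?_, ?_, ?_, ?_⟩
    · intro f hf
      by_cases hff : f = f₀
      · subst hff
        rw [Function.update_self]
        omega
      · rw [Function.update_of_ne hff]
        have := i1 f (hmem f hf hff)
        omega
    · intro f hf g hg hfg
      by_cases hff : f = f₀
      · by_cases hgg : g = f₀
        · rw [hff, hgg]
        · exfalso
          rw [hff, Function.update_self, Function.update_of_ne hgg] at hfg
          have := i1 g (hmem g hg hgg)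
          omega
      · by_cases hgg : g = f₀
        · exfalso
          rw [hgg, Function.update_self, Function.update_of_ne hff] at hfg
          have := i1 f (hmem f hf hff)
          omega
        · rw [Function.update_of_ne hff, Function.update_of_ne hgg] at hfg
          exact i2 f (hmem f hf hff) g (hmem g hg hgg) hfg
    · intro f hf
      by_cases hff : f = f₀
      · subst hff
        refine (Finset.card_le_card ?_).trans h5
        intro g hg
        rw [Finset.mem_filter] at hg ⊢
        exact ⟨hg.1, hg.2.1⟩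
      · refine (Finset.card_le_card ?_).trans (i3 f (hmem f hf hff))
        intro g hg
        rw [Finset.mem_filter] at hg ⊢
        obtain ⟨hgW, hn, hlt⟩ := hg
        have hgg : g ≠ f₀ := by
          rintro rfl
          rw [Function.update_self, Function.update_of_ne hff] at hlt
          have := i1 f (hmem f hf hff)
          omega
        rw [Function.update_of_ne hff, Function.update_of_ne hgg] at hlt
        exact ⟨hmem g hgW hgg, hn, hlt⟩
    · intro f hf
      by_cases hff : f = f₀
      · subst hff
        rw [Function.update_self]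
        exact Finset.mem_range.1 hc6
      · rw [Function.update_of_ne hff]
        exact i4 f (hmem f hf hff)
    · intro f hf g hg hn
      by_cases hff : f = f₀
      · subst hff
        have hgg : g ≠ f := fun h => hself (h ▸ hn)
        rw [Function.update_self, Function.update_of_ne hgg]
        intro hcc
        exact hc (Finset.mem_image.2 ⟨g, Finset.mem_filter.2 ⟨hg, hn⟩, hcc.symm⟩)
      · by_cases hgg : g = f₀
        · subst hgg
          rw [Function.update_self, Function.update_of_ne hff]
          intro hcc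
          exact hc (Finset.mem_image.2 ⟨f, Finset.mem_filter.2 ⟨hf, nb_symm S f g hn⟩, hcc⟩)
        · rw [Function.update_of_ne hff, Function.update_of_ne hgg]
          exact i5 f (hmem f hf hff) g (hmem g hg hgg) hn

theorem order_col {A : Type} [Fintype A] (S : Pool.SX.Sph A)
    (h : ∀ W : Finset A, W.Nonempty → ∃ f ∈ W, (W.filter (fun g => nb S f g)).card ≤ 5) :
    ∃ idx col : A → ℕ, Ord S idx col := by
  obtain ⟨idx, col, -, i2, i3, i4, i5⟩ := order_aux S h _ Finset.univ rfl
  exact ⟨idx, col, fun f g hfg => i2 f (Finset.mem_univ _) g (Finset.mem_univ _) hfg,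
    fun f => i3 f (Finset.mem_univ _), fun f => i4 f (Finset.mem_univ _),
    fun f g hn => i5 f (Finset.mem_univ _) g (Finset.mem_univ _) hn⟩

end Pool.SD
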