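import Pool.Agent.Lib.MP_9dcace_sd.A1
import Pool.Agent.Lib.MP_9dcace_sd.A2
import Pool.Agent.Lib.MP_9dcace_sd.A3
import Pool.Agent.Lib.MP_9dcace_sd.A4
import Pool.Agent.Lib.MP_9dcace_sd.A5
import Pool.Agent.Lib.MP_9dcace_sd.O1
import Pool.Agent.Lib.MP_9dcace_sx.ZFinal

/-!
Assembly: the integer system of planes and vertices of polynomial size.
-/

set_option autoImplicit false

open Classical

namespace Pool.SD

/-- an integer system: facets `A` with planes `a f . x = d f`, vertices `X f g h` for the triangles of the dual sphere -/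
structure Sys {A : Type} [Fintype A] (S : Pool.SX.Sph A) (a : A → Z3) (d : A → ℤ)
    (X : A → A → A → Z3) (N : ℤ) : Prop where
  rot : ∀ f g h, X g h f = X f g h
  on : ∀ f g h, S.T f g h → dz (a f) (X f g h) = d f
  lt : ∀ e f g h, S.T f g h → e ≠ f → e ≠ g → e ≠ h → dz (a e) (X f g h) < d e
  bd : ∀ f g h, S.T f g h → ∀ i, |X f g h i| ≤ N

theorem sys_of {A : Type} [Fintype A] (S : Pool.SX.Sph A) (h4 : 4 ≤ Fintype.card A) (q : A → Z3)
    (Q : ℕ) (hQ1 : 1 ≤ Q) (hq : ∀ f i, |q f i| ≤ (Q : ℤ))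
    (h3 : ∀ f g h, S.T f g h → d3 (q f) (q g) (q h) ≤ -1)
    (h4' : ∀ e f g h, S.T f g h → e ≠ f → e ≠ g → e ≠ h →
        gap (q e) (q f) (q g) (q h) 1 1 1 1 ≤ -1) (idx col : A → ℕ) (ho : Ord S idx col)
    (y k St m : ℕ) (K : ℤ) (hK : 1 ≤ K) (hp : Par (Fintype.card A) y k St m K Q (8 * K ^ 2 * Q ^ 2))
    (hB : 700 * (Q : ℤ) ^ 2 * (m * (2 * (St : ℤ) ^ 3 + 1)) ≤ K) :
    ∃ (a : A → Z3) (d : A → ℤ) (X : A → A → A → Z3),
      Sys S a d X (24 * K ^ 2 * Q ^ 2 * ((100 * Q ^ 3 + 1) * (240 * (48 * K ^ 3 * Q ^ 3) ^ 5))) := by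
  obtain ⟨a, ha, hab⟩ := normals S idx col ho q hp le_rfl hq
  have hQ1' : (1 : ℤ) ≤ Q := by exact_mod_cast hQ1
  set B : ℤ := m * (2 * (St : ℤ) ^ 3 + 1) with hBdef
  have hB0 : 0 ≤ B := by positivity
  have hBK : B ≤ K * Q := by
    have h1 : B ≤ 700 * (Q : ℤ) ^ 2 * B := by nlinarith [sq_nonneg ((Q : ℤ) - 1)]
    nlinarith
  -- bound for the entries
  have haK : ∀ f i, |a f i| ≤ 2 * (K * Q) := by
    intro f i
    obtain ⟨h1, h2⟩ := hab f i
    have h5 := hq f i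
    rw [abs_le] at h5 ⊢
    constructor
    · nlinarith [h5.1, h5.2]
    · nlinarith [h5.1, h5.2]
  have hM0 : 0 ≤ 2 * (K * (Q : ℤ)) := by positivity
  have hcz : ∀ f g i, |cz (a f) (a g) i| ≤ 2 * (2 * (K * Q)) ^ 2 := by
    intro f g i
    have hpr : ∀ j l, |a f j * a g l| ≤ (2 * (K * Q)) ^ 2 := by
      intro j l
      rw [abs_mul, sq]
      exact mul_le_mul (haK f j) (haK g l) (abs_nonneg _) hM0
    have key : ∀ j l j' l', |a f j * a g l - a f j' * a g l'| ≤ 2 * (2 * (K * Q)) ^ 2 := by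
      intro j l j' l'
      calc |a f j * a g l - a f j' * a g l'| ≤ |a f j * a g l| + |a f j' * a g l'| := abs_sub _ _
        _ ≤ 2 * (2 * (K * Q)) ^ 2 := by linarith [hpr j l, hpr j' l']
    fin_cases i
    · exact key _ _ _ _
    · exact key _ _ _ _
    · exact key _ _ _ _
  have hd3 : ∀ f g h, |d3 (a f) (a g) (a h)| ≤ 48 * K ^ 3 * Q ^ 3 := by
    intro f g h
    have hpr : ∀ i, |a f i * cz (a g) (a h) i| ≤ 2 * (K * Q) * (2 * (2 * (K * Q)) ^ 2) := by
      intro i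
      rw [abs_mul]
      exact mul_le_mul (haK f i) (hcz g h i) (abs_nonneg _) hM0
    have h5 : |d3 (a f) (a g) (a h)| ≤ |a f 0 * cz (a g) (a h) 0| + |a f 1 * cz (a g) (a h) 1| +
        |a f 2 * cz (a g) (a h) 2| := by
      unfold d3 dz
      exact (abs_add_le _ _).trans (add_le_add (abs_add_le _ _) le_rfl)
    have := hpr 0
    have := hpr 1
    have := hpr 2
    nlinarith
  have hBd1 : (1 : ℤ) ≤ 48 * K ^ 3 * Q ^ 3 := by
    have h1 : (1 : ℤ) ≤ K ^ 3 := one_le_pow₀ hK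
    have h2 : (1 : ℤ) ≤ (Q : ℤ) ^ 3 := one_le_pow₀ hQ1'
    nlinarith
  set B' : ℤ := 240 * (48 * K ^ 3 * Q ^ 3) ^ 5 with hB'def
  have hB'0 : 1 ≤ B' := by
    have : (1 : ℤ) ≤ (48 * K ^ 3 * Q ^ 3) ^ 5 := one_le_pow₀ hBd1
    linarith
  have hT1 : (1 : ℤ) ≤ 100 * Q ^ 3 * B' := by
    have h2 : (1 : ℤ) ≤ (Q : ℤ) ^ 3 := one_le_pow₀ hQ1'
    nlinarith
  obtain ⟨d, hd, hdiv⟩ := offsets S idx col ho y m hp.hy17 hp.hm240 a ha (48 * K ^ 3 * Q ^ 3) hBd1
    hd3 (100 * Q ^ 3 * B')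
  have hneg : ∀ f g h, S.T f g h → d3 (a f) (a g) (a h) < 0 := fun f g h hT =>
    sign3 K Q B hK hQ1' hB0 hB (q f) (q g) (q h) (a f) (a g) (a h) (hq f) (hq g) (hq h)
      (fun i => hab f i) (fun i => hab g i) (fun i => hab h i) (h3 f g h hT)
  have hgap : ∀ e f g h, S.T f g h → e ≠ f → e ≠ g → e ≠ h →
      gap (a e) (a f) (a g) (a h) (d e) (d f) (d g) (d h) < 0 := fun e f g h hT h1 h2 h5 =>
    sign4 K Q B (100 * Q ^ 3 * B') B' hK hQ1' hB0 hB (by linarith) hT1 le_rfl (q e) (q f) (q g)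
      (q h) (a e) (a f) (a g) (a h) (d e) (d f) (d g) (d h) (hq e) (hq f) (hq g) (hq h)
      (fun i => hab e i) (fun i => hab f i) (fun i => hab g i) (fun i => hab h i) (hd e) (hd f)
      (hd g) (hd h) (h4' e f g h hT h1 h2 h5)
  refine ⟨a, d, fun f g h i => num (a f) (a g) (a h) (d f) (d g) (d h) i / d3 (a f) (a g) (a h),
    ?_, ?_, ?_, ?_⟩
  · intro f g h
    funext i
    simp only [num_rot, d3_rot]
  · intro f g h hT
    have hne := (hneg f g h hT).ne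
    have hX : ∀ i, num (a f) (a g) (a h) (d f) (d g) (d h) i / d3 (a f) (a g) (a h) *
        d3 (a f) (a g) (a h) = num (a f) (a g) (a h) (d f) (d g) (d h) i := fun i =>
      Int.ediv_mul_cancel (hdiv f g h hT i)
    apply mul_right_cancel₀ hne
    rw [← dz_num1 (a f) (a g) (a h) (d f) (d g) (d h)]
    simp only [dz]
    rw [← hX 0, ← hX 1, ← hX 2]
    simp only [Int.mul_ediv_cancel _ hne]
    ring
  · intro e f g h hT h1 h2 h5
    have hne := (hneg f g h hT).ne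
    have hX : ∀ i, num (a f) (a g) (a h) (d f) (d g) (d h) i / d3 (a f) (a g) (a h) *
        d3 (a f) (a g) (a h) = num (a f) (a g) (a h) (d f) (d g) (d h) i := fun i =>
      Int.ediv_mul_cancel (hdiv f g h hT i)
    have h6 := hgap e f g h hT h1 h2 h5
    unfold gap at h6
    have h7 : dz (a e) (num (a f) (a g) (a h) (d f) (d g) (d h)) =
        dz (a e) (fun i => num (a f) (a g) (a h) (d f) (d g) (d h) i / d3 (a f) (a g) (a h)) *
          d3 (a f) (a g) (a h) := by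
      simp only [dz]
      linear_combination (-(a e 0)) * hX 0 - (a e 1) * hX 1 - (a e 2) * hX 2
    rw [h7, ← sub_mul] at h6
    have h8 := hneg f g h hT
    by_contra h9
    rw [not_lt] at h9
    nlinarith [mul_nonneg (sub_nonneg.mpr h9) (neg_nonneg.mpr h8.le)]
  · intro f g h hT i
    have hne := (hneg f g h hT).ne
    have h1 : |num (a f) (a g) (a h) (d f) (d g) (d h) i / d3 (a f) (a g) (a h)| ≤
        |num (a f) (a g) (a h) (d f) (d g) (d h) i| := by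
      have h5 := Int.ediv_mul_cancel (hdiv f g h hT i)
      have h6 : 1 ≤ |d3 (a f) (a g) (a h)| := Int.one_le_abs hne
      calc |num (a f) (a g) (a h) (d f) (d g) (d h) i / d3 (a f) (a g) (a h)|
          ≤ |num (a f) (a g) (a h) (d f) (d g) (d h) i / d3 (a f) (a g) (a h)| *
            |d3 (a f) (a g) (a h)| := le_mul_of_one_le_right (abs_nonneg _) h6
        _ = |num (a f) (a g) (a h) (d f) (d g) (d h) i| := by rw [← abs_mul, h5]
    refine h1.trans ?_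
    have hdb : ∀ f, |d f| ≤ (100 * Q ^ 3 + 1) * B' := by
      intro f
      have := hd f
      rw [abs_le]
      constructor <;> nlinarith [this.1, this.2]
    have hD0 : 0 ≤ (100 * (Q : ℤ) ^ 3 + 1) * B' := (abs_nonneg _).trans (hdb f)
    have hpr : ∀ e f' g', |d e * cz (a f') (a g') i| ≤
        (100 * Q ^ 3 + 1) * B' * (2 * (2 * (K * Q)) ^ 2) := by
      intro e f' g'
      rw [abs_mul]
      exact mul_le_mul (hdb e) (hcz f' g' i) (abs_nonneg _) hD0
    have h5 : |num (a f) (a g) (a h) (d f) (d g) (d h) i| ≤ |d f * cz (a g) (a h) i| +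
        |d g * cz (a h) (a f) i| + |d h * cz (a f) (a g) i| := by
      unfold num
      exact (abs_add_le _ _).trans (add_le_add (abs_add_le _ _) le_rfl)
    have e1 := hpr f g h
    have e2 := hpr g h f
    have e3 := hpr h f g
    have e4 : 24 * K ^ 2 * (Q : ℤ) ^ 2 * ((100 * Q ^ 3 + 1) * B') =
        (100 * Q ^ 3 + 1) * B' * (2 * (2 * (K * Q)) ^ 2) +
        (100 * Q ^ 3 + 1) * B' * (2 * (2 * (K * Q)) ^ 2) +
        (100 * Q ^ 3 + 1) * B' * (2 * (2 * (K * Q)) ^ 2) := by ring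
    rw [e4]
    linarith

/-- every simplicial sphere has a dual integer system of polynomial size -/
theorem exists_sys : ∃ P : Polynomial ℕ, ∀ (A : Type) [Fintype A] (S : Pool.SX.Sph A),
    4 ≤ Fintype.card A → ∃ (a : A → Z3) (d : A → ℤ) (X : A → A → A → Z3),
      Sys S a d X ((P.eval (Fintype.card A) : ℕ) : ℤ) := by
  obtain ⟨K0, hK0, hpar⟩ := params
  refine ⟨24 * (Polynomial.C K0 * (Polynomial.X * (Polynomial.X * Pool.SX.gridPoly)) ^ 64) ^ 2 *
    (Polynomial.X * Pool.SX.gridPoly) ^ 2 * ((100 * (Polynomial.X * Pool.SX.gridPoly) ^ 3 + 1) *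
      (240 * (48 * (Polynomial.C K0 * (Polynomial.X * (Polynomial.X * Pool.SX.gridPoly)) ^ 64) ^ 3 *
        (Polynomial.X * Pool.SX.gridPoly) ^ 3) ^ 5)), ?_⟩
  intro A _ S h4
  obtain ⟨g, hg, hgb⟩ := Pool.SX.sph_grid S h4
  obtain ⟨q, hq, h3, h4'⟩ := base S h4 g hg _ hgb
  obtain ⟨F, instF, s, hs⟩ := Pool.SX.exists_sch S h4
  obtain ⟨idx, col, ho⟩ := order_col S (fun W hW => degen S s hs W hW)
  set n := Fintype.card A with hn
  set Q : ℕ := n * Pool.SX.gridPoly.eval n with hQ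
  have hG1 : 1 ≤ Pool.SX.gridPoly.eval n := by
    rw [Pool.SX.gridPoly_eval]
    have : 1 ≤ 6 * n := by omega
    have h1 : 1 ≤ (6 * n) ^ 43 := Nat.one_le_pow _ _ this
    have h2 : 1 ≤ (1 + 8 * n ^ 2) ^ 3 := Nat.one_le_pow _ _ (by omega)
    nlinarith
  have hQ1 : 1 ≤ Q := by
    rw [hQ]
    nlinarith
  obtain ⟨y, k, St, m, hp, hB⟩ := hpar n Q h4 hQ1
  have hK : (1 : ℤ) ≤ ((K0 * (n * Q) ^ 64 : ℕ) : ℤ) := by
    have : 1 ≤ n * Q := by nlinarith
    have h1 : 1 ≤ (n * Q) ^ 64 := Nat.one_le_pow _ _ this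
    have h2 : 1 ≤ K0 * (n * Q) ^ 64 := by nlinarith
    exact_mod_cast h2
  obtain ⟨a, d, X, hX⟩ := sys_of S h4 q Q hQ1 hq h3 h4' idx col ho y k St m _ hK hp hB
  refine ⟨a, d, X, ?_⟩
  convert hX using 1
  simp only [Polynomial.eval_mul, Polynomial.eval_pow, Polynomial.eval_add, Polynomial.eval_one,
    Polynomial.eval_C, Polynomial.eval_X, Polynomial.eval_ofNat, ← hQ]
  push_cast
  ring

end Pool.SD
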