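import Mathlib

/-!
MP_9dcace_co, simple polytopes: integer vectors in space.
-/

set_option autoImplicit false

namespace Pool.SD

/-- integer vectors -/
abbrev Z3 := Fin 3 → ℤ

/-- scalar product -/
def dz (a x : Z3) : ℤ := a 0 * x 0 + a 1 * x 1 + a 2 * x 2

/-- cross product -/
def cz (a b : Z3) : Z3 := ![a 1 * b 2 - a 2 * b 1, a 2 * b 0 - a 0 * b 2, a 0 * b 1 - a 1 * b 0]

/-- determinant -/
def d3 (a b c : Z3) : ℤ := dz a (cz b c)

/-- `u` is not zero modulo `p` -/
def NZ (p : ℕ) (u : Z3) : Prop := ∃ i, ¬ (p : ℤ) ∣ u i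

/-- the moment curve -/
def mc (s : ℤ) : Z3 := ![1, s, s ^ 2]

theorem dz_def (a x : Z3) : dz a x = a 0 * x 0 + a 1 * x 1 + a 2 * x 2 := rfl

theorem cz0 (a b : Z3) : cz a b 0 = a 1 * b 2 - a 2 * b 1 := rfl
theorem cz1 (a b : Z3) : cz a b 1 = a 2 * b 0 - a 0 * b 2 := rfl
theorem cz2 (a b : Z3) : cz a b 2 = a 0 * b 1 - a 1 * b 0 := rfl
theorem mc0 (s : ℤ) : mc s 0 = 1 := rfl
theorem mc1 (s : ℤ) : mc s 1 = s := rfl
theorem mc2 (s : ℤ) : mc s 2 = s ^ 2 := rfl

/-- `N / D` is the solution of the three equations `a_f x = d_f`, `a_g x = d_g`, `a_h x = d_h` -/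
def num (af ag ah : Z3) (df dg dh : ℤ) : Z3 :=
  fun i => df * cz ag ah i + dg * cz ah af i + dh * cz af ag i

theorem dz_num1 (af ag ah : Z3) (df dg dh : ℤ) :
    dz af (num af ag ah df dg dh) = df * d3 af ag ah := by
  simp only [dz, num, d3, cz0, cz1, cz2]; ring

theorem dz_num2 (af ag ah : Z3) (df dg dh : ℤ) :
    dz ag (num af ag ah df dg dh) = dg * d3 af ag ah := by
  simp only [dz, num, d3, cz0, cz1, cz2]; ring

theorem dz_num3 (af ag ah : Z3) (df dg dh : ℤ) :
    dz ah (num af ag ah df dg dh) = dh * d3 af ag ah := by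
  simp only [dz, num, d3, cz0, cz1, cz2]; ring

theorem d3_rot (a b c : Z3) : d3 b c a = d3 a b c := by
  simp only [dz, d3, cz0, cz1, cz2]; ring

theorem num_rot (af ag ah : Z3) (df dg dh : ℤ) :
    num ag ah af dg dh df = num af ag ah df dg dh := by
  funext i; simp only [num]; ring

/-- `(a . u)(w . v) - (a . v)(w . u) = a . (w x (u x v))` -/
theorem resultant (a w u v : Z3) :
    dz a u * dz w v - dz a v * dz w u = dz a (cz w (cz u v)) := by
  simp only [dz, cz0, cz1, cz2]; ring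

theorem dz_cz_self (w a g : Z3) : dz w (cz a g) = - dz a (cz w g) := by
  simp only [dz, cz0, cz1, cz2]; ring

end Pool.SD
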