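import Pool.Agent.Lib.MP_9dcace_sd.LDefs

/-!
ROW L3 (transfer to the formulation of the problem, 80-120 lines).
Copy the proof of `Pool.SX.transfer` in MP_9dcace_sx/Z6.lean: the function G x := if h : x ∈ V then (fun i => (g ⟨x,h⟩ i : ℝ)) else 0.
-/

set_option autoImplicit false

open Classical

namespace Pool.SD

open Pool.SX (E3 dp)

private noncomputable def l3G (V : Finset (Fin 3 → ℝ)) (g : V → Fin 3 → ℕ)
    (x : Fin 3 → ℝ) : Fin 3 → ℝ :=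
  if h : x ∈ V then (fun i => (g ⟨x, h⟩ i : ℝ)) else 0

private theorem l3G_mem (V : Finset (Fin 3 → ℝ)) (g : V → Fin 3 → ℕ) (x : Fin 3 → ℝ)
    (hx : x ∈ V) : l3G V g x = fun i => (g ⟨x, hx⟩ i : ℝ) := by
  unfold l3G
  rw [dif_pos hx]

/-- the set form of the supporting property -/
private theorem l3_supp (V : Finset (Fin 3 → ℝ)) (G : (Fin 3 → ℝ) → (Fin 3 → ℝ))
    (P : V → Fin 3 → ℝ) (hP : ∀ v : V, G v = P v) (B : Finset (Fin 3 → ℝ)) (A : Finset V)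
    (hA : ∀ v : V, v ∈ A ↔ (v : Fin 3 → ℝ) ∈ B) :
    (∃ a : Fin 3 → ℝ, ∃ c : ℝ,
        (∀ x ∈ V, ∑ i, a i * G x i ≤ c) ∧
        ∀ x ∈ V, (x ∈ B ↔ ∑ i, a i * G x i = c)) ↔ Pool.SX.Supp P A := by
  constructor
  · rintro ⟨a, c, h1, h2⟩
    refine ⟨a, c, fun v => ?_, fun v => ?_⟩
    · have := h1 v v.2
      rw [hP v] at this
      exact this
    · have := h2 v v.2
      rw [hP v] at this
      exact (hA v).trans this
  · rintro ⟨a, c, h1, h2⟩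
    refine ⟨a, c, fun x hx => ?_, fun x hx => ?_⟩
    · have := h1 ⟨x, hx⟩
      rw [← hP ⟨x, hx⟩] at this
      exact this
    · have := h2 ⟨x, hx⟩
      rw [← hP ⟨x, hx⟩] at this
      exact (hA ⟨x, hx⟩).symm.trans this

theorem transfer (V : Finset (Fin 3 → ℝ)) (N : ℕ) (g : V → Fin 3 → ℕ) (hN : ∀ v i, g v i ≤ N)
    (hinj : Function.Injective (fun (v : V) (i : Fin 3) => (g v i : ℝ)))
    (hconv : ∀ v : V, (fun i => (g v i : ℝ)) ∉
      convexHull ℝ ((fun (w : V) (i : Fin 3) => (g w i : ℝ)) '' {v}ᶜ))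
    (hspan : affineSpan ℝ (Set.range (fun (v : V) (i : Fin 3) => (g v i : ℝ))) = ⊤)
    (hS : ∀ B : Finset V, Pool.SX.Supp (fun v : V => (v : Fin 3 → ℝ)) B ↔
      Pool.SX.Supp (fun (v : V) (i : Fin 3) => (g v i : ℝ)) B) :
    ∃ G : (Fin 3 → ℝ) → (Fin 3 → ℝ),
        Set.InjOn G (V : Set (Fin 3 → ℝ)) ∧
        (∀ v ∈ V, ∀ i : Fin 3, ∃ m : ℕ, G v i = (m : ℝ) ∧ m ≤ N) ∧
        affineSpan ℝ (G '' (V : Set (Fin 3 → ℝ))) = ⊤ ∧
        (∀ v ∈ V, G v ∉ convexHull ℝ (G '' ((V : Set (Fin 3 → ℝ)) \ {v}))) ∧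
        ∀ B ⊆ V,
          ((∃ a : Fin 3 → ℝ, ∃ c : ℝ,
              (∀ x ∈ V, ∑ i, a i * x i ≤ c) ∧
              ∀ x ∈ V, (x ∈ B ↔ ∑ i, a i * x i = c)) ↔
           (∃ a : Fin 3 → ℝ, ∃ c : ℝ,
              (∀ x ∈ V, ∑ i, a i * G x i ≤ c) ∧
              ∀ x ∈ V, (x ∈ B ↔ ∑ i, a i * G x i = c))) := by
  refine ⟨l3G V g, ?_, ?_, ?_, ?_, ?_⟩
  · intro x hx y hy hxy
    have hx' : x ∈ V := Finset.mem_coe.mp hx
    have hy' : y ∈ V := Finset.mem_coe.mp hy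
    rw [l3G_mem V g x hx', l3G_mem V g y hy'] at hxy
    have := hinj hxy
    exact congrArg Subtype.val this
  · intro v hv i
    refine ⟨g ⟨v, hv⟩ i, ?_, hN _ _⟩
    rw [l3G_mem V g v hv]
  · have e : l3G V g '' (V : Set (Fin 3 → ℝ)) =
        Set.range (fun (v : V) (i : Fin 3) => (g v i : ℝ)) := by
      ext y
      constructor
      · rintro ⟨x, hx, rfl⟩
        have hx' : x ∈ V := Finset.mem_coe.mp hx
        exact ⟨⟨x, hx'⟩, (l3G_mem V g x hx').symm⟩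
      · rintro ⟨v, rfl⟩
        exact ⟨v.1, Finset.mem_coe.mpr v.2, l3G_mem V g v.1 v.2⟩
    rw [e]
    exact hspan
  · intro v hv
    have e : l3G V g '' ((V : Set (Fin 3 → ℝ)) \ {v}) =
        (fun (v : V) (i : Fin 3) => (g v i : ℝ)) '' {(⟨v, hv⟩ : V)}ᶜ := by
      ext y
      constructor
      · rintro ⟨x, ⟨hx, hxv⟩, rfl⟩
        have hx' : x ∈ V := Finset.mem_coe.mp hx
        refine ⟨⟨x, hx'⟩, ?_, (l3G_mem V g x hx').symm⟩
        intro h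
        exact hxv (congrArg Subtype.val (Set.mem_singleton_iff.mp h))
      · rintro ⟨w, hw, rfl⟩
        refine ⟨w.1, ⟨Finset.mem_coe.mpr w.2, ?_⟩, l3G_mem V g w.1 w.2⟩
        intro h
        exact hw (Set.mem_singleton_iff.mpr (Subtype.ext (Set.mem_singleton_iff.mp h)))
    rw [e, l3G_mem V g v hv]
    exact hconv ⟨v, hv⟩
  · intro B _
    have hA : ∀ v : V, v ∈ Finset.univ.filter (fun v : V => (v : Fin 3 → ℝ) ∈ B) ↔
        (v : Fin 3 → ℝ) ∈ B := by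
      intro v
      simp
    have h1 := l3_supp V (fun x => x) (fun v : V => (v : Fin 3 → ℝ)) (fun _ => rfl) B _ hA
    have h2 := l3_supp V (l3G V g) (fun (v : V) (i : Fin 3) => (g v i : ℝ))
      (fun v => l3G_mem V g v.1 v.2) B _ hA
    exact h1.trans ((hS _).trans h2.symm)

end Pool.SD
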