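import Pool.Agent.Lib.MP_9dcace_sd.ADefs

/-!
ROW A1 (choice of the normals, 200-300 lines).
Induction over the prefixes {f | idx f < r} (or over Finsets W closed downwards in idx: `Finset.induction_on_max_value`-style): for every r there is
a : A -> Z3 with, for all f with idx f < r:
 (i)   K q f i <= a f i <= K q f i + m (2 St^3 + 1);  (ii) m | a f i - mc (col f) i;  (iii) NZ p (a f) for all primes p >= y;
 (iv)  NZ p (cz (a f) (a g)) for neighbours f, g in the prefix;  (v) cop;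
 (vi)  cz (a g) (a h) ≠ 0 for g ≠ h in the prefix;  (vii) d3 (a f) (a g) (a h) ≠ 0 for three different f, g, h in the prefix.
Step: f the element with idx f = r (nothing to do if there is none).  Put
 a1 i := K q f i + ((mc (col f) i - K q f i) mod m)   (Int.emod, in [K q, K q + m), congruent to mc (col f) i modulo m),
 U := image of {(g,h) : T f g h, idx g, idx h < idx f} under cz (a g) (a h)   (card <= 5: the pair is determined by g (`uniq`), `five`),
 G := {a g : g earlier neighbour} ∪ {![0,0,1]}  (card <= 6),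
 Zs := {cz (a g) (a h) : g ≠ h earlier} ∪ {cz (a g) (e_g) : g earlier}, e_g a unit vector with cz (a g) e_g ≠ 0 (a g ≠ 0 by (iii)); card <= n^2.
 Inp holds: hU: T f g h gives nb g h (`rot`), (iv); hG: (iii); hUU: u ≠ u' come from (g,h), (g',h') with g ≠ g', then h ≠ h' (`rot`, `uniq`), and not (g' = h and h' = g)
   (T f g h and T f h g contradict `opp` + `uniq`); (g x h) x (g' x h') = d3 g h h' * g' - d3 g h g' * h' (up to sign): by (vii) and (vi) it is nonzero in all
   the cases (g' = h: only the term d3 g h h' * g'; h' = g: only the other one; all different: a g', a h' independent by (vi));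
   bounds |a g i| <= K Q + m (2 St^3 + 1), |cz| <= 2 (..)^2 <= H, |a1 i| <= K Q + m <= H.
 `choice` gives δ; a f := a1 + m δ (Function.update).  (iii) from NZ p (cz (a f) ![0,0,1]) = (a 1, - a 0, 0).  (iv) choice (B); cz (a g) (a f) = - cz (a f) (a g).
 (v) choice (A): d3 (a f) (a g) (a h) = dz (a f) (cz (a g) (a h)).  (vi) a f not parallel to a g because dz (a f) (cz (a g) e_g) ≠ 0.
 (vii) from Zs (permutations of the determinant).
Only (i), (ii), (iv), (v) are needed at the end.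
-/

set_option autoImplicit false

open Classical

namespace Pool.SD

private theorem A1_id1 (a b c d : Z3) (i : Fin 3) :
    cz c (cz (cz a b) (cz c d)) i = -(d3 a b c) * cz c d i := by
  fin_cases i
  · change cz c (cz (cz a b) (cz c d)) 0 = -(d3 a b c) * cz c d 0
    simp only [d3, dz, cz0, cz1, cz2]; ring
  · change cz c (cz (cz a b) (cz c d)) 1 = -(d3 a b c) * cz c d 1
    simp only [d3, dz, cz0, cz1, cz2]; ring
  · change cz c (cz (cz a b) (cz c d)) 2 = -(d3 a b c) * cz c d 2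
    simp only [d3, dz, cz0, cz1, cz2]; ring

private theorem A1_id2 (a b c d : Z3) (i : Fin 3) :
    cz (cz (cz a b) (cz c d)) d i = d3 a b d * cz c d i := by
  fin_cases i
  · change cz (cz (cz a b) (cz c d)) d 0 = d3 a b d * cz c d 0
    simp only [d3, dz, cz0, cz1, cz2]; ring
  · change cz (cz (cz a b) (cz c d)) d 1 = d3 a b d * cz c d 1
    simp only [d3, dz, cz0, cz1, cz2]; ring
  · change cz (cz (cz a b) (cz c d)) d 2 = d3 a b d * cz c d 2
    simp only [d3, dz, cz0, cz1, cz2]; ring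

private theorem A1_cz_zero_right (a : Z3) (i : Fin 3) : cz a 0 i = 0 := by
  fin_cases i
  · change cz a 0 0 = 0
    simp [cz0]
  · change cz a 0 1 = 0
    simp [cz1]
  · change cz a 0 2 = 0
    simp [cz2]

private theorem A1_cz_zero_left (a : Z3) (i : Fin 3) : cz 0 a i = 0 := by
  fin_cases i
  · change cz 0 a 0 = 0
    simp [cz0]
  · change cz 0 a 1 = 0
    simp [cz1]
  · change cz 0 a 2 = 0
    simp [cz2]

private theorem A1_cz_self (a : Z3) : cz a a = 0 := by
  funext i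
  fin_cases i
  · change cz a a 0 = 0
    rw [cz0]; ring
  · change cz a a 1 = 0
    rw [cz1]; ring
  · change cz a a 2 = 0
    rw [cz2]; ring

private theorem A1_cz_neg (a b : Z3) (i : Fin 3) : cz b a i = - cz a b i := by
  fin_cases i
  · change cz b a 0 = - cz a b 0
    rw [cz0, cz0]; ring
  · change cz b a 1 = - cz a b 1
    rw [cz1, cz1]; ring
  · change cz b a 2 = - cz a b 2
    rw [cz2, cz2]; ring

private theorem A1_cross (a b c d : Z3) (hcd : cz c d ≠ 0) (h : d3 a b c ≠ 0 ∨ d3 a b d ≠ 0) :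
    cz (cz a b) (cz c d) ≠ 0 := by
  intro hw
  obtain ⟨i, hi⟩ := Function.ne_iff.1 hcd
  have hi' : cz c d i ≠ 0 := hi
  rcases h with h | h
  · have h1 := A1_id1 a b c d i
    rw [hw, A1_cz_zero_right] at h1
    exact (mul_ne_zero (neg_ne_zero.2 h) hi') h1.symm
  · have h1 := A1_id2 a b c d i
    rw [hw, A1_cz_zero_left] at h1
    exact (mul_ne_zero h hi') h1.symm

private theorem A1_ex_e (a : Z3) (ha : a ≠ 0) : ∃ e : Z3, cz a e ≠ 0 := by
  obtain ⟨i, hi⟩ := Function.ne_iff.1 ha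
  have hi' : a i ≠ 0 := hi
  fin_cases i
  · refine ⟨![0, 1, 0], fun h => hi' ?_⟩
    have h1 := congrFun h 2
    rw [cz2] at h1
    simpa using h1
  · refine ⟨![1, 0, 0], fun h => hi' ?_⟩
    have h1 := congrFun h 2
    rw [cz2] at h1
    simpa using h1
  · refine ⟨![0, 1, 0], fun h => hi' ?_⟩
    have h1 := congrFun h 0
    rw [cz0] at h1
    simpa using h1

private theorem A1_mul_sub (B x y z w : ℤ) (hx : |x| ≤ B) (hy : |y| ≤ B) (hz : |z| ≤ B)
    (hw : |w| ≤ B) : |x * y - z * w| ≤ 2 * B ^ 2 := by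
  have hB : 0 ≤ B := (abs_nonneg x).trans hx
  have h1 : |x * y| ≤ B * B := by
    rw [abs_mul]
    exact mul_le_mul hx hy (abs_nonneg _) hB
  have h2 : |z * w| ≤ B * B := by
    rw [abs_mul]
    exact mul_le_mul hz hw (abs_nonneg _) hB
  have h3 : |x * y - z * w| ≤ |x * y| + |z * w| := abs_sub _ _
  nlinarith

private theorem A1_bound (B : ℤ) (a b : Z3) (ha : ∀ i, |a i| ≤ B) (hb : ∀ i, |b i| ≤ B)
    (i : Fin 3) : |cz a b i| ≤ 2 * B ^ 2 := by
  fin_cases i
  · change |cz a b 0| ≤ 2 * B ^ 2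
    rw [cz0]
    exact A1_mul_sub B _ _ _ _ (ha _) (hb _) (ha _) (hb _)
  · change |cz a b 1| ≤ 2 * B ^ 2
    rw [cz1]
    exact A1_mul_sub B _ _ _ _ (ha _) (hb _) (ha _) (hb _)
  · change |cz a b 2| ≤ 2 * B ^ 2
    rw [cz2]
    exact A1_mul_sub B _ _ _ _ (ha _) (hb _) (ha _) (hb _)

private theorem A1_nz_left {p : ℕ} {v g : Z3} (h : NZ p (cz v g)) : NZ p v := by
  by_contra hcon
  have h0 : ∀ i, (p : ℤ) ∣ v i := by
    intro i
    by_contra hi
    exact hcon ⟨i, hi⟩
  obtain ⟨i, hi⟩ := h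
  apply hi
  fin_cases i
  · change (p : ℤ) ∣ cz v g 0
    rw [cz0]
    exact dvd_sub (dvd_mul_of_dvd_left (h0 _) _) (dvd_mul_of_dvd_left (h0 _) _)
  · change (p : ℤ) ∣ cz v g 1
    rw [cz1]
    exact dvd_sub (dvd_mul_of_dvd_left (h0 _) _) (dvd_mul_of_dvd_left (h0 _) _)
  · change (p : ℤ) ∣ cz v g 2
    rw [cz2]
    exact dvd_sub (dvd_mul_of_dvd_left (h0 _) _) (dvd_mul_of_dvd_left (h0 _) _)

private theorem A1_nz_symm {p : ℕ} {v g : Z3} (h : NZ p (cz v g)) : NZ p (cz g v) := by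
  obtain ⟨i, hi⟩ := h
  refine ⟨i, ?_⟩
  rw [A1_cz_neg v g i, dvd_neg]
  exact hi

private theorem A1_ne_symm {v g : Z3} (h : cz v g ≠ 0) : cz g v ≠ 0 := by
  intro h0
  apply h
  funext i
  rw [A1_cz_neg g v i, h0]
  simp

private theorem A1_ne_zero {y : ℕ} {v : Z3} (h : ∀ p : ℕ, p.Prime → y ≤ p → NZ p v) : v ≠ 0 := by
  rintro rfl
  obtain ⟨p, hp, hpp⟩ := Nat.exists_infinite_primes y
  obtain ⟨i, hi⟩ := h p hpp hp
  exact hi (dvd_zero _)

/-- the inductive statement -/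
private structure A1_Inv {A : Type} [Fintype A] (S : Pool.SX.Sph A) (idx col : A → ℕ) (q : A → Z3)
    (y m St : ℕ) (K : ℤ) (r : ℕ) (a : A → Z3) : Prop where
  lo : ∀ f, idx f < r → ∀ i, K * q f i ≤ a f i
  hi : ∀ f, idx f < r → ∀ i, a f i ≤ K * q f i + m * (2 * (St : ℤ) ^ 3 + 1)
  cls : ∀ f, idx f < r → ∀ i, (m : ℤ) ∣ a f i - mc (col f) i
  nz : ∀ f, idx f < r → ∀ p : ℕ, p.Prime → y ≤ p → NZ p (a f)
  prim : ∀ f g, idx f < r → idx g < r → nb S f g → ∀ p : ℕ, p.Prime → y ≤ p →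
    NZ p (cz (a f) (a g))
  cop : ∀ f g h g' h', idx f < r → S.T f g h → S.T f g' h' → g ≠ g' → idx g < idx f →
    idx h < idx f → idx g' < idx f → idx h' < idx f → ∀ p : ℕ, p.Prime → y ≤ p →
    ¬ ((p : ℤ) ∣ d3 (a f) (a g) (a h) ∧ (p : ℤ) ∣ d3 (a f) (a g') (a h'))
  pair : ∀ f g, idx f < r → idx g < r → f ≠ g → cz (a f) (a g) ≠ 0
  trip : ∀ f g h, idx f < r → idx g < r → idx h < r → f ≠ g → f ≠ h → g ≠ h →
    d3 (a f) (a g) (a h) ≠ 0

section
variable {A : Type} [Fintype A] {S : Pool.SX.Sph A} {idx col : A → ℕ} {q : A → Z3}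
  {n y k St m : ℕ} {K Q H : ℤ} {r : ℕ} {a : A → Z3}

private theorem A1_kl (ha : A1_Inv S idx col q y m St K r a) {f g h g' h' : A}
    (h1 : S.T f g h) (h2 : S.T f g' h') (hne : g ≠ g') (hg : idx g < r) (hh : idx h < r)
    (hg' : idx g' < r) (hh' : idx h' < r) :
    cz (cz (a g) (a h)) (cz (a g') (a h')) ≠ 0 := by
  have e1 : g ≠ h := S.ne (S.rot h1)
  have e2 : g' ≠ h' := S.ne (S.rot h2)
  have e3 : h ≠ h' := by
    rintro rfl
    exact hne (S.uniq (S.rot (S.rot h1)) (S.rot (S.rot h2)))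
  refine A1_cross _ _ _ _ (ha.pair g' h' hg' hh' e2) ?_
  by_cases e4 : g' = h
  · right
    subst e4
    have e5 : g ≠ h' := by
      rintro rfl
      obtain ⟨w, hw, hT⟩ := S.opp h1
      exact hw (S.uniq hT (S.rot (S.rot h2)))
    exact ha.trip g g' h' hg hg' hh' e1 e5 e2
  · left
    exact ha.trip g h g' hg hh hg' e1 hne (Ne.symm e4)

private theorem A1_choice (ho : Ord S idx col) (hp : Par n y k St m K Q H)
    (hn : Fintype.card A ≤ n) (hq : ∀ f i, |q f i| ≤ Q)
    (ha : A1_Inv S idx col q y m St K r a) (f : A) (hf : idx f = r) :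
    ∃ v : Z3, (∀ i, K * q f i ≤ v i) ∧ (∀ i, v i ≤ K * q f i + m * (2 * (St : ℤ) ^ 3 + 1)) ∧
      (∀ i, (m : ℤ) ∣ v i - mc (col f) i) ∧
      (∀ p : ℕ, p.Prime → y ≤ p → NZ p v) ∧
      (∀ g, nb S f g → idx g < r → ∀ p : ℕ, p.Prime → y ≤ p → NZ p (cz v (a g))) ∧
      (∀ g h g' h', S.T f g h → S.T f g' h' → g ≠ g' → idx g < r →
        idx h < r → idx g' < r → idx h' < r → ∀ p : ℕ, p.Prime → y ≤ p →
        ¬ ((p : ℤ) ∣ d3 v (a g) (a h) ∧ (p : ℤ) ∣ d3 v (a g') (a h'))) ∧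
      (∀ g, idx g < r → cz v (a g) ≠ 0) ∧
      (∀ g h, idx g < r → idx h < r → g ≠ h → d3 v (a g) (a h) ≠ 0) := by
  have hm0 : (0 : ℤ) < m := by exact_mod_cast hp.hm
  obtain ⟨B, hB⟩ : ∃ B : ℤ, B = K * Q + m * (2 * (St : ℤ) ^ 3 + 1) := ⟨_, rfl⟩
  have hSt0 : (0 : ℤ) ≤ 2 * (St : ℤ) ^ 3 := by positivity
  have hKQ : 1 ≤ K * Q := by
    have := hp.hK
    have := hp.hQ
    nlinarith
  have hmB : (m : ℤ) ≤ m * (2 * (St : ℤ) ^ 3 + 1) := by nlinarith
  have hB1 : 1 ≤ B := by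
    rw [hB]
    linarith
  have hHB : 2 * B ^ 2 ≤ H := by
    rw [hB]
    exact hp.hH
  have hBH : B ≤ H := by nlinarith
  have hKq : ∀ (g : A) (i : Fin 3), |K * q g i| ≤ K * Q := by
    intro g i
    rw [abs_mul, abs_of_pos (lt_of_lt_of_le one_pos hp.hK)]
    exact mul_le_mul_of_nonneg_left (hq g i) (le_trans zero_le_one hp.hK)
  have haB : ∀ g, idx g < r → ∀ i, |a g i| ≤ B := by
    intro g hg i
    have h1 := ha.lo g hg i
    have h2 := ha.hi g hg i
    have h3 := abs_le.1 (hKq g i)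
    rw [abs_le, hB]
    constructor <;> linarith [h3.1, h3.2]
  choose e he using fun g : A => (show ∃ e : Z3, idx g < r → cz (a g) e ≠ 0 by
    by_cases hg : idx g < r
    · obtain ⟨e, he⟩ := A1_ex_e (a g) (A1_ne_zero (ha.nz g hg))
      exact ⟨e, fun _ => he⟩
    · exact ⟨0, fun h => absurd h hg⟩)
  let P : Finset (A × A) :=
    Finset.univ.filter (fun x => S.T f x.1 x.2 ∧ idx x.1 < r ∧ idx x.2 < r)
  let U : Finset Z3 := P.image (fun x => cz (a x.1) (a x.2))
  let N : Finset A := Finset.univ.filter (fun g => nb S f g ∧ idx g < idx f)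
  let G : Finset Z3 := insert ![0, 0, 1] (N.image a)
  let R : Finset (A × A) := Finset.univ.filter (fun x => idx x.1 < r ∧ idx x.2 < r)
  let Zs : Finset Z3 := R.image (fun x => if x.1 = x.2 then cz (a x.1) (e x.1) else
    cz (a x.1) (a x.2))
  let a1 : Z3 := fun i => K * q f i + ((mc (col f) i - K * q f i) % m)
  have hU : ∀ u, u ∈ U → ∃ g h, S.T f g h ∧ idx g < r ∧ idx h < r ∧ u = cz (a g) (a h) := by
    intro u hu
    obtain ⟨x, hx, rfl⟩ := Finset.mem_image.1 hu
    obtain ⟨-, hx⟩ := Finset.mem_filter.1 hx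
    exact ⟨x.1, x.2, hx.1, hx.2.1, hx.2.2, rfl⟩
  have hU' : ∀ g h, S.T f g h → idx g < r → idx h < r → cz (a g) (a h) ∈ U := by
    intro g h h1 h2 h3
    exact Finset.mem_image.2 ⟨(g, h), Finset.mem_filter.2 ⟨Finset.mem_univ _, h1, h2, h3⟩, rfl⟩
  have hZ' : ∀ g h, idx g < r → idx h < r → g ≠ h → cz (a g) (a h) ∈ Zs := by
    intro g h h1 h2 h3
    exact Finset.mem_image.2 ⟨(g, h), Finset.mem_filter.2 ⟨Finset.mem_univ _, h1, h2⟩, if_neg h3⟩
  have hZ'' : ∀ g, idx g < r → cz (a g) (e g) ∈ Zs := by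
    intro g h1
    exact Finset.mem_image.2 ⟨(g, g), Finset.mem_filter.2 ⟨Finset.mem_univ _, h1, h1⟩, if_pos rfl⟩
  have ha1lo : ∀ i, K * q f i ≤ a1 i := by
    intro i
    have := Int.emod_nonneg (mc (col f) i - K * q f i) hm0.ne'
    simp only [a1]
    linarith
  have ha1hi : ∀ i, a1 i < K * q f i + m := by
    intro i
    have := Int.emod_lt_of_pos (mc (col f) i - K * q f i) hm0
    simp only [a1]
    linarith
  have ha1d : ∀ i, (m : ℤ) ∣ a1 i - mc (col f) i := by
    intro i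
    have h1 := Int.emod_add_mul_ediv (mc (col f) i - K * q f i) m
    refine ⟨-((mc (col f) i - K * q f i) / m), ?_⟩
    simp only [a1]
    linarith
  have hInp : Inp y k St m H U G Zs a1 := by
    refine ⟨?_, ?_, hp.hy, ?_, hp.hm, hp.hmp, ?_, ?_, ?_, ?_, ?_, ?_, ?_, ?_, hp.big⟩
    · refine Finset.card_image_le.trans (le_trans ?_ (ho.five f))
      refine Finset.card_le_card_of_injOn Prod.fst ?_ ?_
      · intro x hx
        obtain ⟨-, hx⟩ := Finset.mem_filter.1 hx
        refine Finset.mem_coe.2 (Finset.mem_filter.2 ⟨Finset.mem_univ _, ⟨x.2, hx.1⟩, ?_⟩)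
        rw [hf]
        exact hx.2.1
      · intro x hx x' hx' hxx
        obtain ⟨-, hx⟩ := Finset.mem_filter.1 hx
        obtain ⟨-, hx'⟩ := Finset.mem_filter.1 hx'
        have h1 := hx'.1
        rw [← hxx] at h1
        exact Prod.ext hxx (S.uniq hx.1 h1)
    · refine (Finset.card_insert_le _ _).trans ?_
      have h1 : (N.image a).card ≤ 5 := Finset.card_image_le.trans (ho.five f)
      omega
    · have h1 : Zs.card ≤ n ^ 2 := by
        refine Finset.card_image_le.trans ?_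
        refine (Finset.card_le_univ _).trans ?_
        rw [Fintype.card_prod, sq]
        exact Nat.mul_le_mul hn hn
      have h2 := hp.hS
      omega
    · intro u hu p hpp hyp
      obtain ⟨g, h, h1, h2, h3, rfl⟩ := hU u hu
      exact ha.prim g h h2 h3 ⟨f, S.rot h1⟩ p hpp hyp
    · intro g hg p hpp hyp
      rcases Finset.mem_insert.1 hg with rfl | hg
      · refine ⟨2, ?_⟩
        change ¬ (p : ℤ) ∣ 1
        intro h1
        have h2 : p ∣ 1 := by exact_mod_cast h1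
        exact hpp.one_lt.ne' (Nat.dvd_one.1 h2)
      · obtain ⟨g', hg', rfl⟩ := Finset.mem_image.1 hg
        obtain ⟨-, hg'⟩ := Finset.mem_filter.1 hg'
        exact ha.nz g' (hf ▸ hg'.2) p hpp hyp
    · intro u hu u' hu' hne
      obtain ⟨g, h, h1, h2, h3, rfl⟩ := hU u hu
      obtain ⟨g', h', h1', h2', h3', rfl⟩ := hU u' hu'
      have hgg : g ≠ g' := by
        rintro rfl
        exact hne (by rw [S.uniq h1 h1'])
      exact A1_kl ha h1 h1' hgg h2 h3 h2' h3'
    · intro z hz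
      obtain ⟨x, hx, rfl⟩ := Finset.mem_image.1 hz
      obtain ⟨-, hx⟩ := Finset.mem_filter.1 hx
      by_cases hxx : x.1 = x.2
      · rw [if_pos hxx]
        exact he x.1 hx.1
      · rw [if_neg hxx]
        exact ha.pair x.1 x.2 hx.1 hx.2 hxx
    · linarith
    · intro u hu i
      obtain ⟨g, h, h1, h2, h3, rfl⟩ := hU u hu
      exact (A1_bound B _ _ (haB g h2) (haB h h3) i).trans hHB
    · intro g hg i
      rcases Finset.mem_insert.1 hg with rfl | hg
      · have : |(![0, 0, 1] : Z3) i| ≤ 1 := by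
          fin_cases i <;> simp
        exact this.trans (hB1.trans hBH)
      · obtain ⟨g', hg', rfl⟩ := Finset.mem_image.1 hg
        obtain ⟨-, hg'⟩ := Finset.mem_filter.1 hg'
        exact (haB g' (hf ▸ hg'.2) i).trans hBH
    · intro i
      refine le_trans ?_ hBH
      have h1 := ha1lo i
      have h2 := ha1hi i
      have h3 := abs_le.1 (hKq f i)
      rw [abs_le, hB]
      constructor <;> linarith [h3.1, h3.2]
  obtain ⟨δ, hδ, hA, hBB, hC⟩ := choice hInp
  have hδ' : ∀ i, (δ i : ℤ) ≤ 2 * (St : ℤ) ^ 3 := by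
    intro i
    exact_mod_cast hδ i
  refine ⟨fun i => a1 i + m * δ i, ?_, ?_, ?_, ?_, ?_, ?_, ?_, ?_⟩
  · intro i
    have h1 : (0 : ℤ) ≤ m * δ i := by positivity
    have h2 := ha1lo i
    show K * q f i ≤ a1 i + m * δ i
    linarith
  · intro i
    have h1 : (m : ℤ) * δ i ≤ m * (2 * (St : ℤ) ^ 3) := mul_le_mul_of_nonneg_left (hδ' i) hm0.le
    have h2 := ha1hi i
    show a1 i + m * δ i ≤ K * q f i + m * (2 * (St : ℤ) ^ 3 + 1)
    linarith
  · intro i
    show (m : ℤ) ∣ a1 i + m * δ i - mc (col f) i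
    have h1 : a1 i + m * δ i - mc (col f) i = (a1 i - mc (col f) i) + m * δ i := by ring
    rw [h1]
    exact dvd_add (ha1d i) (dvd_mul_right _ _)
  · intro p hpp hyp
    exact A1_nz_left (hBB _ (Finset.mem_insert_self _ _) p hpp hyp)
  · intro g hg1 hg2 p hpp hyp
    refine hBB _ (Finset.mem_insert_of_mem (Finset.mem_image.2 ⟨g, ?_, rfl⟩)) p hpp hyp
    exact Finset.mem_filter.2 ⟨Finset.mem_univ _, hg1, hf.symm ▸ hg2⟩
  · intro g h g' h' h1 h2 hne hg hh hg' hh' p hpp hyp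
    refine hA _ (hU' g h h1 hg hh) _ (hU' g' h' h2 hg' hh') ?_ p hpp hyp
    intro heq
    have h3 := A1_kl ha h1 h2 hne hg hh hg' hh'
    rw [heq, A1_cz_self] at h3
    exact h3 rfl
  · intro g hg h0
    have h1 := hC _ (hZ'' g hg)
    apply h1
    have h2 : dz (fun i => a1 i + m * δ i) (cz (a g) (e g)) =
        dz (e g) (cz (fun i => a1 i + m * δ i) (a g)) := by
      simp only [dz, cz0, cz1, cz2]; ring
    rw [h2, h0]
    simp [dz]
  · intro g h hg hh hne
    exact hC _ (hZ' g h hg hh hne)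

private theorem A1_update (ho : Ord S idx col) (ha : A1_Inv S idx col q y m St K r a) (f : A)
    (hf : idx f = r) (v : Z3) (v1 : ∀ i, K * q f i ≤ v i)
    (v2 : ∀ i, v i ≤ K * q f i + m * (2 * (St : ℤ) ^ 3 + 1))
    (v3 : ∀ i, (m : ℤ) ∣ v i - mc (col f) i)
    (v4 : ∀ p : ℕ, p.Prime → y ≤ p → NZ p v)
    (v5 : ∀ g, nb S f g → idx g < r → ∀ p : ℕ, p.Prime → y ≤ p → NZ p (cz v (a g)))
    (v6 : ∀ g h g' h', S.T f g h → S.T f g' h' → g ≠ g' → idx g < r →
        idx h < r → idx g' < r → idx h' < r → ∀ p : ℕ, p.Prime → y ≤ p →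
        ¬ ((p : ℤ) ∣ d3 v (a g) (a h) ∧ (p : ℤ) ∣ d3 v (a g') (a h')))
    (v7 : ∀ g, idx g < r → cz v (a g) ≠ 0)
    (v8 : ∀ g h, idx g < r → idx h < r → g ≠ h → d3 v (a g) (a h) ≠ 0) :
    A1_Inv S idx col q y m St K (r + 1) (Function.update a f v) := by
  have hlt : ∀ g, idx g < r + 1 → g ≠ f → idx g < r := by
    intro g hg hne
    have h1 : idx g ≠ idx f := fun h => hne (ho.inj h)
    omega
  have hup : ∀ g, g ≠ f → Function.update a f v g = a g := fun g hg =>
    Function.update_of_ne hg v a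
  have hself : Function.update a f v f = v := Function.update_self f v a
  have hnef : ∀ g, idx g < r → g ≠ f := by
    rintro g hg rfl
    omega
  refine ⟨?_, ?_, ?_, ?_, ?_, ?_, ?_, ?_⟩
  · intro g hg i
    by_cases hgf : g = f
    · rw [hgf, hself]
      exact v1 i
    · rw [hup g hgf]
      exact ha.lo g (hlt g hg hgf) i
  · intro g hg i
    by_cases hgf : g = f
    · rw [hgf, hself]
      exact v2 i
    · rw [hup g hgf]
      exact ha.hi g (hlt g hg hgf) i
  · intro g hg i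
    by_cases hgf : g = f
    · rw [hgf, hself]
      exact v3 i
    · rw [hup g hgf]
      exact ha.cls g (hlt g hg hgf) i
  · intro g hg
    by_cases hgf : g = f
    · rw [hgf, hself]
      exact v4
    · rw [hup g hgf]
      exact ha.nz g (hlt g hg hgf)
  · intro f1 g1 hf1 hg1 hnb p hpp hyp
    by_cases e1 : f1 = f
    · by_cases e2 : g1 = f
      · obtain ⟨h, hT⟩ := hnb
        exact absurd (e1.trans e2.symm) (S.ne hT)
      · rw [e1, hself, hup g1 e2]
        exact v5 g1 (e1 ▸ hnb) (hlt g1 hg1 e2) p hpp hyp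
    · by_cases e2 : g1 = f
      · rw [e2, hself, hup f1 e1]
        apply A1_nz_symm
        refine v5 f1 ?_ (hlt f1 hf1 e1) p hpp hyp
        obtain ⟨h, hT⟩ := hnb
        obtain ⟨w, -, hw⟩ := S.opp hT
        rw [e2] at hw
        exact ⟨w, hw⟩
      · rw [hup f1 e1, hup g1 e2]
        exact ha.prim f1 g1 (hlt f1 hf1 e1) (hlt g1 hg1 e2) hnb p hpp hyp
  · intro f1 g h g' h' hf1 h1 h2 hne i1 i2 i3 i4 p hpp hyp
    by_cases e1 : f1 = f
    · subst e1
      rw [hf] at i1 i2 i3 i4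
      rw [hself, hup g (hnef g i1), hup h (hnef h i2), hup g' (hnef g' i3), hup h' (hnef h' i4)]
      exact v6 g h g' h' h1 h2 hne i1 i2 i3 i4 p hpp hyp
    · have hf1r := hlt f1 hf1 e1
      rw [hup f1 e1, hup g (hnef g (i1.trans hf1r)), hup h (hnef h (i2.trans hf1r)),
        hup g' (hnef g' (i3.trans hf1r)), hup h' (hnef h' (i4.trans hf1r))]
      exact ha.cop f1 g h g' h' hf1r h1 h2 hne i1 i2 i3 i4 p hpp hyp
  · intro f1 g1 hf1 hg1 hne
    by_cases e1 : f1 = f
    · have e2 : g1 ≠ f := fun h => hne (e1.trans h.symm)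
      rw [e1, hself, hup g1 e2]
      exact v7 g1 (hlt g1 hg1 e2)
    · by_cases e2 : g1 = f
      · rw [e2, hself, hup f1 e1]
        exact A1_ne_symm (v7 f1 (hlt f1 hf1 e1))
      · rw [hup f1 e1, hup g1 e2]
        exact ha.pair f1 g1 (hlt f1 hf1 e1) (hlt g1 hg1 e2) hne
  · intro f1 g1 h1 hf1 hg1 hh1 n1 n2 n3
    by_cases e1 : f1 = f
    · have e2 : g1 ≠ f := fun h => n1 (e1.trans h.symm)
      have e3 : h1 ≠ f := fun h => n2 (e1.trans h.symm)
      rw [e1, hself, hup g1 e2, hup h1 e3]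
      exact v8 g1 h1 (hlt g1 hg1 e2) (hlt h1 hh1 e3) n3
    · by_cases e2 : g1 = f
      · have e3 : h1 ≠ f := fun h => n3 (e2.trans h.symm)
        rw [e2, hself, hup f1 e1, hup h1 e3, ← d3_rot (a f1) v (a h1)]
        exact v8 h1 f1 (hlt h1 hh1 e3) (hlt f1 hf1 e1) (Ne.symm n2)
      · by_cases e3 : h1 = f
        · rw [e3, hself, hup f1 e1, hup g1 e2, d3_rot v (a f1) (a g1)]
          exact v8 f1 g1 (hlt f1 hf1 e1) (hlt g1 hg1 e2) n1
        · rw [hup f1 e1, hup g1 e2, hup h1 e3]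
          exact ha.trip f1 g1 h1 (hlt f1 hf1 e1) (hlt g1 hg1 e2) (hlt h1 hh1 e3) n1 n2 n3

private theorem A1_all (ho : Ord S idx col) (hp : Par n y k St m K Q H)
    (hn : Fintype.card A ≤ n) (hq : ∀ f i, |q f i| ≤ Q) (r : ℕ) :
    ∃ a : A → Z3, A1_Inv S idx col q y m St K r a := by
  induction r with
  | zero =>
    refine ⟨fun _ => 0, ?_, ?_, ?_, ?_, ?_, ?_, ?_, ?_⟩
    · intro f hf
      exact absurd hf (Nat.not_lt_zero _)
    · intro f hf
      exact absurd hf (Nat.not_lt_zero _)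
    · intro f hf
      exact absurd hf (Nat.not_lt_zero _)
    · intro f hf
      exact absurd hf (Nat.not_lt_zero _)
    · intro f g hf
      exact absurd hf (Nat.not_lt_zero _)
    · intro f g h g' h' hf
      exact absurd hf (Nat.not_lt_zero _)
    · intro f g hf
      exact absurd hf (Nat.not_lt_zero _)
    · intro f g h hf
      exact absurd hf (Nat.not_lt_zero _)
  | succ r ih =>
    obtain ⟨a, ha⟩ := ih
    by_cases hex : ∃ f, idx f = r
    · obtain ⟨f, hf⟩ := hex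
      obtain ⟨v, v1, v2, v3, v4, v5, v6, v7, v8⟩ := A1_choice ho hp hn hq ha f hf
      exact ⟨_, A1_update ho ha f hf v v1 v2 v3 v4 v5 v6 v7 v8⟩
    · have hlt : ∀ g, idx g < r + 1 → idx g < r := by
        intro g hg
        have h1 : idx g ≠ r := fun h => hex ⟨g, h⟩
        omega
      refine ⟨a, ?_, ?_, ?_, ?_, ?_, ?_, ?_, ?_⟩
      · exact fun f hf => ha.lo f (hlt f hf)
      · exact fun f hf => ha.hi f (hlt f hf)
      · exact fun f hf => ha.cls f (hlt f hf)
      · exact fun f hf => ha.nz f (hlt f hf)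
      · exact fun f g hf hg => ha.prim f g (hlt f hf) (hlt g hg)
      · exact fun f g h g' h' hf => ha.cop f g h g' h' (hlt f hf)
      · exact fun f g hf hg => ha.pair f g (hlt f hf) (hlt g hg)
      · exact fun f g h hf hg hh => ha.trip f g h (hlt f hf) (hlt g hg) (hlt h hh)

end

theorem normals {A : Type} [Fintype A] (S : Pool.SX.Sph A) (idx col : A → ℕ) (ho : Ord S idx col)
    (q : A → Z3) {n y k St m : ℕ} {K Q H : ℤ} (hp : Par n y k St m K Q H)
    (hn : Fintype.card A ≤ n) (hq : ∀ f i, |q f i| ≤ Q) :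
    ∃ a : A → Z3, Nrm S idx col y m a ∧
      ∀ f i, K * q f i ≤ a f i ∧ a f i ≤ K * q f i + m * (2 * (St : ℤ) ^ 3 + 1) := by
  obtain ⟨a, ha⟩ := A1_all ho hp hn hq (Finset.univ.sup idx + 1)
  have hlt : ∀ f, idx f < Finset.univ.sup idx + 1 := fun f =>
    Nat.lt_succ_of_le (Finset.le_sup (f := idx) (Finset.mem_univ f))
  refine ⟨a, ⟨?_, ?_, ?_⟩, ?_⟩
  · exact fun f => ha.cls f (hlt f)
  · exact fun f g => ha.prim f g (hlt f) (hlt g)
  · exact fun f g h g' h' => ha.cop f g h g' h' (hlt f)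
  · exact fun f i => ⟨ha.lo f (hlt f) i, ha.hi f (hlt f) i⟩

end Pool.SD
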