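import Pool.Agent.Lib.MP_9dcace_sd.Defs

/-!
ROW N7 (the congruence of an offset, Chinese remainders, smooth part, modulus; 150-220 lines; may be split).
`unit_res`: let u = cz ag ah, z = num af ag ah 0 dg dh (so num .. x dg dh = x u + z coordinatewise).  gcd(u 0, u 1, u 2, D') = 1 (a common prime divides D' and all u i,
 against hu), so there is e : Z3 and an integer t with dz e u + t D' = 1 (`Int.gcd` Bezout, twice / `Ideal.span` argument).
 u x z ≡ 0 mod D':  cz u z = ah (dz ag z) - ag (dz ah z) up to sign and dz ag z = dg * d3, dz ah z = dh * d3 (from dz_num2/3 with df = 0), D' ∣ d3.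
 cz e (cz u z) = u (dz e z) - z (dz e u), so z ≡ (dz e z) u mod D' and r := - dz e z works.
`crt`: induction on s (`Nat.chineseRemainder`, or `Int.ModEq` with the product), then shift into [T, T + ∏ M i) with Int.emod.
`smooth`: d3 af ag ah ≡ d3 (mc c1) (mc c2) (mc c3) = (c2 - c1)(c3 - c1)(c3 - c2) =: V (mod m).  V divides 240 (decide over all c < 6) and V ≠ 0.
 V ∣ 240 ∣ m so V ∣ d3; D' := d3 / V.  If p < y is a prime dividing D' then p V ∣ d3 and p V ∣ 240 p ∣ m, so p V ∣ V: contradiction.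
`modulus`: m = 240 * primorial y' with the primes p < y: ∏ p ∈ (range y).filter Prime, p <= 4 ^ y (`primorial_le_four_pow` or its name in this Mathlib).
-/

set_option autoImplicit false

namespace Pool.SD

private theorem N7_bezout (D' : ℤ) (hD' : D' ≠ 0) (u : Z3)
    (hu : ∀ p : ℕ, p.Prime → (p : ℤ) ∣ D' → NZ p u) :
    ∃ (e : Z3) (t : ℤ), dz e u + t * D' = 1 := by
  set g1 : ℤ := (Int.gcd (u 0) (u 1) : ℤ) with hg1
  set g2 : ℤ := (Int.gcd g1 (u 2) : ℤ) with hg2
  set g3 : ℕ := Int.gcd g2 D' with hg3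
  have hone : g3 = 1 := by
    by_contra hne
    obtain ⟨p, hp, hpd⟩ := Nat.exists_prime_and_dvd hne
    have e3 : (p : ℤ) ∣ (g3 : ℤ) := Int.natCast_dvd_natCast.2 hpd
    have d2 : (p : ℤ) ∣ g2 := e3.trans (Int.gcd_dvd_left _ _)
    have dD : (p : ℤ) ∣ D' := e3.trans (Int.gcd_dvd_right _ _)
    have d1 : (p : ℤ) ∣ g1 := d2.trans (Int.gcd_dvd_left _ _)
    have du2 : (p : ℤ) ∣ u 2 := d2.trans (Int.gcd_dvd_right _ _)
    have du0 : (p : ℤ) ∣ u 0 := d1.trans (Int.gcd_dvd_left _ _)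
    have du1 : (p : ℤ) ∣ u 1 := d1.trans (Int.gcd_dvd_right _ _)
    obtain ⟨i, hi⟩ := hu p hp dD
    apply hi
    fin_cases i
    · exact du0
    · exact du1
    · exact du2
  have b1 := Int.gcd_eq_gcd_ab (u 0) (u 1)
  have b2 := Int.gcd_eq_gcd_ab g1 (u 2)
  have b3 := Int.gcd_eq_gcd_ab g2 D'
  rw [← hg1] at b1
  rw [← hg2] at b2
  rw [← hg3, hone] at b3
  refine ⟨![Int.gcdA g2 D' * Int.gcdA g1 (u 2) * Int.gcdA (u 0) (u 1),
    Int.gcdA g2 D' * Int.gcdA g1 (u 2) * Int.gcdB (u 0) (u 1),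
    Int.gcdA g2 D' * Int.gcdB g1 (u 2)], Int.gcdB g2 D', ?_⟩
  change Int.gcdA g2 D' * Int.gcdA g1 (u 2) * Int.gcdA (u 0) (u 1) * u 0 +
    Int.gcdA g2 D' * Int.gcdA g1 (u 2) * Int.gcdB (u 0) (u 1) * u 1 +
    Int.gcdA g2 D' * Int.gcdB g1 (u 2) * u 2 + Int.gcdB g2 D' * D' = 1
  have b3' : g2 * Int.gcdA g2 D' + D' * Int.gcdB g2 D' = 1 := by
    rw [← b3]
    norm_num
  calc _ = Int.gcdA g2 D' * (Int.gcdA g1 (u 2) * (u 0 * Int.gcdA (u 0) (u 1) +
        u 1 * Int.gcdB (u 0) (u 1)) + u 2 * Int.gcdB g1 (u 2)) + D' * Int.gcdB g2 D' := by ring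
    _ = Int.gcdA g2 D' * (g1 * Int.gcdA g1 (u 2) + u 2 * Int.gcdB g1 (u 2)) +
        D' * Int.gcdB g2 D' := by rw [← b1]; ring
    _ = g2 * Int.gcdA g2 D' + D' * Int.gcdB g2 D' := by rw [← b2]; ring
    _ = 1 := b3'


theorem unit_res (D' : ℤ) (hD' : D' ≠ 0) (af ag ah : Z3) (dg dh : ℤ) (hdiv : D' ∣ d3 af ag ah)
    (hu : ∀ p : ℕ, p.Prime → (p : ℤ) ∣ D' → NZ p (cz ag ah)) :
    ∃ r : ℤ, ∀ x : ℤ, D' ∣ x - r → ∀ i, D' ∣ num af ag ah x dg dh i := by
  obtain ⟨e, t, het⟩ := N7_bezout D' hD' (cz ag ah) hu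
  set u : Z3 := cz ag ah with hudef
  set z : Z3 := num af ag ah 0 dg dh with hz
  have hcross : ∀ i j, D' ∣ z i * u j - u i * z j := by
    intro i j
    refine hdiv.trans ?_
    have h01 : d3 af ag ah ∣ z 0 * u 1 - u 0 * z 1 :=
      ⟨dh * ag 2 - dg * ah 2, by
        simp only [hz, hudef, num, d3, dz, cz0, cz1, cz2]; ring⟩
    have h02 : d3 af ag ah ∣ z 0 * u 2 - u 0 * z 2 :=
      ⟨dg * ah 1 - dh * ag 1, by
        simp only [hz, hudef, num, d3, dz, cz0, cz1, cz2]; ring⟩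
    have h12 : d3 af ag ah ∣ z 1 * u 2 - u 1 * z 2 :=
      ⟨dh * ag 0 - dg * ah 0, by
        simp only [hz, hudef, num, d3, dz, cz0, cz1, cz2]; ring⟩
    have hsw : ∀ a b c d : ℤ, d3 af ag ah ∣ a * b - c * d → d3 af ag ah ∣ d * c - b * a := by
      intro a b c d h
      have e2 : d * c - b * a = -(a * b - c * d) := by ring
      rw [e2, dvd_neg]
      exact h
    have hself : ∀ a b : ℤ, d3 af ag ah ∣ a * b - b * a := by
      intro a b
      have e2 : a * b - b * a = 0 := by ring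
      rw [e2]
      exact dvd_zero _
    fin_cases i <;> fin_cases j
    · exact hself _ _
    · exact h01
    · exact h02
    · exact hsw _ _ _ _ h01
    · exact hself _ _
    · exact h12
    · exact hsw _ _ _ _ h02
    · exact hsw _ _ _ _ h12
    · exact hself _ _
  refine ⟨- dz e z, fun x hx i => ?_⟩
  have e1 : num af ag ah x dg dh i = (x - (- dz e z)) * u i +
      (e 0 * (z i * u 0 - u i * z 0) + e 1 * (z i * u 1 - u i * z 1) +
        e 2 * (z i * u 2 - u i * z 2) + t * z i * D') := by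
    have e2 : num af ag ah x dg dh i = x * u i + z i := by
      simp only [hz, hudef, num]
      ring
    have e3 : z i = z i * (dz e u + t * D') := by rw [het, mul_one]
    rw [e2]
    conv_lhs => rw [e3]
    simp only [dz]
    ring
  rw [e1]
  refine dvd_add (Dvd.dvd.mul_right hx _) (dvd_add (dvd_add (dvd_add ?_ ?_) ?_) ?_)
  · exact Dvd.dvd.mul_left (hcross i 0) _
  · exact Dvd.dvd.mul_left (hcross i 1) _
  · exact Dvd.dvd.mul_left (hcross i 2) _
  · exact dvd_mul_left _ _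

theorem crt {ι : Type} [DecidableEq ι] (s : Finset ι) (M : ι → ℕ) (hM : ∀ i ∈ s, 0 < M i)
    (hc : ∀ i ∈ s, ∀ j ∈ s, i ≠ j → Nat.Coprime (M i) (M j)) (r : ι → ℤ) (T : ℤ) :
    ∃ x : ℤ, T ≤ x ∧ x < T + ∏ i ∈ s, (M i : ℤ) ∧ ∀ i ∈ s, (M i : ℤ) ∣ x - r i := by
  induction s using Finset.induction_on with
  | empty => exact ⟨T, le_rfl, by simp, by simp⟩
  | insert a s ha ih =>
    obtain ⟨x0, -, -, hx0⟩ := ih (fun i hi => hM i (Finset.mem_insert_of_mem hi))
      (fun i hi j hj => hc i (Finset.mem_insert_of_mem hi) j (Finset.mem_insert_of_mem hj))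
    set P : ℕ := ∏ i ∈ s, M i with hP
    have hPpos : 0 < P := Finset.prod_pos fun i hi => hM i (Finset.mem_insert_of_mem hi)
    have hMa : 0 < M a := hM a (Finset.mem_insert_self a s)
    have hcop : Nat.Coprime (M a) P := by
      refine Nat.Coprime.prod_right fun i hi => ?_
      refine hc a (Finset.mem_insert_self a s) i (Finset.mem_insert_of_mem hi) ?_
      rintro rfl
      exact ha hi
    have hb : (M a : ℤ) * Int.gcdA (M a) P + (P : ℤ) * Int.gcdB (M a) P = 1 := by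
      rw [← Int.gcd_eq_gcd_ab]
      have e : Int.gcd (M a) P = 1 := by
        rw [Int.gcd_natCast_natCast]
        exact hcop
      rw [e]
      rfl
    set v := Int.gcdA (M a) P
    set u := Int.gcdB (M a) P
    set x' : ℤ := x0 * v * M a + r a * u * P with hx'
    have hd1 : (P : ℤ) ∣ x' - x0 := ⟨u * (r a - x0), by
      have e : x0 = x0 * ((M a : ℤ) * v + (P : ℤ) * u) := by rw [hb, mul_one]
      rw [hx']
      conv_lhs => rw [e]
      linear_combination (-x0 * v * M a - x0 * u * P + x0 * (v * M a)) * 0 + (x0 * v * M a) * (hb)⟩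
    have hd2 : (M a : ℤ) ∣ x' - r a := ⟨v * (x0 - r a), by
      rw [hx']
      linear_combination (r a) * hb⟩
    have hprod : ∏ i ∈ insert a s, (M i : ℤ) = (M a : ℤ) * P := by
      rw [Finset.prod_insert ha, hP]
      push_cast
      rfl
    have hN : (0 : ℤ) < (M a : ℤ) * P := by positivity
    refine ⟨T + (x' - T) % ((M a : ℤ) * P), ?_, ?_, ?_⟩
    · have := Int.emod_nonneg (x' - T) hN.ne'
      linarith
    · rw [hprod]
      have := Int.emod_lt_of_pos (x' - T) hN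
      linarith
    · have hd3 : ((M a : ℤ) * P) ∣ T + (x' - T) % ((M a : ℤ) * P) - x' := by
        refine ⟨-((x' - T) / ((M a : ℤ) * P)), ?_⟩
        have := Int.emod_add_mul_ediv (x' - T) ((M a : ℤ) * P)
        linarith
      intro i hi
      rw [Finset.mem_insert] at hi
      rcases hi with rfl | hi
      · have e := dvd_add ((dvd_mul_right _ _).trans hd3) hd2
        have e2 : T + (x' - T) % ((M i : ℤ) * P) - x' + (x' - r i) =
          T + (x' - T) % ((M i : ℤ) * P) - r i := by ring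
        rw [e2] at e
        exact e
      · have hMP : (M i : ℤ) ∣ P := by
          rw [hP]
          exact Int.natCast_dvd_natCast.2 (Finset.dvd_prod_of_mem M hi)
        have e := dvd_add (dvd_add ((hMP.trans (dvd_mul_left _ _)).trans hd3) (hMP.trans hd1))
          (hx0 i hi)
        have e2 : T + (x' - T) % ((M a : ℤ) * P) - x' + (x' - x0) + (x0 - r i) =
          T + (x' - T) % ((M a : ℤ) * P) - r i := by ring
        rw [e2] at e
        exact e

theorem smooth (y m : ℕ) (hy : 17 ≤ y) (hm : ∀ p : ℕ, p.Prime → p < y → 240 * p ∣ m)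
    (c1 c2 c3 : ℕ) (h1 : c1 < 6) (h2 : c2 < 6) (h3 : c3 < 6) (h12 : c1 ≠ c2) (h13 : c1 ≠ c3)
    (h23 : c2 ≠ c3) (af ag ah : Z3) (hf : ∀ i, (m : ℤ) ∣ af i - mc c1 i)
    (hg : ∀ i, (m : ℤ) ∣ ag i - mc c2 i) (hh : ∀ i, (m : ℤ) ∣ ah i - mc c3 i) :
    ∃ V D' : ℤ, d3 af ag ah = V * D' ∧ V ∣ 240 ∧
      ∀ p : ℕ, p.Prime → (p : ℤ) ∣ D' → y ≤ p := by
  have hcast : ((d3 af ag ah : ℤ) : ZMod m) = ((d3 (mc c1) (mc c2) (mc c3) : ℤ) : ZMod m) := by
    have kf : ∀ i, ((af i : ℤ) : ZMod m) = ((mc c1 i : ℤ) : ZMod m) := fun i =>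
      ((ZMod.intCast_eq_intCast_iff_dvd_sub _ _ _).2 (hf i)).symm
    have kg : ∀ i, ((ag i : ℤ) : ZMod m) = ((mc c2 i : ℤ) : ZMod m) := fun i =>
      ((ZMod.intCast_eq_intCast_iff_dvd_sub _ _ _).2 (hg i)).symm
    have kh : ∀ i, ((ah i : ℤ) : ZMod m) = ((mc c3 i : ℤ) : ZMod m) := fun i =>
      ((ZMod.intCast_eq_intCast_iff_dvd_sub _ _ _).2 (hh i)).symm
    simp only [d3, dz, cz0, cz1, cz2]
    simp only [Int.cast_add, Int.cast_mul, Int.cast_sub, kf, kg, kh]
  have hmd : (m : ℤ) ∣ d3 (mc c1) (mc c2) (mc c3) - d3 af ag ah :=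
    (ZMod.intCast_eq_intCast_iff_dvd_sub _ _ _).1 hcast
  have hV : d3 (mc c1) (mc c2) (mc c3) =
      ((c2 : ℤ) - c1) * ((c3 : ℤ) - c1) * ((c3 : ℤ) - c2) := by
    simp only [d3, dz, cz0, cz1, cz2, mc0, mc1, mc2]
    ring
  set V : ℤ := ((c2 : ℤ) - c1) * ((c3 : ℤ) - c1) * ((c3 : ℤ) - c2) with hVdef
  have hV240 : V ∣ 240 := by
    rw [hVdef]
    interval_cases c1 <;> interval_cases c2 <;> interval_cases c3 <;>
      first
        | exact absurd rfl h12
        | exact absurd rfl h13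
        | exact absurd rfl h23
        | norm_num
  have hV0 : V ≠ 0 := by
    intro h0
    rw [h0] at hV240
    norm_num at hV240
  have h240 : (240 : ℤ) ∣ m := by
    have h := hm 2 Nat.prime_two (by omega)
    have h' : 240 ∣ m := (dvd_mul_right 240 2).trans h
    exact_mod_cast h'
  have hVd : V ∣ d3 af ag ah := by
    rw [hV] at hmd
    have h := (hV240.trans h240).trans hmd
    exact (dvd_sub_right (dvd_refl V)).1 h
  obtain ⟨D', hD'⟩ := hVd
  refine ⟨V, D', hD', hV240, ?_⟩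
  intro p hp hpd
  by_contra hlt
  push Not at hlt
  have h1 : V * p ∣ m := by
    have h := hm p hp hlt
    have h2 : ((240 * p : ℕ) : ℤ) ∣ m := Int.natCast_dvd_natCast.2 h
    push_cast at h2
    exact (mul_dvd_mul_right hV240 _).trans h2
  have h2 : V * p ∣ d3 af ag ah := by
    rw [hD']
    exact mul_dvd_mul_left V hpd
  have h3 : V * p ∣ V := by
    rw [hV] at hmd
    exact (dvd_sub_left h2).1 (h1.trans hmd)
  have h4 : (p : ℤ) ∣ 1 := by
    have h5 : V * p ∣ V * 1 := by rw [mul_one]; exact h3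
    exact (mul_dvd_mul_iff_left hV0).1 h5
  have h5 : p ∣ 1 := by exact_mod_cast h4
  exact hp.one_lt.ne' (Nat.dvd_one.1 h5)

theorem modulus (y : ℕ) (hy : 17 ≤ y) : ∃ m : ℕ, 0 < m ∧
    (∀ p : ℕ, p.Prime → p < y → 240 * p ∣ m) ∧ (∀ p : ℕ, p.Prime → y ≤ p → ¬ p ∣ m) ∧
    m ≤ 240 * 4 ^ y := by
  have hpr : ∏ p ∈ (Finset.range y).filter Nat.Prime, p ≤ 4 ^ y := by
    have h := primorial_le_four_pow (y - 1)
    unfold primorial at h
    rw [Nat.sub_add_cancel (by omega : 1 ≤ y)] at h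
    exact h.trans (Nat.pow_le_pow_right (by norm_num) (Nat.sub_le _ _))
  refine ⟨240 * ∏ p ∈ (Finset.range y).filter Nat.Prime, p, ?_, ?_, ?_, ?_⟩
  · refine Nat.mul_pos (by norm_num) (Finset.prod_pos fun p hp => ?_)
    exact (Finset.mem_filter.1 hp).2.pos
  · intro p hp hlt
    refine Nat.mul_dvd_mul_left 240 ?_
    exact Finset.dvd_prod_of_mem (fun p : ℕ => p)
      (Finset.mem_filter.2 ⟨Finset.mem_range.2 hlt, hp⟩)
  · intro p hp hle hd
    rcases (Nat.Prime.dvd_mul hp).1 hd with h | h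
    · have e : 240 = 2 ^ 4 * (3 * 5) := by norm_num
      rw [e] at h
      rcases (Nat.Prime.dvd_mul hp).1 h with h | h
      · have := Nat.le_of_dvd (by norm_num) (hp.dvd_of_dvd_pow h)
        omega
      · have := Nat.le_of_dvd (by norm_num) h
        omega
    · obtain ⟨q, hq, hpq⟩ := (Nat.prime_iff.1 hp).exists_mem_finset_dvd h
      rw [Finset.mem_filter, Finset.mem_range] at hq
      have := (Nat.prime_dvd_prime_iff_eq hp hq.2).1 hpq
      omega
  · exact Nat.mul_le_mul_left 240 hpr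

end Pool.SD
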