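import Pool.Agent.Lib.MP_9dcace_sd.N6
import Pool.Agent.Lib.MP_9dcace_sd.N7
import Pool.Agent.Lib.MP_9dcace_sx.ZDefs

/-!
Definitions for the construction of the normals and offsets.
`S : Sph A` is the dual sphere: `A` = facets of the simple polytope, triangles = its vertices.
-/

set_option autoImplicit false

open Classical

namespace Pool.SD

/-- parameters: `n` = number of facets, `y` lower bound of the large primes, `St` range of the steps, `m` the modulus,
`K q_f <= a_f <= K q_f + m (2 St^3 + 1)`, `|q_f| <= Q`, `H` bound for the cross products of the normals -/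
structure Par (n y k St m : ℕ) (K Q H : ℤ) : Prop where
  hy17 : 17 ≤ y
  hy : 64 * (k + 1) ≤ y
  hS : 40 * (k + 1) + 2 * n ^ 2 + 200 ≤ St
  hm : 0 < m
  hm240 : ∀ p : ℕ, p.Prime → p < y → 240 * p ∣ m
  hmp : ∀ p : ℕ, p.Prime → y ≤ p → ¬ p ∣ m
  hK : 1 ≤ K
  hQ : 1 ≤ Q
  hH : 2 * (K * Q + m * (2 * (St : ℤ) ^ 3 + 1)) ^ 2 ≤ H
  big : (12 * (St : ℤ) ^ 2 * H ^ 2 * (H + m * St ^ 3)) ^ 26 < (y : ℤ) ^ (k + 1)

/-- neighbours in the dual sphere -/
def nb {A : Type} [Fintype A] (S : Pool.SX.Sph A) (f g : A) : Prop := ∃ h, S.T f g h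

/-- an ordering in which every facet has at most five earlier neighbours, with a proper colouring by 0..5 -/
structure Ord {A : Type} [Fintype A] (S : Pool.SX.Sph A) (idx col : A → ℕ) : Prop where
  inj : Function.Injective idx
  five : ∀ f, (Finset.univ.filter (fun g => nb S f g ∧ idx g < idx f)).card ≤ 5
  six : ∀ f, col f < 6
  proper : ∀ f g, nb S f g → col f ≠ col g

/-- the arithmetic properties of the normals -/
structure Nrm {A : Type} [Fintype A] (S : Pool.SX.Sph A) (idx col : A → ℕ) (y m : ℕ)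
    (a : A → Z3) : Prop where
  cls : ∀ f i, (m : ℤ) ∣ a f i - mc (col f) i
  prim : ∀ f g, nb S f g → ∀ p : ℕ, p.Prime → y ≤ p → NZ p (cz (a f) (a g))
  cop : ∀ f g h g' h', S.T f g h → S.T f g' h' → g ≠ g' → idx g < idx f → idx h < idx f →
    idx g' < idx f → idx h' < idx f → ∀ p : ℕ, p.Prime → y ≤ p →
    ¬ ((p : ℤ) ∣ d3 (a f) (a g) (a h) ∧ (p : ℤ) ∣ d3 (a f) (a g') (a h'))

/-- `de * d3 - dz ae num`: its quotient by `d3` is `de - ae . x` for the solution `x` of the three equations -/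
def gap (ae af ag ah : Z3) (de df dg dh : ℤ) : ℤ :=
  de * d3 af ag ah - dz ae (num af ag ah df dg dh)

end Pool.SD
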