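import Pool.Agent.Lib.MP_9dcace_sd.H1

/-!
ROW H3 (the vertices of the polar body are the facets, 120-180 lines).
`wt_eq`: β := α' - α is orthogonal to all the active points of α (dp α' (pt V v) = 1 = dp α (pt V v)), so β = 0 because α ∈ Wt V.
`wt_finite`: α ↦ act V α is injective on Wt V with values in V.powerset (`Set.Finite.of_injOn` or `Set.Finite.of_finite_image`).
`act_facet`: IsSupp: a = α, c = 1 + dp α (cen V).  act V α ≠ V: otherwise ∑ v ∈ V, dp α (pt V v) = card V ≠ 0 but ∑ pt = 0 (`sum_pt`).
 Maximal: B' = points of V with dp a v = c', act V α ⊆ B', B' ≠ V.  c'' := c' - dp a (cen V): dp a (pt V v) <= c'' for v ∈ V; summing, 0 <= card * c''.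
 If c'' = 0 all dp a (pt V v) <= 0 have sum 0, so they vanish and B' = V: contradiction.  c'' > 0: α' := c''⁻¹ • a ∈ Pol V and act V α' = B' ⊇ act V α, so α' = α (`wt_eq`).
-/

set_option autoImplicit false

open Classical

namespace Pool.SD

open Pool.SX (E3 dp dp_sub dp_sub_left dp_smul_left)

private theorem dp_sum {ι : Type} (a : E3) (s : Finset ι) (f : ι → E3) :
    dp a (∑ v ∈ s, f v) = ∑ v ∈ s, dp a (f v) := by
  unfold dp
  rw [Finset.sum_comm]
  apply Finset.sum_congr rfl
  intro i _
  rw [Finset.sum_apply, Finset.mul_sum]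

private theorem mem_act {V : Finset E3} {α v : E3} : v ∈ act V α ↔ v ∈ V ∧ dp α (pt V v) = 1 := by
  unfold act
  rw [Finset.mem_filter]

private theorem sum_dp_pt {V : Finset E3} (hV : V.Nonempty) (a : E3) :
    ∑ v ∈ V, dp a (pt V v) = 0 := by
  rw [← dp_sum, sum_pt hV]
  simp [dp]

theorem wt_eq {V : Finset E3} (α α' : E3) (hα : α ∈ Wt V) (h : act V α ⊆ act V α') : α' = α := by
  have h1 : α' - α = 0 := by
    apply hα.2
    intro v hv h1
    have h2 := h (mem_act.mpr ⟨hv, h1⟩)
    rw [dp_sub_left, (mem_act.mp h2).2, h1, sub_self]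
  exact sub_eq_zero.mp h1

theorem wt_finite (V : Finset E3) : (Wt V).Finite := by
  apply Set.Finite.of_finite_image (f := act V)
  · apply Set.Finite.subset (V.powerset.finite_toSet)
    rintro _ ⟨α, _, rfl⟩
    rw [Finset.mem_coe, Finset.mem_powerset]
    exact Finset.filter_subset _ _
  · intro α hα α' _ h
    exact (wt_eq α α' hα (le_of_eq h)).symm

theorem act_facet {V : Finset E3} (hV : Poly V) (α : E3) (hα : α ∈ Wt V) :
    IsFacet V (act V α) := by
  have hne := hV.ne
  have hcard : (0 : ℝ) < V.card := by exact_mod_cast hne.card_pos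
  refine ⟨⟨α, 1 + dp α (cen V), ?_, ?_⟩, ?_, ?_⟩
  · intro x hx
    have h1 := hα.1 x hx
    unfold pt at h1
    rw [dp_sub] at h1
    change dp α x ≤ _
    linarith
  · intro x
    rw [mem_act]
    unfold pt
    rw [dp_sub]
    change _ ↔ x ∈ V ∧ dp α x = _
    constructor
    · rintro ⟨h1, h2⟩
      exact ⟨h1, by linarith⟩
    · rintro ⟨h1, h2⟩
      exact ⟨h1, by linarith⟩
  · intro h
    have h1 := sum_dp_pt hne α
    have h2 : ∑ v ∈ V, dp α (pt V v) = ∑ v ∈ V, (1 : ℝ) := by
      apply Finset.sum_congr rfl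
      intro v hv
      rw [← h] at hv
      exact (mem_act.mp hv).2
    rw [h1, Finset.sum_const, nsmul_eq_mul, mul_one] at h2
    linarith
  · rintro B' ⟨a, c, hle, hB'⟩ hsub hneV
    set c' : ℝ := c - dp a (cen V) with hc'
    have hle' : ∀ v ∈ V, dp a (pt V v) ≤ c' := by
      intro v hv
      have h1 : dp a v ≤ c := hle v hv
      unfold pt
      rw [dp_sub]
      linarith
    have hmem : ∀ v, v ∈ B' ↔ v ∈ V ∧ dp a (pt V v) = c' := by
      intro v
      rw [hB' v]
      change v ∈ V ∧ dp a v = c ↔ _
      unfold pt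
      rw [dp_sub]
      constructor
      · rintro ⟨h1, h2⟩
        exact ⟨h1, by linarith⟩
      · rintro ⟨h1, h2⟩
        exact ⟨h1, by linarith⟩
    have hsum := sum_dp_pt hne a
    have h0 : 0 ≤ c' := by
      by_contra hlt
      rw [not_le] at hlt
      have h1 : ∑ v ∈ V, dp a (pt V v) < 0 := by
        apply Finset.sum_neg _ hne
        intro v hv
        exact lt_of_le_of_lt (hle' v hv) hlt
      linarith
    have hpos : 0 < c' := by
      rcases h0.lt_or_eq with h1 | h1
      · exact h1
      · exfalso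
        apply hneV
        have h2 : ∀ v ∈ V, dp a (pt V v) = 0 := by
          have h3 := (Finset.sum_eq_zero_iff_of_nonpos (f := fun v => dp a (pt V v))
            (s := V) (fun v hv => by rw [h1]; exact hle' v hv)).mp hsum
          exact h3
        ext v
        rw [hmem v, ← h1]
        constructor
        · intro h3
          exact h3.1
        · intro h3
          exact ⟨h3, h2 v h3⟩
    have hact : act V (c'⁻¹ • a) = B' := by
      ext v
      rw [mem_act, hmem v, dp_smul_left]
      constructor
      · rintro ⟨h1, h2⟩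
        refine ⟨h1, ?_⟩
        field_simp at h2
        exact h2
      · rintro ⟨h1, h2⟩
        refine ⟨h1, ?_⟩
        rw [h2]
        exact inv_mul_cancel₀ hpos.ne'
    have h4 : c'⁻¹ • a = α := wt_eq α _ hα (by rw [hact]; exact hsub)
    rw [← hact, h4]

end Pool.SD
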