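import Pool.Agent.Lib.MP_9dcace_sd.H2
import Pool.Agent.Lib.MP_9dcace_sd.H3

/-!
ROW H5 (the facets at a vertex span, 80-120 lines).
`vert_span`: suppose β ≠ 0 is orthogonal to all α ∈ W with v ∈ act V α.  For a small ε > 0 (W finite; dp α (pt V v) < 1 for the inactive ones) the two points pt V v ± ε β satisfy
 dp α _ <= 1 on W: by `bipolar` they are in convexHull (pt V '' V) = (convexHull V) - cen V (translation), so v ± ε β ∈ convexHull ℝ V, v is the midpoint of two different points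
 of convexHull ℝ V.  But v is an extreme point: v ∉ convexHull (V \ {v}).
`vert_inj`: y := pt V v - pt V v' is orthogonal to all α ∈ W active at v (they are active at v'), so y = 0.
-/

set_option autoImplicit false

open Classical

namespace Pool.SD

open Pool.SX (E3 dp)

private theorem H5_hull {V : Finset E3} {v : E3} (hv : v ∈ V) (ν : E3 → ℝ)
    (h0 : ∀ x ∈ V, 0 ≤ ν x) (h1 : ∑ x ∈ V, ν x = 1) (hs : ∑ x ∈ V, ν x • x = v)
    (hlt : ν v < 1) : v ∈ convexHull ℝ ((V : Set E3) \ {v}) := by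
  have ht : 0 < 1 - ν v := by linarith
  rw [← Finset.coe_erase, Finset.mem_convexHull']
  have e1 := Finset.add_sum_erase V ν hv
  have e2 := Finset.add_sum_erase V (fun x => ν x • x) hv
  refine ⟨fun x => (1 - ν v)⁻¹ * ν x, fun x hx =>
    mul_nonneg (inv_nonneg.2 ht.le) (h0 x (Finset.mem_of_mem_erase hx)), ?_, ?_⟩
  · rw [← Finset.mul_sum]
    have : ∑ x ∈ V.erase v, ν x = 1 - ν v := by linarith
    rw [this, inv_mul_cancel₀ ht.ne']
  · simp only [mul_smul]
    rw [← Finset.smul_sum]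
    have : ∑ x ∈ V.erase v, ν x • x = (1 - ν v) • v := by
      rw [hs] at e2
      rw [sub_smul, one_smul]
      exact eq_sub_of_add_eq' e2
    rw [this, smul_smul, inv_mul_cancel₀ ht.ne', one_smul]

private theorem H5_rep {V : Finset E3} {y : E3}
    (hy : y ∈ convexHull ℝ (pt V '' (V : Set E3))) :
    ∃ μ : E3 → ℝ, (∀ x ∈ V, 0 ≤ μ x) ∧ ∑ x ∈ V, μ x = 1 ∧ ∑ x ∈ V, μ x • x = y + cen V := by
  have hinj : Set.InjOn (pt V) (V : Set E3) := by
    intro a _ b _ h
    simpa [pt] using h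
  rw [← Finset.coe_image, Finset.mem_convexHull'] at hy
  obtain ⟨w, h0, h1, h2⟩ := hy
  rw [Finset.sum_image hinj] at h1 h2
  refine ⟨fun x => w (pt V x), fun x hx => h0 _ (Finset.mem_image_of_mem _ hx), h1, ?_⟩
  rw [← h2]
  simp only [pt, smul_sub, Finset.sum_sub_distrib]
  simp only [pt] at h1
  rw [← Finset.sum_smul, h1, one_smul, sub_add_cancel]

theorem vert_span {V : Finset E3} (hV : Poly V) (W : Finset E3) (hW : ∀ α, α ∈ W ↔ α ∈ Wt V)
    (v : E3) (hv : v ∈ V) (β : E3) (hβ : ∀ α ∈ W, v ∈ act V α → dp α β = 0) : β = 0 := by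
  -- a small parameter
  have hex : ∃ ε : ℝ, 0 < ε ∧ ∀ α ∈ W, dp α (pt V v) ≠ 1 →
      ε * |dp α β| ≤ 1 - dp α (pt V v) := by
    have hev : ∀ᶠ ε in nhdsWithin (0 : ℝ) (Set.Ioi 0), ∀ α ∈ W, dp α (pt V v) ≠ 1 →
        ε * |dp α β| ≤ 1 - dp α (pt V v) := by
      rw [Filter.eventually_all_finset]
      intro α hα
      by_cases h : dp α (pt V v) = 1
      · exact Filter.Eventually.of_forall fun ε h' => absurd h h'
      have hlt : 0 < 1 - dp α (pt V v) := by
        have h1 : dp α (pt V v) ≤ 1 := ((hW α).1 hα).1 v hv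
        have h2 : dp α (pt V v) < 1 := lt_of_le_of_ne h1 h
        linarith
      have hc : Filter.Tendsto (fun ε : ℝ => ε * |dp α β|) (nhdsWithin (0 : ℝ) (Set.Ioi 0))
          (nhds 0) := by
        have : Filter.Tendsto (fun ε : ℝ => ε * |dp α β|) (nhds 0) (nhds (0 * |dp α β|)) :=
          (continuous_id.mul continuous_const).tendsto 0
        rw [zero_mul] at this
        exact this.mono_left nhdsWithin_le_nhds
      filter_upwards [hc.eventually (gt_mem_nhds hlt)] with ε hε _ using hε.le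
    obtain ⟨ε, h1, h2⟩ := (hev.and self_mem_nhdsWithin).exists
    exact ⟨ε, h2, h1⟩
  obtain ⟨ε, hε, hsmall⟩ := hex
  have hmem : ∀ s : ℝ, |s| ≤ ε → pt V v + s • β ∈ convexHull ℝ (pt V '' (V : Set E3)) := by
    intro s hs
    apply hV.bipolar
    intro α hα
    have hαW := (hW α).2 hα
    rw [Pool.SX.dp_add, Pool.SX.dp_smul]
    by_cases h : dp α (pt V v) = 1
    · have h1 : v ∈ act V α := by
        rw [act, Finset.mem_filter]
        exact ⟨hv, h⟩
      rw [h, hβ α hαW h1]
      simp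
    · have h1 := hsmall α hαW h
      have h2 : s * dp α β ≤ ε * |dp α β| := by
        refine (le_abs_self _).trans ?_
        rw [abs_mul]
        exact mul_le_mul_of_nonneg_right hs (abs_nonneg _)
      linarith
  obtain ⟨μ, m0, m1, m2⟩ := H5_rep (hmem ε (by rw [abs_of_pos hε]))
  obtain ⟨μ', m0', m1', m2'⟩ := H5_rep (hmem (-ε) (by rw [abs_neg, abs_of_pos hε]))
  have e : ∀ s : ℝ, pt V v + s • β + cen V = v + s • β := by
    intro s
    simp only [pt]
    abel
  rw [e] at m2 m2'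
  let ν : E3 → ℝ := fun x => (1 / 2) * μ x + (1 / 2) * μ' x
  have n0 : ∀ x ∈ V, 0 ≤ ν x := fun x hx => by
    have := m0 x hx
    have := m0' x hx
    simp only [ν]
    linarith
  have n1 : ∑ x ∈ V, ν x = 1 := by
    simp only [ν]
    rw [Finset.sum_add_distrib, ← Finset.mul_sum, ← Finset.mul_sum, m1, m1']
    norm_num
  have n2 : ∑ x ∈ V, ν x • x = v := by
    simp only [ν, add_smul, mul_smul]
    rw [Finset.sum_add_distrib, ← Finset.smul_sum, ← Finset.smul_sum, m2, m2', ← smul_add]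
    have : v + ε • β + (v + -ε • β) = (2 : ℝ) • v := by
      rw [two_smul, neg_smul]; abel
    rw [this, smul_smul]
    norm_num
  have n3 : ¬ ν v < 1 := fun h => hV.conv v hv (H5_hull hv ν n0 n1 n2 h)
  have hle : ∀ κ : E3 → ℝ, (∀ x ∈ V, 0 ≤ κ x) → ∑ x ∈ V, κ x = 1 → κ v ≤ 1 := by
    intro κ k0 k1
    rw [← k1]
    exact Finset.single_le_sum k0 hv
  have l1 := hle μ m0 m1
  have l2 := hle μ' m0' m1'
  have l3 : μ v = 1 := by
    simp only [ν] at n3
    linarith
  have l4 : ∀ x ∈ V.erase v, μ x = 0 := by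
    have e1 := Finset.add_sum_erase V μ hv
    have e2 : ∑ x ∈ V.erase v, μ x = 0 := by linarith
    exact (Finset.sum_eq_zero_iff_of_nonneg fun x hx => m0 x (Finset.mem_of_mem_erase hx)).1 e2
  have l5 : ∑ x ∈ V, μ x • x = v := by
    rw [← Finset.add_sum_erase V (fun x => μ x • x) hv, l3, one_smul,
      Finset.sum_eq_zero (fun x hx => by rw [l4 x hx, zero_smul]), add_zero]
  rw [l5] at m2
  have l6 : ε • β = 0 := by
    have := m2.symm
    rwa [add_eq_left] at this
  exact (smul_eq_zero.1 l6).resolve_left hε.ne'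

theorem vert_inj {V : Finset E3} (hV : Poly V) (W : Finset E3) (hW : ∀ α, α ∈ W ↔ α ∈ Wt V)
    (v v' : E3) (hv : v ∈ V) (hv' : v' ∈ V) (h : ∀ α ∈ W, v ∈ act V α → v' ∈ act V α) :
    v = v' := by
  have _ := hv'
  have h1 : v - v' = 0 := by
    refine vert_span hV W hW v hv (v - v') fun α hα hact => ?_
    have h2 := h α hα hact
    rw [act, Finset.mem_filter] at hact h2
    have e : v - v' = pt V v - pt V v' := by
      simp only [pt]
      abel
    rw [e, Pool.SX.dp_sub, hact.2, h2.2, sub_self]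
  exact sub_eq_zero.1 h1

end Pool.SD
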