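import Pool.Agent.Lib.MP_9dcace_sd.H4
import Pool.Agent.Lib.MP_9dcace_sd.H5
import Pool.Agent.Lib.MP_9dcace_sx.GMain

/-!
ROW H6 (the dual sphere of a simple polytope).
-/

set_option autoImplicit false

open Classical

namespace Pool.SD

open Pool.SX (E3 dp)

private theorem exists_orth (x y : E3) : ∃ β : E3, β ≠ 0 ∧ dp x β = 0 ∧ dp y β = 0 := by
  let f : E3 →ₗ[ℝ] (Fin 2 → ℝ) :=
    { toFun := fun β => ![dp x β, dp y β]
      map_add' := fun a b => by
        ext i
        fin_cases i <;> simp [Pool.SX.dp_add]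
      map_smul' := fun c a => by
        ext i
        fin_cases i <;> simp [Pool.SX.dp_smul] }
  have h1 : LinearMap.ker f ≠ ⊥ := by
    apply LinearMap.ker_ne_bot_of_finrank_lt
    simp
  obtain ⟨β, hβ, hne⟩ := Submodule.exists_mem_ne_zero_of_ne_bot h1
  refine ⟨β, hne, ?_, ?_⟩
  · exact congrFun (LinearMap.mem_ker.1 hβ) 0
  · exact congrFun (LinearMap.mem_ker.1 hβ) 1

private theorem mem_act' {V : Finset E3} {α v : E3} : v ∈ act V α ↔ v ∈ V ∧ dp α (pt V v) = 1 := by
  unfold act
  rw [Finset.mem_filter]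

theorem exists_dual (V : Finset E3) (hV : Poly V) (hs : IsSimple V) :
    ∃ (W : Finset E3) (S : Pool.SX.Sph W) (al : W → E3) (be : W → ℝ) (tr : V → Fin 3 → W),
      4 ≤ Fintype.card W ∧ SSys S (fun v : V => (v : E3)) al be tr := by
  set W : Finset E3 := (wt_finite V).toFinset with hWdef
  have hW : ∀ α, α ∈ W ↔ α ∈ Wt V := fun α => by rw [hWdef, Set.Finite.mem_toFinset]
  obtain ⟨h4, S, hP⟩ := Pool.SX.exists_sph W (wt_conv W hW) (wt_span hV W hW)
    (fun a c ha hle => wt_simp hV hs W hW a c ha hle)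
  have hpol : ∀ α : W, ∀ v ∈ V, dp (α : E3) (pt V v) ≤ 1 := fun α v hv =>
    ((hW α).1 α.2).1 v hv
  have key : ∀ v : V, ∃ t : Fin 3 → W, S.T (t 0) (t 1) (t 2) ∧
      ∀ e : W, (v : E3) ∈ act V e ↔ ∃ j, t j = e := by
    intro v
    set B : Finset W := Finset.univ.filter (fun α : W => (v : E3) ∈ act V α) with hB
    have hBmem : ∀ α : W, α ∈ B ↔ dp (α : E3) (pt V v) = 1 := by
      intro α
      rw [hB, Finset.mem_filter, mem_act']
      exact ⟨fun h => h.2.2, fun h => ⟨Finset.mem_univ _, v.2, h⟩⟩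
    have hsupp : Pool.SX.Supp (fun α : W => (α : Fin 3 → ℝ)) B := by
      refine ⟨pt V v, 1, fun α => ?_, fun α => ?_⟩
      · have h1 := hpol α v v.2
        rw [Pool.SX.dp_comm] at h1
        exact h1
      · rw [hBmem, Pool.SX.dp_comm]
        exact Iff.rfl
    -- `pt V v ≠ 0`
    have hne : ∃ α : W, dp (α : E3) (pt V v) = 1 := by
      by_contra hcon
      push Not at hcon
      have h1 := vert_span hV W hW v v.2 (fun _ => 1) (fun α hα hv => by
        exact absurd (mem_act'.1 hv).2 (hcon ⟨α, hα⟩))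
      have h2 := congrFun h1 0
      norm_num at h2
    have hpt : pt V (v : E3) ≠ 0 := by
      intro h0
      obtain ⟨α, hα⟩ := hne
      rw [h0, Pool.SX.dp_def] at hα
      norm_num at hα
    have hBne : B ≠ Finset.univ := by
      intro hu
      obtain ⟨α, hα, hpos⟩ := hV.wt_pos (- pt V (v : E3)) (neg_ne_zero.2 hpt)
      have h1 : (⟨α, (hW α).2 hα⟩ : W) ∈ B := by rw [hu]; exact Finset.mem_univ _
      rw [hBmem] at h1
      rw [Pool.SX.dp_neg_left, Pool.SX.dp_comm] at hpos
      have h2 : dp α (pt V (v : E3)) = 1 := h1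
      linarith
    obtain ⟨x, y, z, hT, hsub0⟩ := S.supp_sub hP h4 B hsupp hBne
    have hsub : ∀ e ∈ B, e = x ∨ e = y ∨ e = z := fun e he => by
      have h1 := hsub0 he
      simpa using h1
    have hxy := S.ne hT
    have hyz := S.ne (S.rot hT)
    have hzx := S.ne (S.rot (S.rot hT))
    -- two facets are not enough
    have htwo : ∀ p q : W, ¬ ∀ e ∈ B, e = p ∨ e = q := by
      intro p q hpq
      obtain ⟨β, hβ0, hβ1, hβ2⟩ := exists_orth (p : E3) (q : E3)
      apply hβ0
      refine vert_span hV W hW v v.2 β (fun α hα hv => ?_)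
      have h1 : (⟨α, hα⟩ : W) ∈ B := by
        rw [hBmem]
        exact (mem_act'.1 hv).2
      rcases hpq _ h1 with h2 | h2
      · rw [← h2] at hβ1; exact hβ1
      · rw [← h2] at hβ2; exact hβ2
    have hx : x ∈ B := by
      by_contra hcon
      refine htwo y z fun e he => ?_
      rcases hsub e he with h1 | h1
      · exact absurd (h1 ▸ he) hcon
      · exact h1
    have hy : y ∈ B := by
      by_contra hcon
      refine htwo x z fun e he => ?_
      rcases hsub e he with h1 | h1 | h1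
      · exact Or.inl h1
      · exact absurd (h1 ▸ he) hcon
      · exact Or.inr h1
    have hz : z ∈ B := by
      by_contra hcon
      refine htwo x y fun e he => ?_
      rcases hsub e he with h1 | h1 | h1
      · exact Or.inl h1
      · exact Or.inr h1
      · exact absurd (h1 ▸ he) hcon
    refine ⟨![x, y, z], hT, fun e => ?_⟩
    have h1 : (v : E3) ∈ act V e ↔ e ∈ B := by
      rw [hBmem, mem_act']
      exact ⟨fun h => h.2, fun h => ⟨v.2, h⟩⟩
    rw [h1]
    constructor
    · intro he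
      rcases hsub e he with h2 | h2 | h2
      · exact ⟨0, h2.symm⟩
      · exact ⟨1, h2.symm⟩
      · exact ⟨2, h2.symm⟩
    · rintro ⟨j, rfl⟩
      fin_cases j
      · exact hx
      · exact hy
      · exact hz
  choose tr htr hact using key
  refine ⟨W, S, fun α => (α : E3), fun α => 1 + dp (α : E3) (cen V), tr, h4, ?_⟩
  refine
    { tri := htr
      all := ?_
      inj := ?_
      on := ?_
      lt := ?_ }
  · intro f g h hT
    have hfg := S.ne hT
    have hgh := S.ne (S.rot hT)
    have hhf := S.ne (S.rot (S.rot hT))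
    obtain ⟨a, c, hle, hiff0⟩ := S.sub_supp hP h4 _
      (Or.inr ⟨f, g, h, hT, Finset.Subset.refl _⟩)
    have hiff : ∀ e : W, (e = f ∨ e = g ∨ e = h) ↔ ∑ i, a i * (e : Fin 3 → ℝ) i = c := by
      intro e
      rw [← hiff0 e]
      simp
    have hf : ∑ i, a i * (f : Fin 3 → ℝ) i = c := (hiff f).1 (Or.inl rfl)
    have ha : a ≠ 0 := by
      rintro rfl
      have hc : c = 0 := by
        rw [← hf]
        simp
      have h1 : (Finset.univ : Finset W) ⊆ {f, g, h} := fun e _ => by
        have h5 : e = f ∨ e = g ∨ e = h := by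
          rw [hiff, hc]
          simp
        simpa using h5
      have h2 := Finset.card_le_card h1
      have h3 : ({f, g, h} : Finset W).card ≤ 3 := Finset.card_le_three
      have h6 : 4 ≤ (Finset.univ : Finset W).card := by
        rw [Finset.card_univ]
        convert h4
      omega
    obtain ⟨v, hv, hvα⟩ := supp_vertex hV W hW a c ha (fun α hα => hle ⟨α, hα⟩)
      ⟨f, f.2, hf⟩
    have hsub : ({f, g, h} : Finset W) ⊆ Finset.univ.image (tr ⟨v, hv⟩) := by
      intro e he
      have h1 := hvα e e.2 ((hiff e).1 (by simpa using he))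
      obtain ⟨j, hj⟩ := (hact ⟨v, hv⟩ e).1 h1
      exact Finset.mem_image.2 ⟨j, Finset.mem_univ _, hj⟩
    have hcard : ({f, g, h} : Finset W).card = 3 := by
      rw [Finset.card_eq_three]
      exact ⟨f, g, h, hfg, hhf.symm, hgh, rfl⟩
    have heq : ({f, g, h} : Finset W) = Finset.univ.image (tr ⟨v, hv⟩) := by
      refine Finset.eq_of_subset_of_card_le hsub ?_
      rw [hcard]
      refine Finset.card_image_le.trans ?_
      simp
    refine ⟨⟨v, hv⟩, fun e => ?_⟩
    have h1 : e ∈ ({f, g, h} : Finset W) ↔ ∃ j, tr ⟨v, hv⟩ j = e := by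
      rw [heq, Finset.mem_image]
      exact ⟨fun ⟨j, _, hj⟩ => ⟨j, hj⟩, fun ⟨j, hj⟩ => ⟨j, Finset.mem_univ _, hj⟩⟩
    rw [← h1]
    simp only [Finset.mem_insert, Finset.mem_singleton]
  · intro v v' h
    apply Subtype.ext
    refine vert_inj hV W hW v v' v.2 v'.2 fun α hα hv => ?_
    obtain ⟨j, hj⟩ := (hact v ⟨α, hα⟩).1 hv
    obtain ⟨j', hj'⟩ := h j
    exact (hact v' ⟨α, hα⟩).2 ⟨j', by rw [hj', hj]⟩
  · intro v j
    have h1 := (mem_act'.1 ((hact v (tr v j)).2 ⟨j, rfl⟩)).2
    unfold pt at h1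
    rw [Pool.SX.dp_sub] at h1
    change dp (tr v j : E3) (v : E3) = 1 + dp (tr v j : E3) (cen V)
    linarith
  · intro v e h
    have h1 : ¬ dp (e : E3) (pt V v) = 1 := by
      intro h2
      obtain ⟨j, hj⟩ := (hact v e).1 (mem_act'.2 ⟨v.2, h2⟩)
      exact h j hj
    have h2 : dp (e : E3) (pt V v) < 1 := lt_of_le_of_ne (hpol e v v.2) h1
    unfold pt at h2
    rw [Pool.SX.dp_sub] at h2
    change dp (e : E3) (v : E3) < 1 + dp (e : E3) (cen V)
    linarith

end Pool.SD
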