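import Pool.Agent.Lib.MP_9dcace_sd.L4
import Pool.Agent.Lib.MP_9dcace_sd.H6

/-!
Final theorem for simple polytopes.
-/

set_option autoImplicit false

open Classical

namespace Pool.SD

open Pool.SX (E3 dp)

theorem poly_mono (P : Polynomial ℕ) {a b : ℕ} (h : a ≤ b) : P.eval a ≤ P.eval b := by
  induction P using Polynomial.induction_on' with
  | add p q hp hq => simp only [Polynomial.eval_add]; exact add_le_add hp hq
  | monomial n c =>
    simp only [Polynomial.eval_monomial]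
    exact Nat.mul_le_mul_left _ (Nat.pow_le_pow_left h n)

theorem simple_grid : ∃ f : Polynomial ℕ, ∀ V : Finset (Fin 3 → ℝ),
      (∀ v ∈ V, v ∉ convexHull ℝ ((V : Set (Fin 3 → ℝ)) \ {v})) →
      affineSpan ℝ (V : Set (Fin 3 → ℝ)) = ⊤ → IsSimple V →
      ∃ g : (Fin 3 → ℝ) → (Fin 3 → ℝ),
        Set.InjOn g (V : Set (Fin 3 → ℝ)) ∧
        (∀ v ∈ V, ∀ i : Fin 3, ∃ m : ℕ, g v i = (m : ℝ) ∧ m ≤ f.eval V.card) ∧
        affineSpan ℝ (g '' (V : Set (Fin 3 → ℝ))) = ⊤ ∧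
        (∀ v ∈ V, g v ∉ convexHull ℝ (g '' ((V : Set (Fin 3 → ℝ)) \ {v}))) ∧
        ∀ S ⊆ V,
          ((∃ a : Fin 3 → ℝ, ∃ c : ℝ,
              (∀ x ∈ V, ∑ i, a i * x i ≤ c) ∧
              ∀ x ∈ V, (x ∈ S ↔ ∑ i, a i * x i = c)) ↔
           (∃ a : Fin 3 → ℝ, ∃ c : ℝ,
              (∀ x ∈ V, ∑ i, a i * g x i ≤ c) ∧
              ∀ x ∈ V, (x ∈ S ↔ ∑ i, a i * g x i = c))) := by
  obtain ⟨P, hP⟩ := exists_sys
  refine ⟨2 * P, fun V hconv hspan hs => ?_⟩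
  obtain ⟨W, S, al, be, tr, h4, hd⟩ := exists_dual V ⟨hconv, hspan⟩ hs
  obtain ⟨a, d, X, hX⟩ := hP W S h4
  obtain ⟨g, al', be', hg, hg'⟩ := ssys_of_sys hd a d X _ hX
  have hcard := card_le hd h4
  have hVc : Fintype.card V = V.card := Fintype.card_coe V
  have hne : Nonempty V := by
    rw [← Fintype.card_pos_iff]
    exact lt_of_lt_of_le (by omega) hcard
  refine transfer V _ g (fun v i => (hg v i).trans ?_) (ssys_inj hg') (ssys_conv hg')
    (ssys_span hg') (fun B => by rw [csupp_iff hd, csupp_iff hg'])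
  rw [Polynomial.eval_mul, Polynomial.eval_ofNat]
  exact Nat.mul_le_mul_left 2 (poly_mono P (by rw [← hVc]; exact hcard))

end Pool.SD
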