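import Pool.Agent.Lib.MP_9dcace_sd.HDefs

/-!
ROW H1 (basic facts on the polar body, 150-200 lines).
`ne` : V nonempty (affineSpan of the empty set is ⊥).  `sum_pt`: ∑ (v - cen) = ∑ v - card * card⁻¹ • ∑ v = 0.
`span_pt`: dp β v = dp β (cen V) for all v ∈ V, so V lies in the affine subspace {x | dp β x = dp β (cen V)} and (span) dp β x is constant on ℝ^3; x = 0 and x = β: dp β β = 0.
 (For instance: affineSpan_le with the subspace mk' or the preimage of a point under the linear map; or `affineSpan_induction`.)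
`pol_abs`: α ∈ Pol, v ∈ V: dp α (pt v) = - ∑_{w ≠ v} dp α (pt w) >= -(card V - 1) (`sum_pt`), and <= 1 <= card V.
`pol_compact`: closed: intersection of closed half spaces (continuity of dp _ x).  Bounded: the linear map α ↦ (v ↦ dp α (pt V v)) from ℝ^3 to (V -> ℝ) is
 injective (`span_pt`), so there is C with ‖α‖ <= C * ‖image‖ (`LinearMap.exists_antilipschitzWith`, `LinearMap.ker = ⊥` in finite dimension), or: the points pt V v
 span ℝ^3 so every basis vector e_i is a combination ∑ c i v • pt V v and |α i| = |∑ c i v * dp α (pt V v)| <= ∑ |c i v| * card V.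
`pol_small`: for every v there is a bound; ε := 1 / (1 + ∑ v ∈ V, |dp y (pt V v)|).
-/

set_option autoImplicit false

open Classical

namespace Pool.SD

open Pool.SX (E3 dp)

open Pool.SX in
private theorem H1_dp_zero (a : E3) : dp a 0 = 0 := by
  simp [dp]

open Pool.SX in
private theorem H1_dp_sum {ι : Type} (a : E3) (s : Finset ι) (f : ι → E3) :
    dp a (∑ i ∈ s, f i) = ∑ i ∈ s, dp a (f i) := by
  induction s using Finset.induction_on with
  | empty => simp [dp]
  | insert i s hi ih => rw [Finset.sum_insert hi, Finset.sum_insert hi, dp_add, ih]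

open Pool.SX in
private theorem H1_const {V : Finset E3} (hspan : affineSpan ℝ (V : Set E3) = ⊤) (a : E3) (c : ℝ)
    (h : ∀ z ∈ V, dp a z = c) (x : E3) : dp a x = c := by
  have hx : x ∈ affineSpan ℝ (V : Set E3) := by rw [hspan]; trivial
  refine affineSpan_induction (p := fun x => dp a x = c) hx (fun y hy => h y hy) ?_
  intro t u v w hu hv hw
  have e : t • (u -ᵥ v) +ᵥ w = t • (u - v) + w := rfl
  rw [e, dp_add, dp_smul, dp_sub, hu, hv, hw]
  ring

theorem Poly.ne {V : Finset E3} (h : Poly V) : V.Nonempty := by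
  rw [Finset.nonempty_iff_ne_empty]
  rintro rfl
  have h1 := h.span
  rw [Finset.coe_empty, AffineSubspace.span_empty] at h1
  exact AffineSubspace.bot_ne_top ℝ E3 E3 h1

theorem sum_pt {V : Finset E3} (h : V.Nonempty) : ∑ v ∈ V, pt V v = 0 := by
  unfold pt
  rw [Finset.sum_sub_distrib, Finset.sum_const, cen, ← Nat.cast_smul_eq_nsmul ℝ, smul_smul,
    mul_inv_cancel₀ (Nat.cast_ne_zero.2 h.card_pos.ne'), one_smul, sub_self]

theorem Poly.span_pt {V : Finset E3} (h : Poly V) (β : E3) (c : ℝ)
    (hβ : ∀ v ∈ V, dp β (pt V v) = c) : β = 0 := by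
  have h1 : ∀ x, dp β x = c + dp β (cen V) := by
    refine H1_const h.span β _ fun z hz => ?_
    have := hβ z hz
    rw [pt, Pool.SX.dp_sub] at this
    linarith
  by_contra hne
  have h2 := Pool.SX.dp_self_pos hne
  have h3 := h1 0
  have h4 := h1 β
  rw [H1_dp_zero] at h3
  linarith

theorem pol_abs {V : Finset E3} (α : E3) (hα : α ∈ Pol V) (v : E3) (hv : v ∈ V) :
    |dp α (pt V v)| ≤ V.card := by
  have hne : V.Nonempty := ⟨v, hv⟩
  have h1 : (1 : ℝ) ≤ V.card := by exact_mod_cast hne.card_pos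
  have h2 : ∑ w ∈ V, dp α (pt V w) = 0 := by
    rw [← H1_dp_sum, sum_pt hne, H1_dp_zero]
  rw [← Finset.add_sum_erase V _ hv] at h2
  have h3 : ∑ w ∈ V.erase v, dp α (pt V w) ≤ ∑ w ∈ V.erase v, (1 : ℝ) :=
    Finset.sum_le_sum fun w hw => hα w (Finset.mem_of_mem_erase hw)
  rw [Finset.sum_const, Finset.card_erase_of_mem hv, nsmul_eq_mul, mul_one,
    Nat.cast_sub hne.card_pos, Nat.cast_one] at h3
  rw [abs_le]
  constructor
  · linarith
  · exact (hα v hv).trans h1

private noncomputable def H1_T (V : Finset E3) : E3 →ₗ[ℝ] ({v // v ∈ V} → ℝ) where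
  toFun α := fun v => dp α (pt V v)
  map_add' a b := by
    funext v
    exact Pool.SX.dp_add_left a b _
  map_smul' t a := by
    funext v
    exact Pool.SX.dp_smul_left t a _

private theorem H1_T_apply (V : Finset E3) (α : E3) (v : {v // v ∈ V}) :
    H1_T V α v = dp α (pt V v) := rfl

theorem Poly.compact {V : Finset E3} (h : Poly V) : IsCompact (Pol V) := by
  have hcont : ∀ x : E3, Continuous fun α : E3 => dp α x := by
    intro x
    unfold dp
    fun_prop
  have hclosed : IsClosed (Pol V) := by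
    have e : Pol V = ⋂ v ∈ V, {α : E3 | dp α (pt V v) ≤ 1} := by
      ext α
      simp [Pol]
    rw [e]
    exact isClosed_biInter fun v _ => isClosed_le (hcont _) continuous_const
  have hker : LinearMap.ker (H1_T V) = ⊥ := by
    rw [LinearMap.ker_eq_bot']
    intro β hβ
    refine h.span_pt β 0 fun v hv => ?_
    have := congrFun hβ ⟨v, hv⟩
    exact this
  obtain ⟨K, -, hK⟩ := LinearMap.exists_antilipschitzWith (H1_T V) hker
  refine Metric.isCompact_of_isClosed_isBounded hclosed ?_
  refine (Metric.isBounded_closedBall (x := (0 : E3)) (r := K * V.card)).subset ?_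
  intro α hα
  rw [Metric.mem_closedBall]
  have h1 := hK.le_mul_dist α 0
  rw [map_zero] at h1
  refine h1.trans (mul_le_mul_of_nonneg_left ?_ K.2)
  rw [dist_zero_right, pi_norm_le_iff_of_nonneg (Nat.cast_nonneg _)]
  intro v
  rw [Real.norm_eq_abs, H1_T_apply]
  exact pol_abs α hα v v.2

theorem pol_convex (V : Finset E3) : Convex ℝ (Pol V) := by
  intro x hx y hy a b ha hb hab v hv
  rw [Pool.SX.dp_add_left, Pool.SX.dp_smul_left, Pool.SX.dp_smul_left]
  have h1 := mul_le_mul_of_nonneg_left (hx v hv) ha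
  have h2 := mul_le_mul_of_nonneg_left (hy v hv) hb
  linarith

theorem pol_small (V : Finset E3) (y : E3) : ∃ ε : ℝ, 0 < ε ∧ ε • y ∈ Pol V := by
  have h0 : 0 ≤ ∑ v ∈ V, |dp y (pt V v)| := Finset.sum_nonneg fun v _ => abs_nonneg _
  have h1 : 0 < 1 + ∑ v ∈ V, |dp y (pt V v)| := by linarith
  refine ⟨(1 + ∑ v ∈ V, |dp y (pt V v)|)⁻¹, inv_pos.2 h1, fun v hv => ?_⟩
  rw [Pool.SX.dp_smul_left, inv_mul_le_iff₀ h1, mul_one]
  have h2 : |dp y (pt V v)| ≤ ∑ v ∈ V, |dp y (pt V v)| :=
    Finset.single_le_sum (f := fun v => |dp y (pt V v)|) (fun v _ => abs_nonneg _) hv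
  have h3 := le_abs_self (dp y (pt V v))
  linarith

end Pool.SD
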