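import Pool.Agent.Lib.MP_9dcace_sd.H1

/-!
ROW H2 (vertices of the polar body, linear programming, bipolar theorem; 150-220 lines).
`ext_mem`: α extreme in Pol V.  If β ≠ 0 is orthogonal to all the active pt V v, then for a small ε > 0 (finitely many inactive v: dp α (pt V v) < 1) α + ε β and
 α - ε β are in Pol V and α is their midpoint: contradiction with extremality (`mem_extremePoints`).
`lp`: dp y is continuous and Pol V compact nonempty (0 ∈ Pol V): the set M of the maximizers is nonempty, compact (closed subset) and convex, so it has an extreme point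
 (`IsCompact.extremePoints_nonempty`); M is an exposed / extreme subset of Pol V (`IsExposed`, `IsExtreme.extremePoints_subset_extremePoints`), so it is an extreme point of Pol V:
 directly: if α = midpoint-type combination of x1, x2 ∈ Pol V then dp y x1 = dp y x2 = max, so x1, x2 ∈ M.  Then `ext_mem`.
`bipolar`: if y ∉ convexHull ℝ (pt V '' V) (compact: `Set.Finite.isCompact_convexHull`, closed, convex) then by `geometric_hahn_banach_closed_point` there are a
 continuous linear f and u with f x < u on the hull and u < f y.  f x = dp a x with a i := f (Pi.single i 1).  0 = card⁻¹ • ∑ pt V v is in the hull, so 0 < u.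
 α := u⁻¹ • a ∈ Pol V and dp α y > 1.  By `lp` (maximize dp y) there is α' ∈ Wt V with dp y α' >= dp y α > 1: contradiction (`dp_comm`).
`wt_pos`: y ≠ 0: `pol_small` y : ε • y ∈ Pol V with dp y (ε • y) > 0; `lp`.
-/

set_option autoImplicit false

open Classical

namespace Pool.SD

open Pool.SX (E3 dp)

private theorem H2_eps {ι : Type} (s : Finset ι) (a b : ι → ℝ) (ha : ∀ v ∈ s, 0 ≤ a v)
    (hb : ∀ v ∈ s, 0 < b v ∨ (a v = 0 ∧ 0 ≤ b v)) : ∃ ε : ℝ, 0 < ε ∧ ∀ v ∈ s, ε * a v ≤ b v := by
  induction s using Finset.induction_on with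
  | empty => exact ⟨1, one_pos, by simp⟩
  | insert x s _ ih =>
    obtain ⟨ε, hε, h⟩ := ih (fun v hv => ha v (Finset.mem_insert_of_mem hv))
      (fun v hv => hb v (Finset.mem_insert_of_mem hv))
    have hax := ha x (Finset.mem_insert_self _ _)
    rcases hb x (Finset.mem_insert_self _ _) with hx | ⟨hx, hx'⟩
    · refine ⟨min ε (b x / (a x + 1)), lt_min hε (by positivity), ?_⟩
      intro v hv
      rcases Finset.mem_insert.1 hv with rfl | hv'
      · have h1 : min ε (b v / (a v + 1)) * a v ≤ b v / (a v + 1) * a v :=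
          mul_le_mul_of_nonneg_right (min_le_right _ _) hax
        have h2 : b v / (a v + 1) * a v ≤ b v := by
          rw [div_mul_eq_mul_div, div_le_iff₀ (by positivity)]
          nlinarith
        exact h1.trans h2
      · exact (mul_le_mul_of_nonneg_right (min_le_left _ _)
          (ha v (Finset.mem_insert_of_mem hv'))).trans (h v hv')
    · refine ⟨ε, hε, ?_⟩
      intro v hv
      rcases Finset.mem_insert.1 hv with rfl | hv'
      · rw [hx, mul_zero]; exact hx'
      · exact h v hv'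

theorem ext_mem {V : Finset E3} (α : E3) (hα : α ∈ (Pol V).extremePoints ℝ) : α ∈ Wt V := by
  rw [mem_extremePoints] at hα
  obtain ⟨hP, hext⟩ := hα
  refine ⟨hP, fun β hβ => ?_⟩
  obtain ⟨ε, hε, hle⟩ := H2_eps V (fun v => |dp β (pt V v)|) (fun v => 1 - dp α (pt V v))
    (fun v _ => abs_nonneg _) (fun v hv => by
      rcases (hP v hv).lt_or_eq with h | h
      · exact Or.inl (by linarith)
      · exact Or.inr ⟨by rw [hβ v hv h, abs_zero], by linarith⟩)
  have h1 : α + ε • β ∈ Pol V := by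
    intro v hv
    rw [Pool.SX.dp_add_left, Pool.SX.dp_smul_left]
    have := hle v hv
    have h2 : ε * dp β (pt V v) ≤ ε * |dp β (pt V v)| :=
      mul_le_mul_of_nonneg_left (le_abs_self _) hε.le
    linarith
  have h2 : α - ε • β ∈ Pol V := by
    intro v hv
    rw [Pool.SX.dp_sub_left, Pool.SX.dp_smul_left]
    have := hle v hv
    have h2 : ε * (-dp β (pt V v)) ≤ ε * |dp β (pt V v)| :=
      mul_le_mul_of_nonneg_left (neg_le_abs _) hε.le
    linarith
  have h3 := hext _ h1 _ h2 ⟨1 / 2, 1 / 2, by norm_num, by norm_num, by norm_num, by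
    funext i
    simp only [Pi.add_apply, Pi.smul_apply, Pi.sub_apply, smul_eq_mul]
    ring⟩
  have h4 : ε • β = 0 := by
    have := h3.1
    rwa [add_eq_left] at this
  exact (smul_eq_zero.1 h4).resolve_left hε.ne'

private theorem H2_cont (y : E3) : Continuous (fun x : E3 => dp y x) := by
  unfold Pool.SX.dp
  fun_prop

theorem Poly.lp {V : Finset E3} (h : Poly V) (y : E3) :
    ∃ α ∈ Wt V, ∀ β ∈ Pol V, dp y β ≤ dp y α := by
  have h0 : (0 : E3) ∈ Pol V := by
    intro v _
    have : dp (0 : E3) (pt V v) = 0 := by simp [Pool.SX.dp]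
    rw [this]; norm_num
  obtain ⟨x0, hx0, hmax⟩ := h.compact.exists_isMaxOn ⟨0, h0⟩ (H2_cont y).continuousOn
  have hmax' : ∀ β ∈ Pol V, dp y β ≤ dp y x0 := fun β hβ => hmax hβ
  have hMc : IsCompact (Pol V ∩ {x | dp y x0 ≤ dp y x}) :=
    h.compact.inter_right (isClosed_le continuous_const (H2_cont y))
  obtain ⟨z, hz⟩ := hMc.extremePoints_nonempty ⟨x0, hx0, le_refl (dp y x0)⟩
  rw [mem_extremePoints] at hz
  obtain ⟨⟨hzP, hzm⟩, hext⟩ := hz
  have hzm' : dp y x0 ≤ dp y z := hzm
  have hzE : z ∈ (Pol V).extremePoints ℝ := by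
    rw [mem_extremePoints]
    refine ⟨hzP, fun x1 hx1 x2 hx2 hseg => ?_⟩
    obtain ⟨a, b, ha, hb, hab, hz⟩ := hseg
    have h1 := hmax' x1 hx1
    have h2 := hmax' x2 hx2
    have h3 : dp y z = a * dp y x1 + b * dp y x2 := by
      rw [← hz, Pool.SX.dp_add, Pool.SX.dp_smul, Pool.SX.dp_smul]
    have h4 : dp y x0 ≤ dp y x1 := by
      by_contra hlt
      push Not at hlt
      have : a * dp y x1 < a * dp y x0 := mul_lt_mul_of_pos_left hlt ha
      have h5 : b * dp y x2 ≤ b * dp y x0 := mul_le_mul_of_nonneg_left h2 hb.le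
      have h6 : a * dp y x0 + b * dp y x0 = dp y x0 := by rw [← add_mul, hab, one_mul]
      linarith
    have h5 : dp y x0 ≤ dp y x2 := by
      by_contra hlt
      push Not at hlt
      have : b * dp y x2 < b * dp y x0 := mul_lt_mul_of_pos_left hlt hb
      have h5 : a * dp y x1 ≤ a * dp y x0 := mul_le_mul_of_nonneg_left h1 ha.le
      have h6 : a * dp y x0 + b * dp y x0 = dp y x0 := by rw [← add_mul, hab, one_mul]
      linarith
    exact hext x1 ⟨hx1, h4⟩ x2 ⟨hx2, h5⟩ ⟨a, b, ha, hb, hab, hz⟩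
  exact ⟨z, ext_mem z hzE, fun β hβ => (hmax' β hβ).trans hzm'⟩

theorem Poly.bipolar {V : Finset E3} (h : Poly V) (y : E3) (hy : ∀ α ∈ Wt V, dp α y ≤ 1) :
    y ∈ convexHull ℝ (pt V '' (V : Set E3)) := by
  by_contra hnot
  have hcomp : IsCompact (convexHull ℝ (pt V '' (V : Set E3))) :=
    (V.finite_toSet.image _).isCompact_convexHull ℝ
  obtain ⟨f, u, hf, hfy⟩ := geometric_hahn_banach_closed_point (convex_convexHull ℝ _)
    hcomp.isClosed hnot
  have hfV : ∀ v ∈ V, f (pt V v) < u := fun v hv =>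
    hf _ (subset_convexHull ℝ _ ⟨v, hv, rfl⟩)
  let a : E3 := fun i => f (fun j => if i = j then 1 else 0)
  have hfa : ∀ x : E3, f x = dp a x := by
    intro x
    have := LinearMap.pi_apply_eq_sum_univ (f : E3 →ₗ[ℝ] ℝ) x
    simp only [smul_eq_mul] at this
    rw [Pool.SX.dp]
    refine Eq.trans this (Finset.sum_congr rfl fun i _ => ?_)
    rw [mul_comm]
    rfl
  have hu : 0 < u := by
    have h1 : ∑ v ∈ V, f (pt V v) = 0 := by
      rw [← map_sum, sum_pt h.ne, map_zero]
    have h2 : ∑ v ∈ V, f (pt V v) < ∑ _v ∈ V, u := Finset.sum_lt_sum_of_nonempty h.ne hfV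
    rw [h1, Finset.sum_const, nsmul_eq_mul] at h2
    have h3 : (0 : ℝ) < V.card := by exact_mod_cast h.ne.card_pos
    exact (mul_pos_iff_of_pos_left h3).1 h2
  have hα : u⁻¹ • a ∈ Pol V := by
    intro v hv
    rw [Pool.SX.dp_smul_left, ← hfa, inv_mul_le_iff₀ hu, mul_one]
    exact (hfV v hv).le
  obtain ⟨α', hα', hmax⟩ := h.lp y
  have h1 := hmax _ hα
  have h2 := hy α' hα'
  rw [Pool.SX.dp_comm y α', Pool.SX.dp_comm y (u⁻¹ • a), Pool.SX.dp_smul_left, ← hfa] at h1
  have h3 : 1 < u⁻¹ * f y := by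
    rw [lt_inv_mul_iff₀ hu, mul_one]; exact hfy
  linarith

theorem Poly.wt_pos {V : Finset E3} (h : Poly V) (y : E3) (hy : y ≠ 0) :
    ∃ α ∈ Wt V, 0 < dp y α := by
  obtain ⟨ε, hε, hP⟩ := pol_small V y
  obtain ⟨α, hα, hmax⟩ := h.lp y
  refine ⟨α, hα, lt_of_lt_of_le ?_ (hmax _ hP)⟩
  rw [Pool.SX.dp_smul]
  exact mul_pos hε (Pool.SX.dp_self_pos hy)

end Pool.SD
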