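import Pool.Agent.Lib.MP_9dcace_sd.H2
import Pool.Agent.Lib.MP_9dcace_sd.H3

/-!
ROW H4 (the polar polytope, 150-200 lines).  W is the finite set `Wt V` as a Finset.
`wt_conv`: α ∈ W; y := ∑ v ∈ act V α, pt V v.  dp α y = card (act V α), dp α' y <= card (act V α) for α' ∈ W, and if equality then act V α ⊆ act V α', α' = α (`wt_eq`).  So the
 half space {x | dp x y < card} contains W \ {α} and its convex hull, but not α.
`wt_span`: otherwise there are y ≠ 0, c with dp y α = c for all α ∈ W (conversion as in `Pool.SX.exists_sph` / GMain / Z4 `pos_span`; W is nonempty by `lp`); `wt_pos` for y: c > 0; for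
 -y: c < 0: contradiction.
`supp_vertex`: y ≠ 0, dp y α <= c on W.  B := {α ∈ W | dp y α = c} nonempty.  c > 0 (`wt_pos`).  y' := c⁻¹ • y satisfies dp α y' <= 1 on W: by `bipolar` y' ∈ convexHull (pt V '' V):
 y' = ∑ v ∈ V, μ v • pt V v (`Finset.mem_convexHull` / `Finset.centerMass`; image under pt V), μ >= 0, ∑ μ = 1.  For α ∈ B: 1 = ∑ μ v * dp α (pt V v) with all the terms <= μ v,
 so μ v > 0 implies dp α (pt V v) = 1.  Take v with μ v > 0.
`wt_simp`: by `supp_vertex` (if B is empty the card is 0) B.image (act V) is a set of facets containing v (`act_facet`), of card = B.card (`wt_eq`), so <= 3 (IsSimple).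
-/

set_option autoImplicit false

open Classical

namespace Pool.SD

open Pool.SX (E3 dp dp_def dp_comm dp_sub dp_smul dp_add_left dp_neg_left dp_smul_left)

private theorem dp_sum {ι : Type} (a : E3) (s : Finset ι) (f : ι → E3) :
    dp a (∑ v ∈ s, f v) = ∑ v ∈ s, dp a (f v) := by
  unfold dp
  rw [Finset.sum_comm]
  apply Finset.sum_congr rfl
  intro i _
  rw [Finset.sum_apply, Finset.mul_sum]

private theorem mem_act {V : Finset E3} {α v : E3} : v ∈ act V α ↔ v ∈ V ∧ dp α (pt V v) = 1 := by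
  unfold act
  rw [Finset.mem_filter]

private theorem sum_eq_of_le {ι : Type} (s : Finset ι) (f g : ι → ℝ) (hle : ∀ i ∈ s, f i ≤ g i)
    (heq : ∑ i ∈ s, f i = ∑ i ∈ s, g i) : ∀ i ∈ s, f i = g i :=
  (Finset.sum_eq_sum_iff_of_le hle).mp heq

/-- an affine span which is not everything lies in a plane -/
private theorem exists_plane (W : Set E3) (hne : W.Nonempty) (h : affineSpan ℝ W ≠ ⊤) :
    ∃ (y : E3) (c : ℝ), y ≠ 0 ∧ ∀ α ∈ W, dp y α = c := by
  obtain ⟨α0, hα0⟩ := hne
  have hne' : (affineSpan ℝ W : Set E3).Nonempty := ⟨α0, subset_affineSpan ℝ _ hα0⟩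
  have hD : (affineSpan ℝ W).direction < ⊤ := by
    rw [lt_top_iff_ne_top]
    intro h1
    exact h ((AffineSubspace.direction_eq_top_iff_of_nonempty hne').mp h1)
  obtain ⟨f, hf0, hf⟩ := Submodule.exists_le_ker_of_lt_top _ hD
  have hdp : ∀ x, f x = dp (fun i => f (Pi.single i 1)) x := by
    intro x
    have h1 : x = ∑ i, x i • (Pi.single i 1 : E3) := by
      funext j
      rw [Finset.sum_apply]
      simp [Pi.single_apply]
    conv_lhs => rw [h1]
    rw [map_sum]
    unfold dp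
    apply Finset.sum_congr rfl
    intro i _
    rw [map_smul, smul_eq_mul, mul_comm]
  refine ⟨fun i => f (Pi.single i 1), f α0, ?_, ?_⟩
  · intro h0
    apply hf0
    apply LinearMap.ext
    intro x
    rw [hdp, h0]
    simp [dp]
  · intro α hα
    rw [← hdp]
    have h2 : α -ᵥ α0 ∈ (affineSpan ℝ W).direction :=
      AffineSubspace.vsub_mem_direction (subset_affineSpan ℝ _ hα) (subset_affineSpan ℝ _ hα0)
    have h3 := hf h2
    rw [LinearMap.mem_ker, vsub_eq_sub, map_sub] at h3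
    linarith

theorem wt_conv {V : Finset E3} (W : Finset E3) (hW : ∀ α, α ∈ W ↔ α ∈ Wt V) (α : E3)
    (hα : α ∈ W) : α ∉ convexHull ℝ ((W : Set E3) \ {α}) := by
  intro hmem
  set y : E3 := ∑ v ∈ act V α, pt V v with hy
  have hval : ∀ β, dp β y = ∑ v ∈ act V α, dp β (pt V v) := by
    intro β
    rw [hy, dp_sum]
  have h1 : dp α y = (act V α).card := by
    rw [hval]
    have : ∑ v ∈ act V α, dp α (pt V v) = ∑ v ∈ act V α, (1 : ℝ) := by
      apply Finset.sum_congr rfl
      intro v hv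
      exact (mem_act.mp hv).2
    rw [this, Finset.sum_const, nsmul_eq_mul, mul_one]
  have h2 : ∀ β ∈ (W : Set E3) \ {α}, dp β y < (act V α).card := by
    intro β hβ
    have hβW : β ∈ Wt V := (hW β).mp hβ.1
    have hβne : β ≠ α := hβ.2
    have hle : ∀ v ∈ act V α, dp β (pt V v) ≤ 1 := by
      intro v hv
      exact hβW.1 v (mem_act.mp hv).1
    have hle2 : dp β y ≤ (act V α).card := by
      rw [hval]
      calc ∑ v ∈ act V α, dp β (pt V v) ≤ ∑ v ∈ act V α, (1 : ℝ) := Finset.sum_le_sum hle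
        _ = (act V α).card := by rw [Finset.sum_const, nsmul_eq_mul, mul_one]
    rcases hle2.lt_or_eq with h3 | h3
    · exact h3
    · exfalso
      apply hβne
      apply wt_eq α β ((hW α).mp hα)
      intro v hv
      have h4 := sum_eq_of_le (act V α) (fun v => dp β (pt V v)) (fun _ => 1) hle (by
        rw [Finset.sum_const, nsmul_eq_mul, mul_one, ← h3, hval])
      exact mem_act.mpr ⟨(mem_act.mp hv).1, h4 v hv⟩
  have hlin : IsLinearMap ℝ (fun x : E3 => dp x y) :=
    ⟨fun a b => dp_add_left a b y, fun t a => by rw [dp_smul_left, smul_eq_mul]⟩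
  have h3 : convexHull ℝ ((W : Set E3) \ {α}) ⊆ {x | dp x y < (act V α).card} :=
    convexHull_min h2 (convex_halfSpace_lt hlin _)
  have h4 := h3 hmem
  rw [Set.mem_ofPred_eq, h1] at h4
  exact lt_irrefl _ h4

theorem wt_span {V : Finset E3} (hV : Poly V) (W : Finset E3) (hW : ∀ α, α ∈ W ↔ α ∈ Wt V) :
    affineSpan ℝ (W : Set E3) = ⊤ := by
  by_contra hne
  obtain ⟨α0, hα0, _⟩ := hV.lp 0
  obtain ⟨y, c, hy, hc⟩ := exists_plane (W : Set E3) ⟨α0, (hW α0).mpr hα0⟩ hne
  obtain ⟨α1, h1, h2⟩ := hV.wt_pos y hy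
  obtain ⟨α2, h3, h4⟩ := hV.wt_pos (-y) (neg_ne_zero.mpr hy)
  have h5 := hc α1 ((hW α1).mpr h1)
  have h6 := hc α2 ((hW α2).mpr h3)
  rw [dp_neg_left] at h4
  linarith

theorem supp_vertex {V : Finset E3} (hV : Poly V) (W : Finset E3) (hW : ∀ α, α ∈ W ↔ α ∈ Wt V)
    (y : E3) (c : ℝ) (hy : y ≠ 0) (hle : ∀ α ∈ W, dp y α ≤ c) (hne : ∃ α ∈ W, dp y α = c) :
    ∃ v ∈ V, ∀ α ∈ W, dp y α = c → v ∈ act V α := by
  have hc : 0 < c := by
    obtain ⟨α1, h1, h2⟩ := hV.wt_pos y hy
    exact lt_of_lt_of_le h2 (hle α1 ((hW α1).mpr h1))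
  have h1 : ∀ α ∈ Wt V, dp α (c⁻¹ • y) ≤ 1 := by
    intro α hα
    have h2 := hle α ((hW α).mpr hα)
    rw [dp_smul, dp_comm, inv_mul_le_iff₀ hc, mul_one]
    exact h2
  have h2 := hV.bipolar (c⁻¹ • y) h1
  rw [← Finset.coe_image, Finset.mem_convexHull] at h2
  obtain ⟨w, hw0, hw1, hw2⟩ := h2
  rw [Finset.centerMass_eq_of_sum_1 _ _ hw1] at hw2
  have h3 : ∃ u ∈ V.image (pt V), 0 < w u := by
    by_contra hcon
    push Not at hcon
    have : ∑ u ∈ V.image (pt V), w u ≤ 0 := Finset.sum_nonpos hcon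
    linarith
  obtain ⟨u, hu, hwu⟩ := h3
  obtain ⟨v, hv, hvu⟩ := Finset.mem_image.mp hu
  refine ⟨v, hv, ?_⟩
  intro α hα hαc
  have hα1 : dp α (c⁻¹ • y) = 1 := by
    rw [dp_smul, dp_comm, hαc]
    exact inv_mul_cancel₀ hc.ne'
  have hpol : ∀ u ∈ V.image (pt V), dp α u ≤ 1 := by
    intro u hu
    obtain ⟨v, hv, rfl⟩ := Finset.mem_image.mp hu
    exact ((hW α).mp hα).1 v hv
  have h4 : ∑ u ∈ V.image (pt V), w u * dp α u = ∑ u ∈ V.image (pt V), w u := by
    rw [hw1, ← hα1, ← hw2, dp_sum]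
    apply Finset.sum_congr rfl
    intro u _
    rw [dp_smul]
    rfl
  have h5 := sum_eq_of_le (V.image (pt V)) (fun u => w u * dp α u) w (by
    intro u hu
    have := hpol u hu
    have := hw0 u hu
    nlinarith) h4 u hu
  have h6 : dp α u = 1 := by
    have h7 : w u * (dp α u - 1) = 0 := by
      have : w u * dp α u = w u := h5
      linarith
    rcases mul_eq_zero.mp h7 with h8 | h8
    · exact absurd h8 hwu.ne'
    · linarith
  exact mem_act.mpr ⟨hv, by rw [hvu]; exact h6⟩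

theorem wt_simp {V : Finset E3} (hV : Poly V) (hs : IsSimple V) (W : Finset E3)
    (hW : ∀ α, α ∈ W ↔ α ∈ Wt V) (a : E3) (c : ℝ) (ha : a ≠ 0) (hle : ∀ x ∈ W, ∑ i, a i * x i ≤ c) :
    (W.filter (fun x => ∑ i, a i * x i = c)).card ≤ 3 := by
  set B := W.filter (fun x => ∑ i, a i * x i = c) with hB
  rcases B.eq_empty_or_nonempty with h0 | h0
  · rw [h0]; simp
  · obtain ⟨α0, hα0⟩ := h0
    rw [hB, Finset.mem_filter] at hα0
    obtain ⟨v, hv, hvB⟩ := supp_vertex hV W hW a c ha hle ⟨α0, hα0.1, hα0.2⟩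
    have h1 := hs v hv (B.image (act V)) (by
      intro F hF
      obtain ⟨α, hα, rfl⟩ := Finset.mem_image.mp hF
      rw [hB, Finset.mem_filter] at hα
      exact ⟨act_facet hV α ((hW α).mp hα.1), hvB α hα.1 hα.2⟩)
    rw [Finset.card_image_of_injOn] at h1
    · exact h1
    · intro α hα β hβ hαβ
      rw [Finset.mem_coe, hB, Finset.mem_filter] at hα
      exact (wt_eq α β ((hW α).mp hα.1) (le_of_eq hαβ)).symm

end Pool.SD
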