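import Pool.Agent.Lib.MP_9dcace_sd.LDefs

/-!
ROW L1 (the neighbours of a vertex and the cone of the normals, 120-200 lines).
`nbr`: T (tr v j) (tr v (j+1)) (tr v (j+2)) for every j (`tri`, `rot`); rotate to T (tr v (j+1)) (tr v (j+2)) (tr v j) and apply `opp`:
 w' ≠ tr v j with T (tr v (j+2)) (tr v (j+1)) w'; by `all` there is v' whose facets are exactly tr v (j+2), tr v (j+1), w'.
 tr v j is not a facet of v' (`ne` : different from tr v (j+1), tr v (j+2); w' ≠ tr v j).  So dp (al (tr v (j+1))) (X v') = be .. = dp .. (X v) etc.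
`cone`: let E j := X (v_j) - X v with v_j from `nbr` : dp (al (tr v i)) (E j) = 0 for i ≠ j and < 0 for i = j.  Put l j := dp a (E j) / dp (al (tr v j)) (E j) >= 0
 (numerator <= 0 because dp a (X v_j) <= c = dp a (X v)).  D := a - ∑ j, l j • al (tr v j) satisfies dp D (E j) = 0 for all j.  E 0, E 1, E 2 are linearly
 independent (apply dp (al (tr v i)) to a relation), so they span ℝ^3 and D = 0 (dp D D = 0).  (`Pool.SX.cramer` or
 `LinearIndependent` + `Module.finrank_fin_fun` + `basisOfLinearIndependentOfCardEqFinrank`; or a 3 x 3 determinant argument.)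
 c = dp a (X v) = ∑ l j * be (tr v j).
-/

set_option autoImplicit false

open Classical

namespace Pool.SD

open Pool.SX (E3 dp)

private theorem L1_rot {A : Type} [Fintype A] (S : Pool.SX.Sph A) (t : Fin 3 → A)
    (h : S.T (t 0) (t 1) (t 2)) (j : Fin 3) : S.T (t j) (t (j + 1)) (t (j + 2)) := by
  fin_cases j
  · exact h
  · exact S.rot h
  · exact S.rot (S.rot h)

private theorem L1_third (j i : Fin 3) (h : i ≠ j) : i = j + 1 ∨ i = j + 2 := by
  revert h
  revert i j
  decide

theorem nbr {A V : Type} [Fintype A] {S : Pool.SX.Sph A} {X : V → E3} {al : A → E3} {be : A → ℝ}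
    {tr : V → Fin 3 → A} (h : SSys S X al be tr) (v : V) (j : Fin 3) :
    ∃ v' : V, (∀ i, i ≠ j → dp (al (tr v i)) (X v' - X v) = 0) ∧
      dp (al (tr v j)) (X v' - X v) < 0 := by
  have hT := L1_rot S (tr v) (h.tri v) j
  have hT1 := S.rot hT
  have hT2 := S.rot hT1
  obtain ⟨w, hw, hT3⟩ := S.opp hT1
  obtain ⟨v', hv'⟩ := h.all _ _ _ hT3
  refine ⟨v', ?_, ?_⟩
  · intro i hi
    have h1 : ∃ j', tr v' j' = tr v i := by
      rw [hv']
      rcases L1_third j i hi with rfl | rfl
      · exact Or.inr (Or.inl rfl)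
      · exact Or.inl rfl
    obtain ⟨j', hj'⟩ := h1
    have h2 := h.on v' j'
    rw [hj'] at h2
    rw [Pool.SX.dp_sub, h2, h.on v i, sub_self]
  · have h1 : ∀ j', tr v' j' ≠ tr v j := by
      intro j' hj'
      rcases (hv' (tr v j)).1 ⟨j', hj'⟩ with e | e | e
      · exact S.ne hT2 e.symm
      · exact S.ne hT e
      · exact hw e.symm
    have h2 := h.lt v' _ h1
    rw [Pool.SX.dp_sub, h.on v j]
    linarith

private theorem L1_prod (a b c x y z : E3) : Pool.SX.dt a b c * Pool.SX.dt x y z =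
    dp a x * (dp b y * dp c z - dp b z * dp c y) - dp a y * (dp b x * dp c z - dp b z * dp c x) +
      dp a z * (dp b x * dp c y - dp b y * dp c x) := by
  simp only [Pool.SX.dt, Pool.SX.dp_def]
  ring

private theorem L1_zero (a0 a1 a2 x y z D : E3) (h01 : dp a0 y = 0) (h02 : dp a0 z = 0)
    (h10 : dp a1 x = 0) (h12 : dp a1 z = 0) (h20 : dp a2 x = 0) (h21 : dp a2 y = 0)
    (h00 : dp a0 x < 0) (h11 : dp a1 y < 0) (h22 : dp a2 z < 0)
    (hx : dp D x = 0) (hy : dp D y = 0) (hz : dp D z = 0) : D = 0 := by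
  have h1 := L1_prod a0 a1 a2 x y z
  rw [h01, h02, h10, h12, h20, h21] at h1
  have h2 : Pool.SX.dt x y z ≠ 0 := by
    intro h
    rw [h] at h1
    have : dp a0 x * (dp a1 y * dp a2 z) < 0 := mul_neg_of_neg_of_pos h00 (mul_pos_of_neg_of_neg h11 h22)
    linarith
  by_contra hD
  have h3 := Pool.SX.dp_self_pos hD
  have h5 : Pool.SX.dt x y z * dp D D = dp D x * Pool.SX.dt D y z + dp D y * Pool.SX.dt x D z +
      dp D z * Pool.SX.dt x y D := by
    simp only [Pool.SX.dt, Pool.SX.dp_def]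
    ring
  rw [hx, hy, hz] at h5
  have h6 : Pool.SX.dt x y z * dp D D = 0 := by linarith
  rcases mul_eq_zero.1 h6 with h | h
  · exact h2 h
  · linarith

theorem cone {A V : Type} [Fintype A] {S : Pool.SX.Sph A} {X : V → E3} {al : A → E3} {be : A → ℝ}
    {tr : V → Fin 3 → A} (h : SSys S X al be tr) (v : V) (a : E3) (c : ℝ)
    (hle : ∀ v', dp a (X v') ≤ c) (heq : dp a (X v) = c) :
    ∃ l : Fin 3 → ℝ, (∀ j, 0 ≤ l j) ∧ (a = fun i => ∑ j, l j * al (tr v j) i) ∧
      c = ∑ j, l j * be (tr v j) := by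
  choose w hw1 hw2 using fun j => nbr h v j
  have hn : ∀ j, dp a (X (w j) - X v) ≤ 0 := by
    intro j
    rw [Pool.SX.dp_sub, heq]
    linarith [hle (w j)]
  have hD : a - (fun i => ∑ j, (dp a (X (w j) - X v) / dp (al (tr v j)) (X (w j) - X v)) *
      al (tr v j) i) = 0 := by
    have hdp : ∀ (l : Fin 3 → ℝ) (y : E3), dp (fun i => ∑ j, l j * al (tr v j) i) y =
        l 0 * dp (al (tr v 0)) y + l 1 * dp (al (tr v 1)) y + l 2 * dp (al (tr v 2)) y := by
      intro l y
      simp only [Pool.SX.dp_def, Fin.sum_univ_three]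
      ring
    have h01 := hw1 1 0 (by decide)
    have h02 := hw1 2 0 (by decide)
    have h10 := hw1 0 1 (by decide)
    have h12 := hw1 2 1 (by decide)
    have h20 := hw1 0 2 (by decide)
    have h21 := hw1 1 2 (by decide)
    refine L1_zero _ _ _ _ _ _ _ h01 h02 h10 h12 h20 h21 (hw2 0) (hw2 1) (hw2 2) ?_ ?_ ?_
    · rw [Pool.SX.dp_sub_left, hdp, h10, h20, div_mul_cancel₀ _ (hw2 0).ne]
      ring
    · rw [Pool.SX.dp_sub_left, hdp, h01, h21, div_mul_cancel₀ _ (hw2 1).ne]
      ring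
    · rw [Pool.SX.dp_sub_left, hdp, h02, h12, div_mul_cancel₀ _ (hw2 2).ne]
      ring
  have ha : a = fun i => ∑ j, (dp a (X (w j) - X v) / dp (al (tr v j)) (X (w j) - X v)) *
      al (tr v j) i := sub_eq_zero.1 hD
  refine ⟨fun j => dp a (X (w j) - X v) / dp (al (tr v j)) (X (w j) - X v), ?_, ha, ?_⟩
  · intro j
    exact div_nonneg_of_nonpos (hn j) (hw2 j).le
  · have hs : ∀ (l : Fin 3 → ℝ), dp (fun i => ∑ j, l j * al (tr v j) i) (X v) =
        ∑ j, l j * be (tr v j) := by
      intro l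
      rw [Fin.sum_univ_three, ← h.on v 0, ← h.on v 1, ← h.on v 2]
      simp only [Pool.SX.dp_def, Fin.sum_univ_three]
      ring
    rw [← hs, ← ha, heq]

end Pool.SD
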