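import Pool.Agent.Lib.MP_9dcace_sd.L1

/-!
ROW L2 (supporting sets, injectivity, convex position, span).
`csupp_iff`: <=: B = univ: a = 0, c = 0.  B = ∅: a = 0, c = 1.  Otherwise a = ∑ e ∈ T, al e, c = ∑ e ∈ T, be e: termwise <= (`on`, `lt`), equality iff all the terms
 are equalities iff all e ∈ T are facets of v' (`Finset.sum_le_sum`, `Finset.sum_eq_sum_iff_of_le`).
 =>: B = ∅ or v ∈ B: `cone` gives l.  T := image tr v of {j : 0 < l j}.  dp a (X v') = ∑ l j dp (al (tr v j)) (X v') <= ∑ l j be (tr v j), equality iff for every j with l j > 0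
 tr v j is a facet of v'.  If T = ∅ (all l j = 0) then B = univ.
`ssys_inj`: X v = X v': dp (al (tr v j)) (X v') = be (tr v j) for all j, so tr v j is a facet of v' (otherwise `lt`); `inj`.
`ssys_conv`: a = ∑ j, al (tr v j), c = ∑ j, be (tr v j): dp a (X v') < c for v' ≠ v (`inj`), dp a (X v) = c; the half space {dp a x < c} is convex.
`ssys_span`: with the `nbr` vectors of some vertex and Cramer's rule.
-/

set_option autoImplicit false

open Classical

namespace Pool.SD

open Pool.SX (E3 dp)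

private theorem le_be {A V : Type} [Fintype A] {S : Pool.SX.Sph A} {X : V → E3} {al : A → E3}
    {be : A → ℝ} {tr : V → Fin 3 → A} (h : SSys S X al be tr) (v : V) (e : A) :
    dp (al e) (X v) ≤ be e := by
  by_cases he : ∃ j, tr v j = e
  · obtain ⟨j, rfl⟩ := he
    exact (h.on v j).le
  · push Not at he
    exact (h.lt v e he).le

private theorem eq_be {A V : Type} [Fintype A] {S : Pool.SX.Sph A} {X : V → E3} {al : A → E3}
    {be : A → ℝ} {tr : V → Fin 3 → A} (h : SSys S X al be tr) (v : V) (e : A) :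
    dp (al e) (X v) = be e ↔ ∃ j, tr v j = e := by
  constructor
  · intro heq
    by_contra he
    push Not at he
    exact absurd heq (h.lt v e he).ne
  · rintro ⟨j, rfl⟩
    exact h.on v j

private theorem dp_sum_left {ι : Type} (s : Finset ι) (g : ι → E3) (x : E3) :
    dp (fun i => ∑ e ∈ s, g e i) x = ∑ e ∈ s, dp (g e) x := by
  simp only [dp, Finset.sum_mul]
  rw [Finset.sum_comm]

private theorem dp_sum_left' {ι : Type} (s : Finset ι) (l : ι → ℝ) (g : ι → E3) (x : E3) :
    dp (fun i => ∑ e ∈ s, l e * g e i) x = ∑ e ∈ s, l e * dp (g e) x := by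
  simp only [dp, Finset.sum_mul, Finset.mul_sum]
  rw [Finset.sum_comm]
  refine Finset.sum_congr rfl fun e _ => Finset.sum_congr rfl fun i _ => by ring

theorem csupp_iff {A V : Type} [Fintype A] [Fintype V] {S : Pool.SX.Sph A} {X : V → E3} {al : A → E3}
    {be : A → ℝ} {tr : V → Fin 3 → A} (h : SSys S X al be tr) (B : Finset V) :
    Pool.SX.Supp X B ↔ CSupp tr B := by
  constructor
  · rintro ⟨a, c, hle, hiff⟩
    rcases B.eq_empty_or_nonempty with rfl | ⟨v, hv⟩
    · exact Or.inr (Or.inl rfl)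
    obtain ⟨l, hl0, hla, hlc⟩ := cone h v a c hle ((hiff v).mp hv).symm.symm
    have hdp : ∀ v', dp a (X v') = ∑ j, l j * dp (al (tr v j)) (X v') := by
      intro v'
      rw [hla]
      exact dp_sum_left' Finset.univ l (fun j => al (tr v j)) (X v')
    have hB : ∀ v', v' ∈ B ↔ ∀ j, 0 < l j → ∃ j', tr v' j' = tr v j := by
      intro v'
      rw [hiff v']
      change dp a (X v') = c ↔ _
      rw [hdp v', hlc, Finset.sum_eq_sum_iff_of_le
        (fun j _ => mul_le_mul_of_nonneg_left (le_be h v' (tr v j)) (hl0 j))]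
      constructor
      · intro h1 j hj
        have h2 := h1 j (Finset.mem_univ j)
        have h3 := mul_left_cancel₀ hj.ne' h2
        exact (eq_be h v' (tr v j)).mp h3
      · intro h1 j _
        rcases (hl0 j).eq_or_lt with h2 | h2
        · rw [← h2, zero_mul, zero_mul]
        · rw [(eq_be h v' (tr v j)).mpr (h1 j h2)]
    let T : Finset A := (Finset.univ.filter (fun j => 0 < l j)).image (tr v)
    have hT : ∀ e, e ∈ T ↔ ∃ j, 0 < l j ∧ tr v j = e := by
      intro e
      simp [T]
    rcases T.eq_empty_or_nonempty with hTe | hTn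
    · left
      rw [Finset.eq_univ_iff_forall]
      intro v'
      rw [hB v']
      intro j hj
      have : tr v j ∈ T := (hT _).mpr ⟨j, hj, rfl⟩
      rw [hTe] at this
      exact absurd this (Finset.notMem_empty _)
    · right; right
      refine ⟨v, T, hTn, fun e he => ?_, fun v' => ?_⟩
      · obtain ⟨j, _, hj⟩ := (hT e).mp he
        exact ⟨j, hj⟩
      · rw [hB v']
        constructor
        · intro h1 e he
          obtain ⟨j, hj, rfl⟩ := (hT e).mp he
          exact h1 j hj
        · intro h1 j hj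
          exact h1 (tr v j) ((hT _).mpr ⟨j, hj, rfl⟩)
  · rintro (rfl | rfl | ⟨v, T, hTn, hTv, hB⟩)
    · exact ⟨0, 0, fun v => by simp, fun v => by simp⟩
    · exact ⟨0, 1, fun v => by simp, fun v => by simp⟩
    · refine ⟨fun i => ∑ e ∈ T, al e i, ∑ e ∈ T, be e, fun v' => ?_, fun v' => ?_⟩
      · change dp (fun i => ∑ e ∈ T, al e i) (X v') ≤ _
        rw [dp_sum_left]
        exact Finset.sum_le_sum fun e _ => le_be h v' e
      · change _ ↔ dp (fun i => ∑ e ∈ T, al e i) (X v') = _
        rw [dp_sum_left, Finset.sum_eq_sum_iff_of_le (fun e _ => le_be h v' e), hB v']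
        exact forall₂_congr fun e _ => (eq_be h v' e).symm

theorem ssys_inj {A V : Type} [Fintype A] {S : Pool.SX.Sph A} {X : V → E3} {al : A → E3}
    {be : A → ℝ} {tr : V → Fin 3 → A} (h : SSys S X al be tr) : Function.Injective X := by
  intro v v' hvv
  refine h.inj v v' fun j => ?_
  rw [← eq_be h v' (tr v j), ← hvv]
  exact h.on v j

theorem ssys_conv {A V : Type} [Fintype A] {S : Pool.SX.Sph A} {X : V → E3} {al : A → E3}
    {be : A → ℝ} {tr : V → Fin 3 → A} (h : SSys S X al be tr) (v : V) :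
    X v ∉ convexHull ℝ (X '' {v}ᶜ) := by
  intro hmem
  have hlin : IsLinearMap ℝ (fun z : Fin 3 → ℝ => dp (fun i => ∑ j, al (tr v j) i) z) := by
    refine ⟨fun p q => Pool.SX.dp_add _ _ _, fun t p => ?_⟩
    rw [Pool.SX.dp_smul, smul_eq_mul]
  have h3 : convexHull ℝ (X '' {v}ᶜ) ⊆
      {z : Fin 3 → ℝ | dp (fun i => ∑ j, al (tr v j) i) z < ∑ j, be (tr v j)} := by
    refine convexHull_min ?_ (convex_halfSpace_lt hlin _)
    rintro _ ⟨w, hw, rfl⟩
    change dp (fun i => ∑ j, al (tr v j) i) (X w) < _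
    rw [dp_sum_left Finset.univ (fun j => al (tr v j))]
    refine Finset.sum_lt_sum (fun j _ => le_be h w (tr v j)) ?_
    by_contra hcon
    push Not at hcon
    apply hw
    have hvw : v = w := by
      refine h.inj v w fun j => ?_
      rw [← eq_be h w (tr v j)]
      exact le_antisymm (le_be h w _) (hcon j (Finset.mem_univ j))
    rw [Set.mem_singleton_iff]
    exact hvw.symm
  have h5 : dp (fun i => ∑ j, al (tr v j) i) (X v) < ∑ j, be (tr v j) := h3 hmem
  rw [dp_sum_left Finset.univ (fun j => al (tr v j))] at h5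
  have h6 : ∑ j, dp (al (tr v j)) (X v) = ∑ j, be (tr v j) :=
    Finset.sum_congr rfl fun j _ => h.on v j
  rw [h6] at h5
  exact lt_irrefl _ h5

private theorem gram (x y z u v w : E3) : Pool.SX.dt x y z * Pool.SX.dt u v w =
    dp x u * (dp y v * dp z w - dp y w * dp z v) - dp x v * (dp y u * dp z w - dp y w * dp z u) +
      dp x w * (dp y u * dp z v - dp y v * dp z u) := by
  simp only [Pool.SX.dt, Pool.SX.dp_def]
  ring

theorem ssys_span {A V : Type} [Fintype A] [Nonempty V] {S : Pool.SX.Sph A} {X : V → E3} {al : A → E3}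
    {be : A → ℝ} {tr : V → Fin 3 → A} (h : SSys S X al be tr) :
    affineSpan ℝ (Set.range X) = ⊤ := by
  obtain ⟨u⟩ := (inferInstance : Nonempty V)
  obtain ⟨v0, h00, h01⟩ := nbr h u 0
  obtain ⟨v1, h10, h11⟩ := nbr h u 1
  obtain ⟨v2, h20, h21⟩ := nbr h u 2
  have hD : Pool.SX.dt (X v0 - X u) (X v1 - X u) (X v2 - X u) ≠ 0 := by
    intro h0
    have hg := gram (al (tr u 0)) (al (tr u 1)) (al (tr u 2)) (X v0 - X u) (X v1 - X u) (X v2 - X u)
    rw [h0, mul_zero, h00 1 (by decide), h00 2 (by decide), h10 0 (by decide), h10 2 (by decide),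
      h20 0 (by decide), h20 1 (by decide)] at hg
    simp only [mul_zero, zero_mul, sub_zero, add_zero] at hg
    have h3 := mul_ne_zero h01.ne (mul_ne_zero h11.ne h21.ne)
    exact h3 hg.symm
  rw [eq_top_iff]
  intro x _
  have hm : ∀ t, X t ∈ affineSpan ℝ (Set.range X) := fun t =>
    subset_affineSpan ℝ _ (Set.mem_range_self t)
  have m1 := (affineSpan ℝ (Set.range X)).smul_vsub_vadd_mem
    (Pool.SX.dt (x - X u) (X v1 - X u) (X v2 - X u) /
      Pool.SX.dt (X v0 - X u) (X v1 - X u) (X v2 - X u)) (hm v0) (hm u) (hm u)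
  have m2 := (affineSpan ℝ (Set.range X)).smul_vsub_vadd_mem
    (Pool.SX.dt (X v0 - X u) (x - X u) (X v2 - X u) /
      Pool.SX.dt (X v0 - X u) (X v1 - X u) (X v2 - X u)) (hm v1) (hm u) m1
  have m3 := (affineSpan ℝ (Set.range X)).smul_vsub_vadd_mem
    (Pool.SX.dt (X v0 - X u) (X v1 - X u) (x - X u) /
      Pool.SX.dt (X v0 - X u) (X v1 - X u) (X v2 - X u)) (hm v2) (hm u) m2
  convert m3 using 1
  set D := Pool.SX.dt (X v0 - X u) (X v1 - X u) (X v2 - X u) with hDdef
  have key : ∀ i, D * (x i - X u i) =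
      Pool.SX.dt (x - X u) (X v1 - X u) (X v2 - X u) * (X v0 i - X u i) +
      Pool.SX.dt (X v0 - X u) (x - X u) (X v2 - X u) * (X v1 i - X u i) +
      Pool.SX.dt (X v0 - X u) (X v1 - X u) (x - X u) * (X v2 i - X u i) := by
    intro i
    rw [hDdef]
    fin_cases i <;> simp [Pool.SX.dt] <;> ring
  ext i
  simp only [vsub_eq_sub, vadd_eq_add, Pi.add_apply, Pi.smul_apply, Pi.sub_apply, smul_eq_mul]
  have h5 := key i
  field_simp
  linarith

end Pool.SD
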