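import Pool.Agent.Lib.MP_9dcace_sd.L2
import Pool.Agent.Lib.MP_9dcace_sd.L3
import Pool.Agent.Lib.MP_9dcace_sd.A6

/-!
ROW L4 (counting, integer systems, 120-180 lines).
`card_le`: 3 * card V = number of the ordered triangles: the map V x Fin 3 -> {T}, (v, k) ↦ (tr v k, tr v (k+1), tr v (k+2)) is injective and surjective.
 Surjective: T f g h: `all` gives v whose facets are f, g, h; f = tr v k; (tr v (k+1), tr v (k+2)) is (g, h) or (h, g); the second is impossible: T f g h and T f h g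
 (`opp` of T g f ..: from T f g h: T g f w', w' ≠ h; from T f h g by `rot` T g f h; `uniq`).  Injective: the same facets give the same vertex (`inj`), then k by `ne`.
 `S.count`: Nat.card {..} + 12 = 6 card A, so 3 card V + 12 = 6 card A and card A <= card V because card A >= 4.
`ssys_of_sys`: X' v i := X (tr v 0) (tr v 1) (tr v 2) i + N >= 0 as a natural number (Int.toNat), al f i := a f i, be f := d f + N * (a f 0 + a f 1 + a f 2).
 tri/all/inj come from the given combinatorial data (hypothesis h); `on` from Sys.on (for j = 1, 2 rotate with Sys.rot), `lt` from Sys.lt.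
-/

set_option autoImplicit false

open Classical

namespace Pool.SD

open Pool.SX (E3 dp)

private theorem L4_rot {A : Type} [Fintype A] (S : Pool.SX.Sph A) (t : Fin 3 → A)
    (h : S.T (t 0) (t 1) (t 2)) (j : Fin 3) : S.T (t j) (t (j + 1)) (t (j + 2)) := by
  fin_cases j
  · exact h
  · exact S.rot h
  · exact S.rot (S.rot h)

private theorem L4_no {A : Type} [Fintype A] (S : Pool.SX.Sph A) {f g h : A} (h1 : S.T f g h)
    (h2 : S.T f h g) : False := by
  obtain ⟨w, hw, h3⟩ := S.opp h2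
  exact hw (S.uniq h3 (S.rot (S.rot h1)))

private theorem L4_surj {A V : Type} [Fintype A] {S : Pool.SX.Sph A} {X : V → E3}
    {al : A → E3} {be : A → ℝ} {tr : V → Fin 3 → A} (hs : SSys S X al be tr) {f g h : A}
    (hT : S.T f g h) : ∃ (v : V) (k : Fin 3), tr v k = f ∧ tr v (k + 1) = g ∧ tr v (k + 2) = h := by
  obtain ⟨v, hv⟩ := hs.all f g h hT
  obtain ⟨k, hk⟩ := (hv f).2 (Or.inl rfl)
  have h0 := L4_rot S (tr v) (hs.tri v) k
  have e1 := (hv (tr v (k + 1))).1 ⟨_, rfl⟩
  have e2 := (hv (tr v (k + 2))).1 ⟨_, rfl⟩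
  rw [hk] at h0
  have n1 := S.ne h0
  have n2 := S.ne (S.rot h0)
  have n3 := S.ne (S.rot (S.rot h0))
  refine ⟨v, k, hk, ?_⟩
  rcases e1 with e1 | e1 | e1
  · exact absurd e1.symm n1
  · rcases e2 with e2 | e2 | e2
    · exact absurd e2 n3
    · exact absurd (e1.trans e2.symm) n2
    · exact ⟨e1, e2⟩
  · rcases e2 with e2 | e2 | e2
    · exact absurd e2 n3
    · rw [e1, e2] at h0
      exact (L4_no S hT h0).elim
    · exact absurd (e1.trans e2.symm) n2

theorem card_le {A V : Type} [Fintype A] [Fintype V] {S : Pool.SX.Sph A} {X : V → E3} {al : A → E3}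
    {be : A → ℝ} {tr : V → Fin 3 → A} (h : SSys S X al be tr) (h4 : 4 ≤ Fintype.card A) :
    Fintype.card A ≤ Fintype.card V := by
  have hc := S.count
  have hsurj : Function.Surjective (fun x : V × Fin 3 =>
      (⟨(tr x.1 x.2, tr x.1 (x.2 + 1), tr x.1 (x.2 + 2)), L4_rot S (tr x.1) (h.tri x.1) x.2⟩ :
        {p : A × A × A // S.T p.1 p.2.1 p.2.2})) := by
    rintro ⟨⟨a, b, c⟩, hT⟩
    obtain ⟨v, k, rfl, rfl, rfl⟩ := L4_surj h hT
    exact ⟨(v, k), rfl⟩
  have h1 := Nat.card_le_card_of_surjective _ hsurj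
  have h2 : Nat.card (V × Fin 3) = Fintype.card V * 3 := by
    rw [Nat.card_prod, Nat.card_eq_fintype_card (α := V), Nat.card_eq_fintype_card (α := Fin 3),
      Fintype.card_fin]
  rw [h2] at h1
  omega

theorem ssys_of_sys {A V : Type} [Fintype A] {S : Pool.SX.Sph A} {X0 : V → E3} {al0 : A → E3}
    {be0 : A → ℝ} {tr : V → Fin 3 → A} (h : SSys S X0 al0 be0 tr) (a : A → Z3) (d : A → ℤ)
    (X : A → A → A → Z3) (N : ℕ) (hX : Sys S a d X N) :
    ∃ (g : V → Fin 3 → ℕ) (al : A → E3) (be : A → ℝ), (∀ v i, g v i ≤ 2 * N) ∧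
      SSys S (fun v i => (g v i : ℝ)) al be tr := by
  have hb : ∀ v i, |X (tr v 0) (tr v 1) (tr v 2) i| ≤ N := fun v i => hX.bd _ _ _ (h.tri v) i
  have hg : ∀ v i, (((X (tr v 0) (tr v 1) (tr v 2) i + N).toNat : ℤ)) =
      X (tr v 0) (tr v 1) (tr v 2) i + N := by
    intro v i
    have := abs_le.1 (hb v i)
    exact Int.toNat_of_nonneg (by linarith [this.1])
  have hgr : ∀ v i, (((X (tr v 0) (tr v 1) (tr v 2) i + N).toNat : ℝ)) =
      (X (tr v 0) (tr v 1) (tr v 2) i : ℝ) + N := by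
    intro v i
    have := hg v i
    have h2 : (((X (tr v 0) (tr v 1) (tr v 2) i + N).toNat : ℤ) : ℝ) =
      ((X (tr v 0) (tr v 1) (tr v 2) i + N : ℤ) : ℝ) := by rw [this]
    push_cast at h2
    simpa using h2
  have hdp : ∀ (e : A) (v : V), dp (fun i => (a e i : ℝ))
      (fun i => (((X (tr v 0) (tr v 1) (tr v 2) i + N).toNat : ℝ))) =
      ((dz (a e) (X (tr v 0) (tr v 1) (tr v 2)) : ℤ) : ℝ) + N * (a e 0 + a e 1 + a e 2) := by
    intro e v
    rw [Pool.SX.dp_def]
    simp only [hgr, dz_def]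
    push_cast
    ring
  have hon : ∀ v j, dz (a (tr v j)) (X (tr v 0) (tr v 1) (tr v 2)) = d (tr v j) := by
    intro v j
    have h1 := hX.on _ _ _ (L4_rot S (tr v) (h.tri v) j)
    rw [← h1]
    fin_cases j
    · rfl
    · exact congrArg (dz _) (hX.rot _ _ _).symm
    · exact congrArg (dz _) ((hX.rot _ _ _).trans (hX.rot _ _ _)).symm
  refine ⟨fun v i => (X (tr v 0) (tr v 1) (tr v 2) i + N).toNat, fun f i => (a f i : ℝ),
    fun f => (d f : ℝ) + N * (a f 0 + a f 1 + a f 2), ?_, ?_⟩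
  · intro v i
    have h1 := abs_le.1 (hb v i)
    have h2 := hg v i
    have h3 : ((X (tr v 0) (tr v 1) (tr v 2) i + N).toNat : ℤ) ≤ ((2 * N : ℕ) : ℤ) := by
      rw [h2]
      push_cast
      linarith [h1.2]
    exact_mod_cast h3
  · refine ⟨h.tri, h.all, h.inj, ?_, ?_⟩
    · intro v j
      show dp (fun i => (a (tr v j) i : ℝ)) (fun i => _) = _
      rw [hdp, hon]
    · intro v e he
      show dp (fun i => (a e i : ℝ)) (fun i => _) < _
      rw [hdp]
      have h1 := hX.lt e _ _ _ (h.tri v) (fun h => he 0 h.symm) (fun h => he 1 h.symm)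
        (fun h => he 2 h.symm)
      have h2 : ((dz (a e) (X (tr v 0) (tr v 1) (tr v 2)) : ℤ) : ℝ) < (d e : ℝ) := by
        exact_mod_cast h1
      show _ < (d e : ℝ) + N * (a e 0 + a e 1 + a e 2)
      linarith

end Pool.SD
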