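import Pool.Agent.Lib.MP_9dcace_sx.Z4
import Pool.Agent.Lib.MP_9dcace_sx.G0

/-!
Definitions for sections L and H: real systems of planes and vertices with combinatorics given by a (dual) sphere.
`S : Sph A`: `A` = facets, the triangles of `S` = the vertices `V` of the simple polytope.
-/

set_option autoImplicit false

open Classical

namespace Pool.SD

open Pool.SX (E3 dp)

/-- the facets through the vertex `v` are `tr v 0, tr v 1, tr v 2` -/
structure SSys {A V : Type} [Fintype A] (S : Pool.SX.Sph A) (X : V → E3) (al : A → E3) (be : A → ℝ)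
    (tr : V → Fin 3 → A) : Prop where
  /-- the facets at a vertex form a triangle of the dual sphere -/
  tri : ∀ v, S.T (tr v 0) (tr v 1) (tr v 2)
  /-- every triangle of the dual sphere is a vertex -/
  all : ∀ f g h, S.T f g h → ∃ v, ∀ e, (∃ j, tr v j = e) ↔ (e = f ∨ e = g ∨ e = h)
  /-- a vertex is determined by its facets -/
  inj : ∀ v v', (∀ j, ∃ j', tr v' j' = tr v j) → v = v'
  on : ∀ v j, dp (al (tr v j)) (X v) = be (tr v j)
  lt : ∀ v e, (∀ j, tr v j ≠ e) → dp (al e) (X v) < be e

/-- the combinatorial description of the supporting sets: nothing, everything, or the vertices on all the facets of a nonempty set `T` of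
facets which have a common vertex -/
def CSupp {A V : Type} [Fintype V] (tr : V → Fin 3 → A) (B : Finset V) : Prop :=
  B = Finset.univ ∨ B = ∅ ∨ ∃ (v : V) (T : Finset A), T.Nonempty ∧ (∀ e ∈ T, ∃ j, tr v j = e) ∧
    ∀ v', v' ∈ B ↔ ∀ e ∈ T, ∃ j, tr v' j = e

end Pool.SD
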