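import Pool.Agent.Lib.MP_9dcace_sd.Defs

/-!
ROW N1 (avoiding residues, 60-90 lines, pure Mathlib).
`avoid`: the bad t < S are contained in E ∪ ⋃_{p ∈ Q} ⋃_{b ∈ Bad p} {t < S : t % p = b}.  For p >= y >= 1 the last set has at most
S / p + 1 <= S / y + 1 elements (t = b + p j, j <= S / p; injection t -> t / p into range (S / p + 1)).  Card of the union
<= E.card + Q.card * (r * (S / y + 1)) < S = card (range S).
`card_primes_le`: the product of the different primes in Q divides N (`Finset.prod_primes_dvd` or coprimality), and it is >= y ^ Q.card.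
`card_primes`: otherwise y ^ (k+1) <= y ^ Q.card <= N.
`finite_primes`: the set of the primes p >= y dividing N ≠ 0 as a Finset: N.primeFactors.filter (y <= ·).
-/

set_option autoImplicit false

namespace Pool.SD

private theorem N1_class (p b S : ℕ) :
    ((Finset.range S).filter (fun t => t % p = b)).card ≤ S / p + 1 := by
  rw [← Finset.card_range (S / p + 1)]
  apply Finset.card_le_card_of_injOn (fun t => t / p)
  · intro t ht
    rw [Finset.mem_coe, Finset.mem_filter, Finset.mem_range] at ht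
    rw [Finset.mem_coe, Finset.mem_range]
    exact Nat.lt_succ_of_le (Nat.div_le_div_right ht.1.le)
  · intro t ht t' ht' h
    rw [Finset.mem_coe, Finset.mem_filter] at ht ht'
    change t / p = t' / p at h
    rw [← Nat.div_add_mod t p, ← Nat.div_add_mod t' p, h, ht.2, ht'.2]

theorem avoid (y S r : ℕ) (hy : 1 ≤ y) (Q : Finset ℕ) (hQ : ∀ p ∈ Q, y ≤ p)
    (Bad : ℕ → Finset ℕ) (hB : ∀ p ∈ Q, (Bad p).card ≤ r) (E : Finset ℕ)
    (hS : Q.card * (r * (S / y + 1)) + E.card < S) :
    ∃ t < S, t ∉ E ∧ ∀ p ∈ Q, t % p ∉ Bad p := by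
  classical
  by_contra hcon
  push Not at hcon
  have hsub : Finset.range S ⊆ (Q.biUnion fun p => (Bad p).biUnion fun b =>
      (Finset.range S).filter (fun t => t % p = b)) ∪ E := by
    intro t ht
    rw [Finset.mem_range] at ht
    by_cases htE : t ∈ E
    · exact Finset.mem_union_right _ htE
    · obtain ⟨p, hp, hb⟩ := hcon t ht htE
      apply Finset.mem_union_left
      rw [Finset.mem_biUnion]
      refine ⟨p, hp, ?_⟩
      rw [Finset.mem_biUnion]
      exact ⟨t % p, hb, Finset.mem_filter.2 ⟨Finset.mem_range.2 ht, rfl⟩⟩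
  have h1 : (Q.biUnion fun p => (Bad p).biUnion fun b =>
      (Finset.range S).filter (fun t => t % p = b)).card ≤ Q.card * (r * (S / y + 1)) := by
    apply Finset.card_biUnion_le_card_mul
    intro p hp
    have h2 : ((Bad p).biUnion fun b => (Finset.range S).filter (fun t => t % p = b)).card ≤
        (Bad p).card * (S / y + 1) := by
      apply Finset.card_biUnion_le_card_mul
      intro b _
      refine (N1_class p b S).trans ?_
      exact Nat.add_le_add_right (Nat.div_le_div_left (hQ p hp) hy) 1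
    exact h2.trans (Nat.mul_le_mul_right _ (hB p hp))
  have h3 := (Finset.card_le_card hsub).trans (Finset.card_union_le _ _)
  rw [Finset.card_range] at h3
  omega

theorem card_primes_le (y N : ℕ) (hN : N ≠ 0) (Q : Finset ℕ)
    (hQ : ∀ p ∈ Q, p.Prime ∧ y ≤ p ∧ p ∣ N) : y ^ Q.card ≤ N := by
  have h1 : (∏ p ∈ Q, p) ∣ N :=
    Finset.prod_primes_dvd N (fun p hp => (hQ p hp).1.prime) (fun p hp => (hQ p hp).2.2)
  have h2 : y ^ Q.card ≤ ∏ p ∈ Q, p := by
    rw [← Finset.prod_const]
    exact Finset.prod_le_prod (fun _ _ => Nat.zero_le _) (fun p hp => (hQ p hp).2.1)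
  exact h2.trans (Nat.le_of_dvd (Nat.pos_of_ne_zero hN) h1)

theorem card_primes (y k N : ℕ) (hy : 2 ≤ y) (hN : N ≠ 0) (hk : N < y ^ (k + 1)) (Q : Finset ℕ)
    (hQ : ∀ p ∈ Q, p.Prime ∧ y ≤ p ∧ p ∣ N) : Q.card ≤ k := by
  by_contra hcon
  rw [not_le] at hcon
  have h1 : y ^ (k + 1) ≤ y ^ Q.card := Nat.pow_le_pow_right (by omega) hcon
  exact absurd ((h1.trans (card_primes_le y N hN Q hQ))) (not_le.2 hk)

end Pool.SD
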