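import Pool.Agent.Lib.MP_9dcace_sd.Defs

/-!
ROW N2 (root counts, 120-180 lines).
Modulo a prime p (work in `ZMod p`, cast with `ZMod.intCast_zmod_eq_zero_iff_dvd` / `(ZMod.intCast_zmod_eq_zero_iff_dvd _ _)`, the map
range p -> ZMod p, s ↦ (s : ZMod p) is injective):
* `roots2`: dz (mc s) u = u0 + u1 s + u2 s^2, a nonzero polynomial of degree <= 2 over the field ZMod p: at most 2 roots
  (`Polynomial.card_roots'` and natDegree <= 2, or by hand: three different roots force u0 = u1 = u2 = 0).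
* `roots_cz`: if p divides all coordinates of cz (mc s) g then g ≡ g0 * mc s (mod p) (cz (mc s) g = 0 says g1 = s g0 and g2 = s g1...: coordinate 2:
  g1 - s g0 = 0; coordinate 1: s^2 g0 - g2 = 0), so g0 ≢ 0 (otherwise g ≡ 0) and s ≡ g1/g0 is unique.
* `roots1`, `roots_vec` (use a coordinate i with p not dividing v i).
Over the integers (natural numbers s < S): `iroots2`, `iroots_cz`, `iroots1` in the same way.
`mod_*`: the properties only depend on t modulo p (Int.emod_emod_of_dvd, (t : ℤ) ≡ (t % p : ℕ)): p divides the difference of the two expressions.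
-/

set_option autoImplicit false

open Classical

namespace Pool.SD

private theorem N2_quad {R : Type} [CommRing R] [IsDomain R] (A : Finset ℕ)
    (hinj : ∀ s ∈ A, ∀ t ∈ A, (s : R) = (t : R) → s = t) (a b c : R)
    (h : ¬ (a = 0 ∧ b = 0 ∧ c = 0)) (hr : ∀ s ∈ A, a + b * (s : R) + c * (s : R) ^ 2 = 0) :
    A.card ≤ 2 := by
  set f : Polynomial R := Polynomial.C c * Polynomial.X ^ 2 + Polynomial.C b * Polynomial.X +
    Polynomial.C a with hf
  have hd : f.natDegree ≤ 2 := Polynomial.natDegree_quadratic_le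
  have hf0 : f ≠ 0 := by
    intro h0
    apply h
    have c0 : f.coeff 0 = a := by simp [hf]
    have c1 : f.coeff 1 = b := by simp [hf, Polynomial.coeff_X, Polynomial.coeff_C]
    have c2 : f.coeff 2 = c := by simp [hf, Polynomial.coeff_X, Polynomial.coeff_C]
    rw [h0, Polynomial.coeff_zero] at c0 c1 c2
    exact ⟨c0.symm, c1.symm, c2.symm⟩
  have h1 : (A.image (fun s : ℕ => (s : R))).card ≤ f.roots.toFinset.card := by
    refine Finset.card_le_card fun x hx => ?_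
    rw [Finset.mem_image] at hx
    obtain ⟨s, hs, rfl⟩ := hx
    rw [Multiset.mem_toFinset, Polynomial.mem_roots hf0, Polynomial.IsRoot.def]
    simp only [hf, Polynomial.eval_add, Polynomial.eval_mul, Polynomial.eval_C,
      Polynomial.eval_pow, Polynomial.eval_X]
    rw [← hr s hs]
    ring
  rw [Finset.card_image_of_injOn (fun s hs t ht h => hinj s hs t ht h)] at h1
  exact h1.trans ((Multiset.toFinset_card_le _).trans ((Polynomial.card_roots' f).trans hd))

private theorem N2_lin {R : Type} [CommRing R] [IsDomain R] (A : Finset ℕ)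
    (hinj : ∀ s ∈ A, ∀ t ∈ A, (s : R) = (t : R) → s = t) (a b : R) (hb : b ≠ 0)
    (hr : ∀ s ∈ A, a + b * (s : R) = 0) : A.card ≤ 1 := by
  rw [Finset.card_le_one]
  intro s hs t ht
  refine hinj s hs t ht ?_
  have h1 : b * ((s : R) - t) = 0 := by
    have h2 := hr s hs
    have h3 := hr t ht
    calc b * ((s : R) - t) = (a + b * (s : R)) - (a + b * (t : R)) := by ring
      _ = 0 := by rw [h2, h3, sub_zero]
  exact sub_eq_zero.1 ((mul_eq_zero.1 h1).resolve_left hb)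

private theorem N2_inj (p : ℕ) (P : ℕ → Prop) [DecidablePred P] :
    ∀ s ∈ (Finset.range p).filter P, ∀ t ∈ (Finset.range p).filter P,
      ((s : ZMod p)) = (t : ZMod p) → s = t := by
  intro s hs t ht h
  rw [Finset.mem_filter, Finset.mem_range] at hs ht
  rw [ZMod.natCast_eq_natCast_iff', Nat.mod_eq_of_lt hs.1, Nat.mod_eq_of_lt ht.1] at h
  exact h

private theorem N2_injZ (A : Finset ℕ) : ∀ s ∈ A, ∀ t ∈ A, (s : ℤ) = (t : ℤ) → s = t :=
  fun _ _ _ _ h => Int.natCast_inj.1 h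

theorem roots2 (p : ℕ) (hp : p.Prime) (u : Z3) (hu : NZ p u) :
    ((Finset.range p).filter (fun s : ℕ => (p : ℤ) ∣ dz (mc s) u)).card ≤ 2 := by
  have hfp : Fact p.Prime := ⟨hp⟩
  refine N2_quad (R := ZMod p) _ (N2_inj p _) (u 0 : ZMod p) (u 1 : ZMod p) (u 2 : ZMod p) ?_ ?_
  · rintro ⟨h0, h1, h2⟩
    obtain ⟨i, hi⟩ := hu
    apply hi
    rw [← ZMod.intCast_zmod_eq_zero_iff_dvd]
    fin_cases i
    · exact h0
    · exact h1
    · exact h2
  · intro s hs
    rw [Finset.mem_filter] at hs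
    have h := (ZMod.intCast_zmod_eq_zero_iff_dvd _ p).2 hs.2
    rw [dz_def, mc0, mc1, mc2] at h
    push_cast at h
    rw [← h]
    ring

theorem roots_cz (p : ℕ) (hp : p.Prime) (g : Z3) (hg : NZ p g) :
    ((Finset.range p).filter (fun s : ℕ => ¬ NZ p (cz (mc s) g))).card ≤ 1 := by
  have hfp : Fact p.Prime := ⟨hp⟩
  have key : ∀ s ∈ (Finset.range p).filter (fun s : ℕ => ¬ NZ p (cz (mc s) g)),
      ((g 1 : ZMod p) + (-(g 0 : ZMod p)) * (s : ZMod p) = 0) ∧
        (s : ZMod p) ^ 2 * (g 0 : ZMod p) = (g 2 : ZMod p) := by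
    intro s hs
    rw [Finset.mem_filter] at hs
    have h : ∀ i, (p : ℤ) ∣ cz (mc s) g i := by
      intro i
      by_contra hi
      exact hs.2 ⟨i, hi⟩
    have h2 := (ZMod.intCast_zmod_eq_zero_iff_dvd _ p).2 (h 2)
    have h1 := (ZMod.intCast_zmod_eq_zero_iff_dvd _ p).2 (h 1)
    rw [cz2, mc0, mc1] at h2
    rw [cz1, mc0, mc2] at h1
    push_cast at h1 h2
    constructor
    · rw [← h2]
      ring
    · rw [sub_eq_zero] at h1
      rw [h1]
      ring
  by_cases h0 : (g 0 : ZMod p) = 0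
  · refine le_trans (le_of_eq ?_) (Nat.zero_le 1)
    rw [Finset.card_eq_zero, Finset.eq_empty_iff_forall_notMem]
    intro s hs
    obtain ⟨k1, k2⟩ := key s hs
    rw [h0, neg_zero, zero_mul, add_zero] at k1
    rw [h0, mul_zero] at k2
    obtain ⟨i, hi⟩ := hg
    apply hi
    rw [← ZMod.intCast_zmod_eq_zero_iff_dvd]
    fin_cases i
    · exact h0
    · exact k1
    · exact k2.symm
  · exact N2_lin (R := ZMod p) _ (N2_inj p _) (g 1 : ZMod p) (-(g 0 : ZMod p)) (neg_ne_zero.2 h0)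
      (fun s hs => (key s hs).1)

theorem roots1 (p : ℕ) (hp : p.Prime) (a b : ℤ) (hb : ¬ (p : ℤ) ∣ b) :
    ((Finset.range p).filter (fun t : ℕ => (p : ℤ) ∣ a + b * t)).card ≤ 1 := by
  have hfp : Fact p.Prime := ⟨hp⟩
  refine N2_lin (R := ZMod p) _ (N2_inj p _) (a : ZMod p) (b : ZMod p) ?_ ?_
  · intro h
    exact hb ((ZMod.intCast_zmod_eq_zero_iff_dvd _ p).1 h)
  · intro s hs
    rw [Finset.mem_filter] at hs
    have h := (ZMod.intCast_zmod_eq_zero_iff_dvd _ p).2 hs.2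
    push_cast at h
    exact h

theorem roots_vec (p : ℕ) (hp : p.Prime) (x v : Z3) (hv : NZ p v) :
    ((Finset.range p).filter (fun t : ℕ => ¬ NZ p (fun i => x i + t * v i))).card ≤ 1 := by
  obtain ⟨i, hi⟩ := hv
  refine le_trans (Finset.card_le_card ?_) (roots1 p hp (x i) (v i) hi)
  intro t ht
  rw [Finset.mem_filter] at ht ⊢
  refine ⟨ht.1, ?_⟩
  by_contra h
  refine ht.2 ⟨i, ?_⟩
  intro h'
  apply h
  have e : x i + v i * (t : ℤ) = x i + (t : ℤ) * v i := by ring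
  rw [e]
  exact h'

theorem iroots2 (S : ℕ) (u : Z3) (hu : u ≠ 0) :
    ((Finset.range S).filter (fun s : ℕ => dz (mc s) u = 0)).card ≤ 2 := by
  refine N2_quad (R := ℤ) _ (N2_injZ _) (u 0) (u 1) (u 2) ?_ ?_
  · rintro ⟨h0, h1, h2⟩
    apply hu
    funext i
    fin_cases i
    · exact h0
    · exact h1
    · exact h2
  · intro s hs
    rw [Finset.mem_filter] at hs
    have h := hs.2
    rw [dz_def, mc0, mc1, mc2] at h
    rw [← h]
    ring

theorem iroots_cz (S : ℕ) (c : Z3) (hc : c ≠ 0) :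
    ((Finset.range S).filter (fun s : ℕ => cz (mc s) c = 0)).card ≤ 1 := by
  have key : ∀ s ∈ (Finset.range S).filter (fun s : ℕ => cz (mc s) c = 0),
      (c 1 + (-(c 0)) * (s : ℤ) = 0) ∧ (s : ℤ) ^ 2 * c 0 = c 2 := by
    intro s hs
    rw [Finset.mem_filter] at hs
    have h2 := congrFun hs.2 2
    have h1 := congrFun hs.2 1
    rw [cz2, mc0, mc1, Pi.zero_apply] at h2
    rw [cz1, mc0, mc2, Pi.zero_apply] at h1
    constructor
    · linarith
    · linarith
  by_cases h0 : c 0 = 0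
  · refine le_trans (le_of_eq ?_) (Nat.zero_le 1)
    rw [Finset.card_eq_zero, Finset.eq_empty_iff_forall_notMem]
    intro s hs
    obtain ⟨k1, k2⟩ := key s hs
    rw [h0, neg_zero, zero_mul, add_zero] at k1
    rw [h0, mul_zero] at k2
    apply hc
    funext i
    fin_cases i
    · exact h0
    · exact k1
    · exact k2.symm
  · exact N2_lin (R := ℤ) _ (N2_injZ _) (c 1) (-(c 0)) (neg_ne_zero.2 h0)
      (fun s hs => (key s hs).1)

theorem iroots1 (S : ℕ) (a b : ℤ) (hb : b ≠ 0) :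
    ((Finset.range S).filter (fun t : ℕ => a + b * t = 0)).card ≤ 1 := by
  refine N2_lin (R := ℤ) _ (N2_injZ _) a b hb ?_
  intro s hs
  rw [Finset.mem_filter] at hs
  exact hs.2

private theorem N2_mod (p t : ℕ) : ∃ k : ℤ, (t : ℤ) = ((t % p : ℕ) : ℤ) + p * k := by
  refine ⟨((t / p : ℕ) : ℤ), ?_⟩
  have h := Nat.mod_add_div t p
  exact_mod_cast h.symm

theorem mod_mc (p t : ℕ) (u : Z3) :
    (p : ℤ) ∣ dz (mc t) u ↔ (p : ℤ) ∣ dz (mc ((t % p : ℕ) : ℤ)) u := by
  obtain ⟨k, hk⟩ := N2_mod p t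
  refine dvd_iff_dvd_of_dvd_sub ⟨k * (u 1 + u 2 * ((t : ℤ) + ((t % p : ℕ) : ℤ))), ?_⟩
  simp only [dz_def, mc0, mc1, mc2]
  have e : (p : ℤ) * k = (t : ℤ) - ((t % p : ℕ) : ℤ) := by linarith
  rw [← mul_assoc, e]
  ring

theorem mod_cz (p t : ℕ) (g : Z3) : NZ p (cz (mc t) g) ↔ NZ p (cz (mc ((t % p : ℕ) : ℤ)) g) := by
  obtain ⟨k, hk⟩ := N2_mod p t
  have e : (p : ℤ) * k = (t : ℤ) - ((t % p : ℕ) : ℤ) := by linarith
  have key : ∀ i, (p : ℤ) ∣ cz (mc t) g i ↔ (p : ℤ) ∣ cz (mc ((t % p : ℕ) : ℤ)) g i := by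
    intro i
    fin_cases i
    · refine dvd_iff_dvd_of_dvd_sub ⟨k * (g 2 - g 1 * ((t : ℤ) + ((t % p : ℕ) : ℤ))), ?_⟩
      change cz (mc t) g 0 - cz (mc ((t % p : ℕ) : ℤ)) g 0 = _
      simp only [cz0, mc0, mc1, mc2]
      rw [← mul_assoc, e]
      ring
    · refine dvd_iff_dvd_of_dvd_sub ⟨k * (g 0 * ((t : ℤ) + ((t % p : ℕ) : ℤ))), ?_⟩
      change cz (mc t) g 1 - cz (mc ((t % p : ℕ) : ℤ)) g 1 = _
      simp only [cz1, mc0, mc1, mc2]
      rw [← mul_assoc, e]
      ring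
    · refine dvd_iff_dvd_of_dvd_sub ⟨k * (- g 0), ?_⟩
      change cz (mc t) g 2 - cz (mc ((t % p : ℕ) : ℤ)) g 2 = _
      simp only [cz2, mc0, mc1, mc2]
      rw [← mul_assoc, e]
      ring
  unfold NZ
  exact exists_congr fun i => not_congr (key i)

theorem mod_lin (p t : ℕ) (a b : ℤ) :
    (p : ℤ) ∣ a + b * t ↔ (p : ℤ) ∣ a + b * ((t % p : ℕ) : ℤ) := by
  obtain ⟨k, hk⟩ := N2_mod p t
  have e : (p : ℤ) * k = (t : ℤ) - ((t % p : ℕ) : ℤ) := by linarith
  refine dvd_iff_dvd_of_dvd_sub ⟨k * b, ?_⟩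
  rw [← mul_assoc, e]
  ring

theorem mod_vec (p t : ℕ) (x v : Z3) :
    NZ p (fun i => x i + t * v i) ↔ NZ p (fun i => x i + ((t % p : ℕ) : ℤ) * v i) := by
  unfold NZ
  refine exists_congr fun i => not_congr ?_
  have h := mod_lin p t (x i) (v i)
  rw [mul_comm (v i), mul_comm (v i)] at h
  exact h

end Pool.SD
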