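import Pool.Agent.Lib.MP_9dcace_sd.NDefs

/-!
ROW N3 (steps 1 and the sets of primes, 100-150 lines).
`step1`: count the bad s < S: 2 for every z ∈ Zs and u ∈ U (`iroots2`; u ≠ 0 because it is nonzero modulo some prime >= y, `Nat.exists_infinite_primes`),
 1 for every ordered pair (u, u') (u ≠ u'), at most 20 pairs (5 * 4; bounding by 25 is fine) and 1 for every g ∈ G (`iroots_cz`):
 2 |Zs| + 10 + 25 + 6 < S.
`Q1_bound`: every finite set Q of numbers satisfying Q1 has at most k elements: they divide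
 N = ∏_{u∈U} |w . u| * ∏_{g∈G} |(w x g)_{i(g)}|, i(g) a coordinate with (w x g)_i ≠ 0; |w . u| <= 3 S^2 H, |(w x g)_i| <= 2 S^2 H (|w i| <= S^2: w = mc s, s < S),
 N <= (3 S^2 H)^11 <= (12 S^2 H^2 (H + m S^3))^26 < y^(k+1) (`card_primes`; Int.natAbs).
`Q2_bound`: the numbers satisfying Q2 divide the product of at most 25 + 6... use the pairs u ≠ u' (at most 20 ordered pairs) and the 6 g: at most 26 factors,
 each of absolute value <= 12 S^2 H^2 (H + m S^3) (|cz u u'| <= 2 H^2, |cz w _| <= 4 S^2 H^2, |a0 i| <= H + m S^3).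
-/

set_option autoImplicit false

open Classical

namespace Pool.SD

private theorem N3_dz {a x : Z3} {A X : ℤ} (ha : ∀ i, |a i| ≤ A) (hx : ∀ i, |x i| ≤ X) :
    |dz a x| ≤ 3 * (A * X) := by
  have hA : 0 ≤ A := (abs_nonneg _).trans (ha 0)
  have h : ∀ i j, |a i * x j| ≤ A * X := by
    intro i j
    rw [abs_mul]
    exact mul_le_mul (ha i) (hx j) (abs_nonneg _) hA
  rw [dz_def]
  have h1 := abs_add_le (a 0 * x 0 + a 1 * x 1) (a 2 * x 2)
  have h2 := abs_add_le (a 0 * x 0) (a 1 * x 1)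
  have h3 := h 0 0
  have h4 := h 1 1
  have h5 := h 2 2
  linarith

private theorem N3_cz {a x : Z3} {A X : ℤ} (ha : ∀ i, |a i| ≤ A) (hx : ∀ i, |x i| ≤ X) :
    ∀ i, |cz a x i| ≤ 2 * (A * X) := by
  have hA : 0 ≤ A := (abs_nonneg _).trans (ha 0)
  have h : ∀ i j, |a i * x j| ≤ A * X := by
    intro i j
    rw [abs_mul]
    exact mul_le_mul (ha i) (hx j) (abs_nonneg _) hA
  have key : ∀ i j i' j', |a i * x j - a i' * x j'| ≤ 2 * (A * X) := by
    intro i j i' j'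
    have h1 := abs_sub (a i * x j) (a i' * x j')
    have h3 := h i j
    have h4 := h i' j'
    linarith
  intro i
  fin_cases i
  · exact key 1 2 2 1
  · exact key 2 0 0 2
  · exact key 0 1 1 0

private theorem N3_mc {S s : ℕ} (hs : s < S) : ∀ i, |mc (s : ℤ) i| ≤ (S : ℤ) ^ 2 := by
  have hS : (s : ℤ) + 1 ≤ (S : ℤ) := by exact_mod_cast hs
  have h0 : (0 : ℤ) ≤ (s : ℤ) := Int.natCast_nonneg s
  intro i
  fin_cases i
  · change |(1 : ℤ)| ≤ _
    rw [abs_one]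
    nlinarith
  · change |(s : ℤ)| ≤ _
    rw [abs_of_nonneg h0]
    nlinarith
  · change |(s : ℤ) ^ 2| ≤ _
    rw [abs_of_nonneg (pow_nonneg h0 2)]
    nlinarith

private theorem N3_key (y k : ℕ) (hy : 2 ≤ y) (B : ℤ) (hB : 1 ≤ B)
    (hBy : B ^ 26 < (y : ℤ) ^ (k + 1)) (F : Finset ℤ) (hF : F.card ≤ 26)
    (hf0 : ∀ z ∈ F, z ≠ 0) (hfB : ∀ z ∈ F, |z| ≤ B) (Q : Finset ℕ)
    (hQ : ∀ p ∈ Q, p.Prime ∧ y ≤ p ∧ ∃ z ∈ F, (p : ℤ) ∣ z) : Q.card ≤ k := by
  have hprod0 : (∏ z ∈ F, z) ≠ 0 := Finset.prod_ne_zero_iff.2 hf0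
  have habs : |∏ z ∈ F, z| ≤ B ^ 26 := by
    rw [Finset.abs_prod]
    calc ∏ z ∈ F, |z| ≤ ∏ _z ∈ F, B :=
          Finset.prod_le_prod (fun z _ => abs_nonneg z) hfB
      _ = B ^ F.card := by rw [Finset.prod_const]
      _ ≤ B ^ 26 := pow_le_pow_right₀ hB hF
  refine card_primes y k (∏ z ∈ F, z).natAbs hy (Int.natAbs_ne_zero.2 hprod0) ?_ Q ?_
  · have h : (((∏ z ∈ F, z).natAbs : ℕ) : ℤ) < ((y ^ (k + 1) : ℕ) : ℤ) := by
      rw [Int.natCast_natAbs]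
      push_cast
      exact habs.trans_lt hBy
    exact_mod_cast h
  · intro p hp
    obtain ⟨h1, h2, z, hz, h3⟩ := hQ p hp
    refine ⟨h1, h2, ?_⟩
    rw [← Int.natCast_dvd]
    exact h3.trans (Finset.dvd_prod_of_mem (fun z : ℤ => z) hz)

private theorem N3_one_le_B {S : ℕ} {H T : ℤ} (hS : 1 ≤ S) (hH : 1 ≤ H) (hT : 1 ≤ T) :
    1 ≤ 12 * (S : ℤ) ^ 2 * H ^ 2 * T := by
  have h1 : (1 : ℤ) ≤ (S : ℤ) ^ 2 := one_le_pow₀ (by exact_mod_cast hS)
  have h2 : (1 : ℤ) ≤ H ^ 2 := one_le_pow₀ hH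
  have h3 : (1 : ℤ) ≤ (S : ℤ) ^ 2 * H ^ 2 := one_le_mul_of_one_le_of_one_le h1 h2
  have h4 : (1 : ℤ) ≤ (S : ℤ) ^ 2 * H ^ 2 * T := one_le_mul_of_one_le_of_one_le h3 hT
  nlinarith

private theorem N3_T {S m : ℕ} {H : ℤ} (hH : 1 ≤ H) : 1 ≤ H + m * (S : ℤ) ^ 3 := by
  have h : (0 : ℤ) ≤ m * (S : ℤ) ^ 3 := by positivity
  linarith


theorem step1 {y k S m : ℕ} {H : ℤ} {U G Zs : Finset Z3} {a1 : Z3}
    (h : Inp y k S m H U G Zs a1) : ∃ s < S, Step1 U G Zs (mc (s : ℤ)) := by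
  have hu0 : ∀ u ∈ U, u ≠ 0 := by
    intro u hu h0
    obtain ⟨p, hp1, hp2⟩ := Nat.exists_infinite_primes y
    obtain ⟨i, hi⟩ := h.hU u hu p hp2 hp1
    apply hi
    rw [h0, Pi.zero_apply]
    exact dvd_zero _
  have hg0 : ∀ g ∈ G, g ≠ 0 := by
    intro u hu h0
    obtain ⟨p, hp1, hp2⟩ := Nat.exists_infinite_primes y
    obtain ⟨i, hi⟩ := h.hG u hu p hp2 hp1
    apply hi
    rw [h0, Pi.zero_apply]
    exact dvd_zero _
  set B1 : Finset ℕ := Zs.biUnion fun z => (Finset.range S).filter (fun s : ℕ => dz (mc s) z = 0)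
    with hB1
  set B2 : Finset ℕ := U.biUnion fun z => (Finset.range S).filter (fun s : ℕ => dz (mc s) z = 0)
    with hB2
  set B3 : Finset ℕ := U.offDiag.biUnion fun q =>
    (Finset.range S).filter (fun s : ℕ => cz (mc s) (cz q.1 q.2) = 0) with hB3
  set B4 : Finset ℕ := G.biUnion fun z => (Finset.range S).filter (fun s : ℕ => cz (mc s) z = 0)
    with hB4
  have c1 : B1.card ≤ Zs.card * 2 :=
    Finset.card_biUnion_le_card_mul _ _ _ fun z hz => iroots2 S z (h.hZ z hz)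
  have c2 : B2.card ≤ U.card * 2 :=
    Finset.card_biUnion_le_card_mul _ _ _ fun z hz => iroots2 S z (hu0 z hz)
  have c3 : B3.card ≤ U.offDiag.card * 1 :=
    Finset.card_biUnion_le_card_mul _ _ _ fun q hq => by
      rw [Finset.mem_offDiag] at hq
      exact iroots_cz S _ (h.hUU q.1 hq.1 q.2 hq.2.1 hq.2.2)
  have c4 : B4.card ≤ G.card * 1 :=
    Finset.card_biUnion_le_card_mul _ _ _ fun z hz => iroots_cz S z (hg0 z hz)
  have c5 : U.offDiag.card ≤ 25 := by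
    rw [Finset.offDiag_card]
    have := h.hU5
    have h2 : U.card * U.card ≤ 5 * 5 := Nat.mul_le_mul this this
    omega
  have c6 : (B1 ∪ B2 ∪ B3 ∪ B4).card < (Finset.range S).card := by
    have e1 := Finset.card_union_le (B1 ∪ B2 ∪ B3) B4
    have e2 := Finset.card_union_le (B1 ∪ B2) B3
    have e3 := Finset.card_union_le B1 B2
    have e4 := h.hS
    have e5 := h.hU5
    have e6 := h.hG6
    rw [Finset.card_range]
    omega
  obtain ⟨s, hs, hns⟩ := Finset.exists_mem_notMem_of_card_lt_card c6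
  have hsr := hs
  rw [Finset.mem_range] at hs
  simp only [Finset.mem_union, not_or] at hns
  obtain ⟨⟨⟨n1, n2⟩, n3⟩, n4⟩ := hns
  refine ⟨s, hs, ?_, ?_, ?_, ?_⟩
  · intro z hz h0
    exact n1 (Finset.mem_biUnion.2 ⟨z, hz, Finset.mem_filter.2 ⟨hsr, h0⟩⟩)
  · intro z hz h0
    exact n2 (Finset.mem_biUnion.2 ⟨z, hz, Finset.mem_filter.2 ⟨hsr, h0⟩⟩)
  · intro u hu u' hu' hne h0
    exact n3 (Finset.mem_biUnion.2 ⟨(u, u'), Finset.mem_offDiag.2 ⟨hu, hu', hne⟩,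
      Finset.mem_filter.2 ⟨hsr, h0⟩⟩)
  · intro z hz h0
    exact n4 (Finset.mem_biUnion.2 ⟨z, hz, Finset.mem_filter.2 ⟨hsr, h0⟩⟩)

theorem Q1_bound {y k S m : ℕ} {H : ℤ} {U G Zs : Finset Z3} {a1 : Z3}
    (h : Inp y k S m H U G Zs a1) (s : ℕ) (hs : s < S) (h1 : Step1 U G Zs (mc (s : ℤ)))
    (Q : Finset ℕ) (hQ : ∀ p ∈ Q, Q1 y U G (mc (s : ℤ)) p) : Q.card ≤ k := by
  have hH := h.hH
  have hT : 1 ≤ H + m * (S : ℤ) ^ 3 := N3_T hH
  have hS1 : 1 ≤ S := by omega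
  have hw := N3_mc hs
  have hy2 : 2 ≤ y := by
    have := h.hy
    omega
  have hch : ∀ g : Z3, ∃ i : Fin 3, g ∈ G → cz (mc (s : ℤ)) g i ≠ 0 := by
    intro g
    by_cases hg : g ∈ G
    · have h2 := h1.g g hg
      rw [Function.ne_iff] at h2
      obtain ⟨i, hi⟩ := h2
      exact ⟨i, fun _ => hi⟩
    · exact ⟨0, fun h => absurd h hg⟩
  choose ι hι using hch
  set P : ℤ := (S : ℤ) ^ 2 with hP
  set T : ℤ := H + m * (S : ℤ) ^ 3 with hTdef
  have hP1 : 1 ≤ P := one_le_pow₀ (by exact_mod_cast hS1)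
  have hPH : P * H ≤ P * H ^ 2 * T := by
    have e1 : H ≤ H ^ 2 * T := by nlinarith [mul_nonneg (sub_nonneg.2 hH) (sub_nonneg.2 hT), sq_nonneg H]
    have e2 : P * H ≤ P * (H ^ 2 * T) := mul_le_mul_of_nonneg_left e1 (by linarith)
    linarith
  have hPH0 : 0 ≤ P * H := by positivity
  refine N3_key y k hy2 (12 * (S : ℤ) ^ 2 * H ^ 2 * T) (N3_one_le_B hS1 hH hT) h.big
    (U.image (fun u => dz (mc (s : ℤ)) u) ∪ G.image (fun g => cz (mc (s : ℤ)) g (ι g)))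
    ?_ ?_ ?_ Q ?_
  · have e1 := Finset.card_union_le (U.image (fun u => dz (mc (s : ℤ)) u))
      (G.image (fun g => cz (mc (s : ℤ)) g (ι g)))
    have e2 : (U.image (fun u => dz (mc (s : ℤ)) u)).card ≤ U.card := Finset.card_image_le
    have e3 : (G.image (fun g => cz (mc (s : ℤ)) g (ι g))).card ≤ G.card := Finset.card_image_le
    have e4 := h.hU5
    have e5 := h.hG6
    omega
  · intro z hz
    rw [Finset.mem_union, Finset.mem_image, Finset.mem_image] at hz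
    rcases hz with ⟨u, hu, rfl⟩ | ⟨g, hg, rfl⟩
    · exact h1.u u hu
    · exact hι g hg
  · intro z hz
    rw [Finset.mem_union, Finset.mem_image, Finset.mem_image] at hz
    rcases hz with ⟨u, hu, rfl⟩ | ⟨g, hg, rfl⟩
    · have e := N3_dz hw (h.hUH u hu)
      nlinarith
    · have e := N3_cz hw (h.hGH g hg) (ι g)
      nlinarith
  · intro p hp
    obtain ⟨q1, q2, q3⟩ := hQ p hp
    refine ⟨q1, q2, ?_⟩
    rcases q3 with ⟨u, hu, hd⟩ | ⟨g, hg, hd⟩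
    · exact ⟨_, Finset.mem_union_left _ (Finset.mem_image_of_mem _ hu), hd⟩
    · refine ⟨_, Finset.mem_union_right _ (Finset.mem_image_of_mem _ hg), ?_⟩
      by_contra h3
      exact hd ⟨_, h3⟩

theorem Q2_bound {y k S m : ℕ} {H : ℤ} {U G Zs : Finset Z3} {a1 : Z3}
    (h : Inp y k S m H U G Zs a1) (s : ℕ) (hs : s < S) (a0 : Z3)
    (ha0 : ∀ i, |a0 i| ≤ H + m * (S : ℤ) ^ 3) (h3 : Step3 y U G (mc (s : ℤ)) a0)
    (Q : Finset ℕ) (hQ : ∀ p ∈ Q, Q2 y U G (mc (s : ℤ)) a0 p) : Q.card ≤ k := by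
  have hH := h.hH
  have hT : 1 ≤ H + m * (S : ℤ) ^ 3 := N3_T hH
  have hS1 : 1 ≤ S := by omega
  have hw := N3_mc hs
  have hy2 : 2 ≤ y := by
    have := h.hy
    omega
  set T : ℤ := H + m * (S : ℤ) ^ 3 with hTdef
  have hP1 : 1 ≤ (S : ℤ) ^ 2 := one_le_pow₀ (by exact_mod_cast hS1)
  refine N3_key y k hy2 (12 * (S : ℤ) ^ 2 * H ^ 2 * T) (N3_one_le_B hS1 hH hT) h.big
    (U.offDiag.image (fun q => dz a0 (cz (mc (s : ℤ)) (cz q.1 q.2))) ∪
      G.image (fun g => dz a0 (cz (mc (s : ℤ)) g))) ?_ ?_ ?_ Q ?_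
  · have e1 := Finset.card_union_le
      (U.offDiag.image (fun q => dz a0 (cz (mc (s : ℤ)) (cz q.1 q.2))))
      (G.image (fun g => dz a0 (cz (mc (s : ℤ)) g)))
    have e2 : (U.offDiag.image (fun q => dz a0 (cz (mc (s : ℤ)) (cz q.1 q.2)))).card ≤
      U.offDiag.card := Finset.card_image_le
    have e3 : (G.image (fun g => dz a0 (cz (mc (s : ℤ)) g))).card ≤ G.card :=
      Finset.card_image_le
    have e4 := h.hU5
    have e5 := h.hG6
    have e6 : U.offDiag.card ≤ 20 := by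
      rw [Finset.offDiag_card]
      interval_cases U.card <;> omega
    omega
  · intro z hz
    rw [Finset.mem_union, Finset.mem_image, Finset.mem_image] at hz
    rcases hz with ⟨q, hq, rfl⟩ | ⟨g, hg, rfl⟩
    · rw [Finset.mem_offDiag] at hq
      exact h3.uu q.1 hq.1 q.2 hq.2.1 hq.2.2
    · exact h3.gg g hg
  · intro z hz
    rw [Finset.mem_union, Finset.mem_image, Finset.mem_image] at hz
    rcases hz with ⟨q, hq, rfl⟩ | ⟨g, hg, rfl⟩
    · rw [Finset.mem_offDiag] at hq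
      have e := N3_dz ha0 (N3_cz hw (N3_cz (h.hUH q.1 hq.1) (h.hUH q.2 hq.2.1)))
      refine e.trans (le_of_eq ?_)
      ring
    · have e := N3_dz ha0 (N3_cz hw (h.hGH g hg))
      refine e.trans ?_
      have e2 : 0 ≤ T * ((S : ℤ) ^ 2 * H) := by positivity
      have e3 : T * ((S : ℤ) ^ 2 * H) ≤ T * ((S : ℤ) ^ 2 * H) * H := le_mul_of_one_le_right e2 hH
      nlinarith
  · intro p hp
    obtain ⟨q1, q2, q3⟩ := hQ p hp
    refine ⟨q1, q2, ?_⟩
    rcases q3 with ⟨u, hu, u', hu', hne, hd⟩ | ⟨g, hg, hd⟩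
    · exact ⟨_, Finset.mem_union_left _ (Finset.mem_image_of_mem
        (fun q : Z3 × Z3 => dz a0 (cz (mc (s : ℤ)) (cz q.1 q.2)))
        (Finset.mem_offDiag.2 ⟨hu, hu', hne⟩ : (u, u') ∈ U.offDiag)), hd⟩
    · exact ⟨_, Finset.mem_union_right _ (Finset.mem_image_of_mem _ hg), hd⟩

/-- a property with uniformly bounded finite subsets is given by a finite set -/
theorem finset_of_bound (P : ℕ → Prop) (k : ℕ) (h : ∀ Q : Finset ℕ, (∀ p ∈ Q, P p) → Q.card ≤ k) :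
    ∃ Q : Finset ℕ, (∀ p, p ∈ Q ↔ P p) ∧ Q.card ≤ k := by
  have hfin : {n : ℕ | P n}.Finite := by
    by_contra hinf
    obtain ⟨Q, hQ, hc⟩ := Set.Infinite.exists_subset_card_eq (s := {n : ℕ | P n}) hinf (k + 1)
    have h1 := h Q (fun p hp => hQ hp)
    omega
  refine ⟨hfin.toFinset, fun p => ?_, h _ fun p hp => ?_⟩
  · rw [Set.Finite.mem_toFinset, Set.mem_setOf_eq]
  · rw [Set.Finite.mem_toFinset, Set.mem_setOf_eq] at hp
    exact hp

end Pool.SD
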