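import Pool.Agent.Lib.MP_9dcace_sd.N3

/-!
ROW N4 (step 2, 80-120 lines).
Let Q be the finite set of the primes with Q1 (`Q1_bound`, `finset_of_bound`), |Q| <= k.  Apply `avoid` with
 Bad p = union over u ∈ U of {σ < p : p ∣ mc σ . u} (2 each, `roots2`, uses hU) and over g ∈ G of {σ < p : ¬ NZ p (cz (mc σ) g)} (1 each, `roots_cz`),
 r = 16, E = union of {σ < S : mc σ . (w x (u x u')) = 0} (2 each, `iroots2` with Step1.uu; at most 25 pairs) and of {σ < S : mc σ . (w x g) = 0} (2 each, Step1.g):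
 |E| <= 50 + 12 = 62.
 Arithmetic: k * (16 * (S / y + 1)) + 62 < S because S / y <= S / (64 (k+1)), so 16 k (S / y) <= S / 4, and S >= 40 (k+1) + 200.
 `mod_mc`, `mod_cz` transfer the residue conditions from t % p to t.
-/

set_option autoImplicit false

open Classical

namespace Pool.SD

theorem avoid_arith (y k S c r : ℕ) (hy : 64 * (k + 1) ≤ y) (hr : r ≤ 16)
    (hS : 40 * (k + 1) + c + 100 ≤ S) (q : ℕ) (hq : q ≤ k) (e : ℕ) (he : e ≤ c / 2 + 62) :
    q * (r * (S / y + 1)) + e < S := by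
  have h1 : y * (S / y) ≤ S := Nat.mul_div_le S y
  generalize S / y = D at h1 ⊢
  have h2 : 64 * (k + 1) * D ≤ S := le_trans (Nat.mul_le_mul_right D hy) h1
  have h3 : q * (r * (D + 1)) ≤ k * (16 * (D + 1)) :=
    Nat.mul_le_mul hq (Nat.mul_le_mul_right _ hr)
  have h4 : k * (16 * (D + 1)) = 16 * (k * D) + 16 * k := by ring
  have h5 : 64 * (k + 1) * D = 64 * (k * D) + 64 * D := by ring
  rw [h4] at h3
  rw [h5] at h2
  generalize k * D = X at h2 h3
  omega

private theorem N4_card_pairs (U : Finset Z3) (hU : U.card ≤ 5) (F : Z3 → Z3 → Finset ℕ) (c : ℕ)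
    (hF : ∀ u ∈ U, ∀ u' ∈ U, u ≠ u' → (F u u').card ≤ c) :
    ((U ×ˢ U).biUnion (fun x => if x.1 = x.2 then ∅ else F x.1 x.2)).card ≤ 25 * c := by
  refine (Finset.card_biUnion_le_card_mul _ _ c ?_).trans ?_
  · rintro ⟨u, u'⟩ hx
    rw [Finset.mem_product] at hx
    by_cases hne : u = u'
    · simp [hne]
    · simpa [hne] using hF u hx.1 u' hx.2 hne
  · rw [Finset.card_product]
    exact Nat.mul_le_mul_right c (Nat.mul_le_mul hU hU)

private theorem N4_card_one (U : Finset Z3) (n : ℕ) (hU : U.card ≤ n) (F : Z3 → Finset ℕ) (c : ℕ)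
    (hF : ∀ u ∈ U, (F u).card ≤ c) : (U.biUnion F).card ≤ n * c :=
  (Finset.card_biUnion_le_card_mul _ _ c hF).trans (Nat.mul_le_mul_right c hU)

theorem step2 {y k S m : ℕ} {H : ℤ} {U G Zs : Finset Z3} {a1 : Z3}
    (h : Inp y k S m H U G Zs a1) (s : ℕ) (hs : s < S) (h1 : Step1 U G Zs (mc (s : ℤ))) :
    ∃ t < S, Step2 y U G (mc (s : ℤ)) (mc (t : ℤ)) := by
  obtain ⟨Q, hQ, hQc⟩ := finset_of_bound (fun p => Q1 y U G (mc (s : ℤ)) p) k
    (Q1_bound h s hs h1)
  have hy1 : 1 ≤ y := by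
    have := h.hy
    omega
  obtain ⟨t, htS, htE, htB⟩ := avoid y S 16 hy1 Q (fun p hp => ((hQ p).1 hp).2.1)
    (fun p => (U.biUnion fun u => (Finset.range p).filter (fun t : ℕ => (p : ℤ) ∣ dz (mc t) u)) ∪
      (G.biUnion fun g => (Finset.range p).filter (fun t : ℕ => ¬ NZ p (cz (mc t) g))))
    (by
      intro p hp
      have hq := (hQ p).1 hp
      refine (Finset.card_union_le _ _).trans ?_
      have c1 := N4_card_one U 5 h.hU5
        (fun u => (Finset.range p).filter (fun t : ℕ => (p : ℤ) ∣ dz (mc t) u)) 2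
        (fun u hu => roots2 p hq.1 u (h.hU u hu p hq.1 hq.2.1))
      have c2 := N4_card_one G 6 h.hG6
        (fun g => (Finset.range p).filter (fun t : ℕ => ¬ NZ p (cz (mc t) g))) 1
        (fun g hg => roots_cz p hq.1 g (h.hG g hg p hq.1 hq.2.1))
      omega)
    (((U ×ˢ U).biUnion (fun x => if x.1 = x.2 then ∅ else
        (Finset.range S).filter (fun t : ℕ => dz (mc t) (cz (mc (s : ℤ)) (cz x.1 x.2)) = 0))) ∪
      (G.biUnion fun g => (Finset.range S).filter
        (fun t : ℕ => dz (mc t) (cz (mc (s : ℤ)) g) = 0)))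
    (by
      have c1 := N4_card_pairs U h.hU5 (fun u u' => (Finset.range S).filter
        (fun t : ℕ => dz (mc t) (cz (mc (s : ℤ)) (cz u u')) = 0)) 2
        (fun u hu u' hu' hne => iroots2 S _ (h1.uu u hu u' hu' hne))
      have c2 := N4_card_one G 6 h.hG6
        (fun g => (Finset.range S).filter (fun t : ℕ => dz (mc t) (cz (mc (s : ℤ)) g) = 0)) 2
        (fun g hg => iroots2 S _ (h1.g g hg))
      have c3 := (Finset.card_union_le
        ((U ×ˢ U).biUnion (fun x => if x.1 = x.2 then ∅ else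
        (Finset.range S).filter (fun t : ℕ => dz (mc t) (cz (mc (s : ℤ)) (cz x.1 x.2)) = 0)))
        (G.biUnion fun g => (Finset.range S).filter
        (fun t : ℕ => dz (mc t) (cz (mc (s : ℤ)) g) = 0)))
      have hS := h.hS
      exact avoid_arith y k S (2 * Zs.card) 16 h.hy le_rfl (by omega) _ hQc _ (by omega))
  refine ⟨t, htS, ?_, ?_, ?_, ?_⟩
  · intro p hp u hu hd
    rw [mod_mc] at hd
    refine htB p ((hQ p).2 hp) (Finset.mem_union_left _ (Finset.mem_biUnion.2 ⟨u, hu, ?_⟩))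
    exact Finset.mem_filter.2 ⟨Finset.mem_range.2 (Nat.mod_lt _ hp.1.pos), hd⟩
  · intro p hp g hg
    by_contra hd
    rw [mod_cz] at hd
    refine htB p ((hQ p).2 hp) (Finset.mem_union_right _ (Finset.mem_biUnion.2 ⟨g, hg, ?_⟩))
    exact Finset.mem_filter.2 ⟨Finset.mem_range.2 (Nat.mod_lt _ hp.1.pos), hd⟩
  · intro u hu u' hu' hne hd
    refine htE (Finset.mem_union_left _ (Finset.mem_biUnion.2
      ⟨(u, u'), Finset.mem_product.2 ⟨hu, hu'⟩, ?_⟩))
    rw [if_neg hne]
    exact Finset.mem_filter.2 ⟨Finset.mem_range.2 htS, hd⟩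
  · intro g hg hd
    refine htE (Finset.mem_union_right _ (Finset.mem_biUnion.2 ⟨g, hg, ?_⟩))
    exact Finset.mem_filter.2 ⟨Finset.mem_range.2 htS, hd⟩

end Pool.SD
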