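import Pool.Agent.Lib.MP_9dcace_sd.N4

/-!
ROW N5 (step 3, 80-120 lines).
a0(t) = a1 + m t w', w' = mc s'.  For p with Q1: p does not divide m (hmp).
 dz a0 u = dz a1 u + (m * dz w' u) * t: p does not divide the slope (Step2.u): at most one bad residue (`roots1`);
 cz a0 g = cz a1 g + t (m cz w' g), NZ p (m cz w' g) (Step2.g): at most one bad residue (`roots_vec`).  r = 11.
 E: dz a0 (cz w (cz u u')) = 0: slope m * dz w' (..) ≠ 0 (Step2.uu): one t each (<= 25), and dz a0 (cz w g) = 0 (<= 6).  `avoid`, `avoid_arith`.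
-/

set_option autoImplicit false

open Classical

namespace Pool.SD

private theorem N5_card_pairs (U : Finset Z3) (hU : U.card ≤ 5) (F : Z3 → Z3 → Finset ℕ) (c : ℕ)
    (hF : ∀ u ∈ U, ∀ u' ∈ U, u ≠ u' → (F u u').card ≤ c) :
    ((U ×ˢ U).biUnion (fun x => if x.1 = x.2 then ∅ else F x.1 x.2)).card ≤ 25 * c := by
  refine (Finset.card_biUnion_le_card_mul _ _ c ?_).trans ?_
  · rintro ⟨u, u'⟩ hx
    rw [Finset.mem_product] at hx
    by_cases hne : u = u'
    · simp [hne]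
    · simpa [hne] using hF u hx.1 u' hx.2 hne
  · rw [Finset.card_product]
    exact Nat.mul_le_mul_right c (Nat.mul_le_mul hU hU)

private theorem N5_card_one (U : Finset Z3) (n : ℕ) (hU : U.card ≤ n) (F : Z3 → Finset ℕ) (c : ℕ)
    (hF : ∀ u ∈ U, (F u).card ≤ c) : (U.biUnion F).card ≤ n * c :=
  (Finset.card_biUnion_le_card_mul _ _ c hF).trans (Nat.mul_le_mul_right c hU)

private theorem N5_dz (a1 w' u : Z3) (m t : ℤ) :
    dz (fun i => a1 i + m * t * w' i) u = dz a1 u + (m * dz w' u) * t := by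
  simp only [dz]; ring

private theorem N5_cz (a1 w' g : Z3) (m t : ℤ) :
    cz (fun i => a1 i + m * t * w' i) g = fun i => cz a1 g i + t * (m * cz w' g i) := by
  funext i
  fin_cases i
  · change cz (fun i => a1 i + m * t * w' i) g 0 = cz a1 g 0 + t * (m * cz w' g 0)
    simp only [cz0]; ring
  · change cz (fun i => a1 i + m * t * w' i) g 1 = cz a1 g 1 + t * (m * cz w' g 1)
    simp only [cz1]; ring
  · change cz (fun i => a1 i + m * t * w' i) g 2 = cz a1 g 2 + t * (m * cz w' g 2)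
    simp only [cz2]; ring

theorem step3 {y k S m : ℕ} {H : ℤ} {U G Zs : Finset Z3} {a1 : Z3}
    (h : Inp y k S m H U G Zs a1) (s : ℕ) (hs : s < S) (h1 : Step1 U G Zs (mc (s : ℤ))) (s' : ℕ)
    (h2 : Step2 y U G (mc (s : ℤ)) (mc (s' : ℤ))) :
    ∃ t < S, Step3 y U G (mc (s : ℤ)) (fun i => a1 i + m * t * mc (s' : ℤ) i) := by
  obtain ⟨Q, hQ, hQc⟩ := finset_of_bound (fun p => Q1 y U G (mc (s : ℤ)) p) k
    (Q1_bound h s hs h1)
  have hy1 : 1 ≤ y := by
    have := h.hy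
    omega
  have hm0 : (m : ℤ) ≠ 0 := by
    have := h.hm
    omega
  have hmp : ∀ p, Q1 y U G (mc (s : ℤ)) p → ∀ z : ℤ, ¬ (p : ℤ) ∣ z → ¬ (p : ℤ) ∣ (m : ℤ) * z := by
    intro p hp z hz hd
    rcases (Nat.prime_iff_prime_int.1 hp.1).dvd_or_dvd hd with h' | h'
    · exact h.hmp p hp.1 hp.2.1 (Int.natCast_dvd_natCast.1 h')
    · exact hz h'
  obtain ⟨t, htS, htE, htB⟩ := avoid y S 11 hy1 Q (fun p hp => ((hQ p).1 hp).2.1)
    (fun p => (U.biUnion fun u => (Finset.range p).filter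
        (fun t : ℕ => (p : ℤ) ∣ dz a1 u + (m * dz (mc (s' : ℤ)) u) * t)) ∪
      (G.biUnion fun g => (Finset.range p).filter
        (fun t : ℕ => ¬ NZ p (fun i => cz a1 g i + t * (m * cz (mc (s' : ℤ)) g i)))))
    (by
      intro p hp
      have hq := (hQ p).1 hp
      refine (Finset.card_union_le _ _).trans ?_
      have c1 := N5_card_one U 5 h.hU5
        (fun u => (Finset.range p).filter
          (fun t : ℕ => (p : ℤ) ∣ dz a1 u + (m * dz (mc (s' : ℤ)) u) * t)) 1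
        (fun u hu => roots1 p hq.1 _ _ (hmp p hq _ (h2.u p hq u hu)))
      have c2 := N5_card_one G 6 h.hG6
        (fun g => (Finset.range p).filter
          (fun t : ℕ => ¬ NZ p (fun i => cz a1 g i + t * (m * cz (mc (s' : ℤ)) g i)))) 1
        (fun g hg => roots_vec p hq.1 (cz a1 g) (fun i => m * cz (mc (s' : ℤ)) g i) (by
          obtain ⟨i, hi⟩ := h2.g p hq g hg
          exact ⟨i, hmp p hq _ hi⟩))
      omega)
    (((U ×ˢ U).biUnion (fun x => if x.1 = x.2 then ∅ else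
        (Finset.range S).filter (fun t : ℕ => dz a1 (cz (mc (s : ℤ)) (cz x.1 x.2)) +
          (m * dz (mc (s' : ℤ)) (cz (mc (s : ℤ)) (cz x.1 x.2))) * t = 0))) ∪
      (G.biUnion fun g => (Finset.range S).filter
        (fun t : ℕ => dz a1 (cz (mc (s : ℤ)) g) +
          (m * dz (mc (s' : ℤ)) (cz (mc (s : ℤ)) g)) * t = 0)))
    (by
      have c1 := N5_card_pairs U h.hU5 (fun u u' => (Finset.range S).filter
        (fun t : ℕ => dz a1 (cz (mc (s : ℤ)) (cz u u')) +
          (m * dz (mc (s' : ℤ)) (cz (mc (s : ℤ)) (cz u u'))) * t = 0)) 1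
        (fun u hu u' hu' hne => iroots1 S _ _ (mul_ne_zero hm0 (h2.uu u hu u' hu' hne)))
      have c2 := N5_card_one G 6 h.hG6
        (fun g => (Finset.range S).filter (fun t : ℕ => dz a1 (cz (mc (s : ℤ)) g) +
          (m * dz (mc (s' : ℤ)) (cz (mc (s : ℤ)) g)) * t = 0)) 1
        (fun g hg => iroots1 S _ _ (mul_ne_zero hm0 (h2.gg g hg)))
      have c3 := (Finset.card_union_le
        ((U ×ˢ U).biUnion (fun x => if x.1 = x.2 then ∅ else
        (Finset.range S).filter (fun t : ℕ => dz a1 (cz (mc (s : ℤ)) (cz x.1 x.2)) +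
          (m * dz (mc (s' : ℤ)) (cz (mc (s : ℤ)) (cz x.1 x.2))) * t = 0)))
        (G.biUnion fun g => (Finset.range S).filter
        (fun t : ℕ => dz a1 (cz (mc (s : ℤ)) g) +
          (m * dz (mc (s' : ℤ)) (cz (mc (s : ℤ)) g)) * t = 0)))
      have hS := h.hS
      exact avoid_arith y k S (2 * Zs.card) 11 h.hy (by norm_num) (by omega) _ hQc _ (by omega))
  refine ⟨t, htS, ?_, ?_, ?_, ?_⟩
  · intro p hp u hu hd
    rw [N5_dz, mod_lin] at hd
    refine htB p ((hQ p).2 hp) (Finset.mem_union_left _ (Finset.mem_biUnion.2 ⟨u, hu, ?_⟩))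
    exact Finset.mem_filter.2 ⟨Finset.mem_range.2 (Nat.mod_lt _ hp.1.pos), hd⟩
  · intro p hp g hg
    by_contra hd
    rw [N5_cz, mod_vec p t (cz a1 g) (fun i => m * cz (mc (s' : ℤ)) g i)] at hd
    refine htB p ((hQ p).2 hp) (Finset.mem_union_right _ (Finset.mem_biUnion.2 ⟨g, hg, ?_⟩))
    exact Finset.mem_filter.2 ⟨Finset.mem_range.2 (Nat.mod_lt _ hp.1.pos), hd⟩
  · intro u hu u' hu' hne hd
    rw [N5_dz] at hd
    refine htE (Finset.mem_union_left _ (Finset.mem_biUnion.2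
      ⟨(u, u'), Finset.mem_product.2 ⟨hu, hu'⟩, ?_⟩))
    rw [if_neg hne]
    exact Finset.mem_filter.2 ⟨Finset.mem_range.2 htS, hd⟩
  · intro g hg hd
    rw [N5_dz] at hd
    refine htE (Finset.mem_union_right _ (Finset.mem_biUnion.2 ⟨g, hg, ?_⟩))
    exact Finset.mem_filter.2 ⟨Finset.mem_range.2 htS, hd⟩

end Pool.SD
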