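import Pool.Agent.Lib.MP_9dcace_sd.N5

/-!
ROW N6 (step 4 and the choice lemma, 150-200 lines).
w = mc s, a0 from step 3, a(t) = a0 + m t w.  Q = the primes with Q2 (`Q2_bound`: |a0 i| <= H + m S * S^2), |Q| <= k.
For p ∈ Q and u ∈ U: dz a u = dz a0 u + (m dz w u) t.  If p ∣ dz w u then Q1 holds for p, so p does not divide dz a0 u and there is no bad t;
  otherwise one bad residue (`roots1`).  For g ∈ G: cz a g = cz a0 g + t (m cz w g): if ¬ NZ p (cz w g) then Q1 holds and NZ p (cz a0 g) and all t are good; otherwise `roots_vec`.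
  So r = 11.  E: dz a z = 0, z ∈ Zs: slope m dz w z ≠ 0 (Step1.z), one t each: |E| <= |Zs|.
RESULT for a = a(t):
 (A) u ≠ u' ∈ U, p >= y prime, p ∣ dz a u, p ∣ dz a u': by `resultant` p ∣ dz a (cz w (cz u u')) = dz a0 (cz w (cz u u')) (dz w (cz w _) = 0), so Q2 holds for p
     and p does not divide dz a u: contradiction.
 (B) ¬ NZ p (cz a g): p ∣ dz w (cz a g) = - dz a (cz w g) (`dz_cz_self`) = - dz a0 (cz w g), so Q2 holds and NZ p (cz a g): contradiction.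
δ i = t' * (mc s' i) + t * (mc s i) <= S * S^2 + S * S^2 (natural numbers).
-/

set_option autoImplicit false

open Classical

namespace Pool.SD

private theorem N6_mc (s : ℕ) (i : Fin 3) : mc (s : ℤ) i = ((s ^ (i : ℕ) : ℕ) : ℤ) := by
  fin_cases i
  · change (1 : ℤ) = _
    simp
  · change (s : ℤ) = _
    simp
  · change (s : ℤ) ^ 2 = _
    simp

private theorem N6_pow {S s : ℕ} (hs : s < S) (i : Fin 3) : s ^ (i : ℕ) ≤ S ^ 2 := by
  have h1 : s ^ (i : ℕ) ≤ S ^ (i : ℕ) := Nat.pow_le_pow_left hs.le _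
  have h2 : S ^ (i : ℕ) ≤ S ^ 2 := Nat.pow_le_pow_right (by omega) (by have := i.2; omega)
  exact h1.trans h2

private theorem N6_mul {S s t : ℕ} (hs : s < S) (ht : t < S) (i : Fin 3) :
    t * s ^ (i : ℕ) ≤ S ^ 3 := by
  calc t * s ^ (i : ℕ) ≤ S * S ^ 2 := Nat.mul_le_mul ht.le (N6_pow hs i)
    _ = S ^ 3 := by ring

private theorem N6_dz (a0 w u : Z3) (m t : ℤ) :
    dz (fun i => a0 i + m * t * w i) u = dz a0 u + (m * dz w u) * t := by
  simp only [dz]
  ring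

private theorem N6_cz (a0 w g : Z3) (m t : ℤ) (i : Fin 3) :
    cz (fun i => a0 i + m * t * w i) g i = cz a0 g i + t * (m * cz w g i) := by
  fin_cases i
  · change cz (fun i => a0 i + m * t * w i) g 0 = cz a0 g 0 + t * (m * cz w g 0)
    simp only [cz0]
    ring
  · change cz (fun i => a0 i + m * t * w i) g 1 = cz a0 g 1 + t * (m * cz w g 1)
    simp only [cz1]
    ring
  · change cz (fun i => a0 i + m * t * w i) g 2 = cz a0 g 2 + t * (m * cz w g 2)
    simp only [cz2]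
    ring

private theorem N6_self (w x : Z3) : dz w (cz w x) = 0 := by
  simp only [dz, cz0, cz1, cz2]
  ring

private theorem N6_badU {y k S m : ℕ} {H : ℤ} {U G Zs : Finset Z3} {a1 : Z3}
    (h : Inp y k S m H U G Zs a1) {w a0 : Z3} (h3 : Step3 y U G w a0) {p : ℕ} (hp : p.Prime)
    (hy : y ≤ p) {u : Z3} (hu : u ∈ U) :
    ((Finset.range p).filter (fun t : ℕ => (p : ℤ) ∣ dz a0 u + (m * dz w u) * t)).card ≤ 1 := by
  by_cases hd : (p : ℤ) ∣ dz w u
  · have h4 := h3.u p ⟨hp, hy, Or.inl ⟨u, hu, hd⟩⟩ u hu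
    refine le_trans (le_of_eq ?_) (Nat.zero_le 1)
    rw [Finset.card_eq_zero, Finset.eq_empty_iff_forall_notMem]
    intro t ht
    rw [Finset.mem_filter] at ht
    apply h4
    have h5 : (p : ℤ) ∣ (m * dz w u) * t := Dvd.dvd.mul_right (Dvd.dvd.mul_left hd _) _
    exact (dvd_add_left h5).1 ht.2
  · refine roots1 p hp (dz a0 u) (m * dz w u) ?_
    intro h4
    rcases (Nat.prime_iff_prime_int.1 hp).dvd_or_dvd h4 with h5 | h5
    · exact h.hmp p hp hy (Int.natCast_dvd_natCast.1 h5)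
    · exact hd h5

private theorem N6_badG {y k S m : ℕ} {H : ℤ} {U G Zs : Finset Z3} {a1 : Z3}
    (h : Inp y k S m H U G Zs a1) {w a0 : Z3} (h3 : Step3 y U G w a0) {p : ℕ} (hp : p.Prime)
    (hy : y ≤ p) {g : Z3} (hg : g ∈ G) :
    ((Finset.range p).filter
      (fun t : ℕ => ¬ NZ p (fun i => cz a0 g i + t * (m * cz w g i)))).card ≤ 1 := by
  by_cases hd : NZ p (cz w g)
  · refine roots_vec p hp (cz a0 g) (fun i => m * cz w g i) ?_
    obtain ⟨i, hi⟩ := hd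
    refine ⟨i, fun h4 => ?_⟩
    rcases (Nat.prime_iff_prime_int.1 hp).dvd_or_dvd h4 with h5 | h5
    · exact h.hmp p hp hy (Int.natCast_dvd_natCast.1 h5)
    · exact hi h5
  · obtain ⟨i, hi⟩ := h3.g p ⟨hp, hy, Or.inr ⟨g, hg, hd⟩⟩ g hg
    refine le_trans (le_of_eq ?_) (Nat.zero_le 1)
    rw [Finset.card_eq_zero, Finset.eq_empty_iff_forall_notMem]
    intro t ht
    rw [Finset.mem_filter] at ht
    refine ht.2 ⟨i, fun h4 => hi ?_⟩
    have h5 : (p : ℤ) ∣ cz w g i := by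
      by_contra h6
      exact hd ⟨i, h6⟩
    have h6 : (p : ℤ) ∣ (t : ℤ) * (m * cz w g i) := Dvd.dvd.mul_left (Dvd.dvd.mul_left h5 _) _
    exact (dvd_add_left h6).1 h4


theorem choice {y k S m : ℕ} {H : ℤ} {U G Zs : Finset Z3} {a1 : Z3}
    (h : Inp y k S m H U G Zs a1) :
    ∃ δ : Fin 3 → ℕ, (∀ i, δ i ≤ 2 * S ^ 3) ∧
      (∀ u ∈ U, ∀ u' ∈ U, u ≠ u' → ∀ p : ℕ, p.Prime → y ≤ p →
        ¬ ((p : ℤ) ∣ dz (fun i => a1 i + m * δ i) u ∧ (p : ℤ) ∣ dz (fun i => a1 i + m * δ i) u')) ∧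
      (∀ g ∈ G, ∀ p : ℕ, p.Prime → y ≤ p → NZ p (cz (fun i => a1 i + m * δ i) g)) ∧
      (∀ z ∈ Zs, dz (fun i => a1 i + m * δ i) z ≠ 0) := by
  obtain ⟨s, hs, h1⟩ := step1 h
  obtain ⟨s', hs', h2⟩ := step2 h s hs h1
  obtain ⟨t', ht', h3⟩ := step3 h s hs h1 s' h2
  set w : Z3 := mc (s : ℤ) with hw
  set a0 : Z3 := fun i => a1 i + m * t' * mc (s' : ℤ) i with ha0
  have hbd : ∀ i, |a0 i| ≤ H + m * (S : ℤ) ^ 3 := by
    intro i
    have e1 : |a0 i| ≤ |a1 i| + |(m : ℤ) * t' * mc (s' : ℤ) i| := abs_add_le _ _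
    have e2 : (m : ℤ) * t' * mc (s' : ℤ) i = ((m * (t' * s' ^ (i : ℕ)) : ℕ) : ℤ) := by
      rw [N6_mc]
      push_cast
      ring
    have e3 : m * (t' * s' ^ (i : ℕ)) ≤ m * S ^ 3 := Nat.mul_le_mul_left m (N6_mul hs' ht' i)
    have e4 : ((m * (t' * s' ^ (i : ℕ)) : ℕ) : ℤ) ≤ ((m * S ^ 3 : ℕ) : ℤ) := by exact_mod_cast e3
    rw [e2, abs_of_nonneg (Int.natCast_nonneg _)] at e1
    have e5 := h.haH i
    push_cast at e4 e1 ⊢
    linarith
  obtain ⟨Q, hQ, hQk⟩ := finset_of_bound (Q2 y U G w a0) k (Q2_bound h s hs a0 hbd h3)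
  set Bad : ℕ → Finset ℕ := fun p =>
    (U.biUnion fun u => (Finset.range p).filter
      (fun t : ℕ => (p : ℤ) ∣ dz a0 u + (m * dz w u) * t)) ∪
    (G.biUnion fun g => (Finset.range p).filter
      (fun t : ℕ => ¬ NZ p (fun i => cz a0 g i + t * (m * cz w g i)))) with hBad
  set E : Finset ℕ := Zs.biUnion fun z => (Finset.range S).filter
      (fun t : ℕ => dz a0 z + (m * dz w z) * t = 0) with hE
  have hQy : ∀ p ∈ Q, y ≤ p := fun p hp => ((hQ p).1 hp).2.1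
  have hB : ∀ p ∈ Q, (Bad p).card ≤ 11 := by
    intro p hp
    have hq := (hQ p).1 hp
    have c1 : (U.biUnion fun u => (Finset.range p).filter
        (fun t : ℕ => (p : ℤ) ∣ dz a0 u + (m * dz w u) * t)).card ≤ U.card * 1 :=
      Finset.card_biUnion_le_card_mul _ _ _ fun u hu => N6_badU h h3 hq.1 hq.2.1 hu
    have c2 : (G.biUnion fun g => (Finset.range p).filter
        (fun t : ℕ => ¬ NZ p (fun i => cz a0 g i + t * (m * cz w g i)))).card ≤ G.card * 1 :=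
      Finset.card_biUnion_le_card_mul _ _ _ fun g hg => N6_badG h h3 hq.1 hq.2.1 hg
    have c3 := Finset.card_union_le (U.biUnion fun u => (Finset.range p).filter
        (fun t : ℕ => (p : ℤ) ∣ dz a0 u + (m * dz w u) * t))
      (G.biUnion fun g => (Finset.range p).filter
        (fun t : ℕ => ¬ NZ p (fun i => cz a0 g i + t * (m * cz w g i))))
    have c4 := h.hU5
    have c5 := h.hG6
    change (_ ∪ _ : Finset ℕ).card ≤ 11
    omega
  have hm0 : (m : ℤ) ≠ 0 := by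
    have := h.hm
    exact_mod_cast this.ne'
  have hEc : E.card ≤ Zs.card * 1 := by
    refine Finset.card_biUnion_le_card_mul _ _ _ fun z hz => ?_
    exact iroots1 S (dz a0 z) (m * dz w z) (mul_ne_zero hm0 (h1.z z hz))
  have hy1 : 1 ≤ y := by
    have := h.hy
    omega
  obtain ⟨t, ht, htE, htQ⟩ := avoid y S 11 hy1 Q hQy Bad hB E
    (avoid_arith y k S (2 * Zs.card + 100) 11 h.hy (by norm_num)
      (by have := h.hS; omega) Q.card hQk E.card (by omega))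
  have ha : (fun i => a1 i + (m : ℤ) * ((t' * s' ^ (i : ℕ) + t * s ^ (i : ℕ) : ℕ) : ℤ)) =
      (fun i => a0 i + m * t * w i) := by
    funext i
    rw [ha0, hw]
    simp only
    rw [N6_mc, N6_mc]
    push_cast
    ring
  have hnotU : ∀ p : ℕ, p ∈ Q → ∀ u ∈ U, ¬ (p : ℤ) ∣ dz (fun i => a0 i + m * t * w i) u := by
    intro p hp u hu hd
    apply htQ p hp
    have hpp := ((hQ p).1 hp).1
    rw [N6_dz, mod_lin] at hd
    exact Finset.mem_union_left _ (Finset.mem_biUnion.2 ⟨u, hu, Finset.mem_filter.2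
      ⟨Finset.mem_range.2 (Nat.mod_lt _ hpp.pos), hd⟩⟩)
  have hnotG : ∀ p : ℕ, p ∈ Q → ∀ g ∈ G, NZ p (cz (fun i => a0 i + m * t * w i) g) := by
    intro p hp g hg
    by_contra hd
    apply htQ p hp
    have hpp := ((hQ p).1 hp).1
    have e : cz (fun i => a0 i + m * t * w i) g = fun i => cz a0 g i + t * (m * cz w g i) := by
      funext i
      exact N6_cz a0 w g m t i
    rw [e, mod_vec] at hd
    exact Finset.mem_union_right _ (Finset.mem_biUnion.2 ⟨g, hg, Finset.mem_filter.2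
      ⟨Finset.mem_range.2 (Nat.mod_lt _ hpp.pos), hd⟩⟩)
  refine ⟨fun i => t' * s' ^ (i : ℕ) + t * s ^ (i : ℕ), ?_, ?_, ?_, ?_⟩
  · intro i
    have e1 := N6_mul hs' ht' i
    have e2 := N6_mul hs ht i
    change t' * s' ^ (i : ℕ) + t * s ^ (i : ℕ) ≤ 2 * S ^ 3
    omega
  · intro u hu u' hu' hne p hp hyp
    rw [ha]
    rintro ⟨hd, hd'⟩
    have e1 := resultant (fun i => a0 i + m * t * w i) w u u'
    have e2 : (p : ℤ) ∣ dz (fun i => a0 i + m * t * w i) (cz w (cz u u')) := by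
      rw [← e1]
      exact dvd_sub (Dvd.dvd.mul_right hd _) (Dvd.dvd.mul_right hd' _)
    rw [N6_dz, N6_self, mul_zero, zero_mul, add_zero] at e2
    exact hnotU p ((hQ p).2 ⟨hp, hyp, Or.inl ⟨u, hu, u', hu', hne, e2⟩⟩) u hu hd
  · intro g hg p hp hyp
    rw [ha]
    by_contra hd
    have hall : ∀ i, (p : ℤ) ∣ cz (fun i => a0 i + m * t * w i) g i := by
      intro i
      by_contra h6
      exact hd ⟨i, h6⟩
    have e1 : (p : ℤ) ∣ dz w (cz (fun i => a0 i + m * t * w i) g) := by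
      rw [dz_def]
      exact dvd_add (dvd_add (Dvd.dvd.mul_left (hall 0) _) (Dvd.dvd.mul_left (hall 1) _))
        (Dvd.dvd.mul_left (hall 2) _)
    rw [dz_cz_self, dvd_neg, N6_dz, N6_self, mul_zero, zero_mul, add_zero] at e1
    exact hd (hnotG p ((hQ p).2 ⟨hp, hyp, Or.inr ⟨g, hg, e1⟩⟩) g hg)
  · intro z hz
    rw [ha, N6_dz]
    intro h0
    exact htE (Finset.mem_biUnion.2 ⟨z, hz, Finset.mem_filter.2 ⟨Finset.mem_range.2 ht, h0⟩⟩)

end Pool.SD
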