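import Pool.Agent.Lib.MP_9dcace_sd.N1
import Pool.Agent.Lib.MP_9dcace_sd.N2

/-!
Input of the choice lemma.
-/

set_option autoImplicit false

namespace Pool.SD

/-- data for the choice of a normal vector: `U` special planes, `G` special directions, `Zs` planes to avoid -/
structure Inp (y k S m : ℕ) (H : ℤ) (U G Zs : Finset Z3) (a1 : Z3) : Prop where
  hU5 : U.card ≤ 5
  hG6 : G.card ≤ 6
  hy : 64 * (k + 1) ≤ y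
  hS : 40 * (k + 1) + 2 * Zs.card + 200 ≤ S
  hm : 0 < m
  hmp : ∀ p : ℕ, p.Prime → y ≤ p → ¬ p ∣ m
  hU : ∀ u ∈ U, ∀ p : ℕ, p.Prime → y ≤ p → NZ p u
  hG : ∀ g ∈ G, ∀ p : ℕ, p.Prime → y ≤ p → NZ p g
  hUU : ∀ u ∈ U, ∀ u' ∈ U, u ≠ u' → cz u u' ≠ 0
  hZ : ∀ z ∈ Zs, z ≠ 0
  hH : 1 ≤ H
  hUH : ∀ u ∈ U, ∀ i, |u i| ≤ H
  hGH : ∀ g ∈ G, ∀ i, |g i| ≤ H
  haH : ∀ i, |a1 i| ≤ H
  big : (12 * (S : ℤ) ^ 2 * H ^ 2 * (H + m * S ^ 3)) ^ 26 < (y : ℤ) ^ (k + 1)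

/-- the primes `p ≥ y` which divide `w . u` for some `u ∈ U` or all the coordinates of `w x g` for some `g ∈ G` -/
def Q1 (y : ℕ) (U G : Finset Z3) (w : Z3) (p : ℕ) : Prop :=
  p.Prime ∧ y ≤ p ∧ ((∃ u ∈ U, (p : ℤ) ∣ dz w u) ∨ ∃ g ∈ G, ¬ NZ p (cz w g))

/-- the primes `p ≥ y` which divide one of the resultants -/
def Q2 (y : ℕ) (U G : Finset Z3) (w a0 : Z3) (p : ℕ) : Prop :=
  p.Prime ∧ y ≤ p ∧ ((∃ u ∈ U, ∃ u' ∈ U, u ≠ u' ∧ (p : ℤ) ∣ dz a0 (cz w (cz u u'))) ∨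
    ∃ g ∈ G, (p : ℤ) ∣ dz a0 (cz w g))

/-- conclusion of the first step -/
structure Step1 (U G Zs : Finset Z3) (w : Z3) : Prop where
  z : ∀ z ∈ Zs, dz w z ≠ 0
  u : ∀ u ∈ U, dz w u ≠ 0
  uu : ∀ u ∈ U, ∀ u' ∈ U, u ≠ u' → cz w (cz u u') ≠ 0
  g : ∀ g ∈ G, cz w g ≠ 0

/-- conclusion of the second step -/
structure Step2 (y : ℕ) (U G : Finset Z3) (w w' : Z3) : Prop where
  u : ∀ p, Q1 y U G w p → ∀ u ∈ U, ¬ (p : ℤ) ∣ dz w' u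
  g : ∀ p, Q1 y U G w p → ∀ g ∈ G, NZ p (cz w' g)
  uu : ∀ u ∈ U, ∀ u' ∈ U, u ≠ u' → dz w' (cz w (cz u u')) ≠ 0
  gg : ∀ g ∈ G, dz w' (cz w g) ≠ 0

/-- conclusion of the third step -/
structure Step3 (y : ℕ) (U G : Finset Z3) (w a0 : Z3) : Prop where
  u : ∀ p, Q1 y U G w p → ∀ u ∈ U, ¬ (p : ℤ) ∣ dz a0 u
  g : ∀ p, Q1 y U G w p → ∀ g ∈ G, NZ p (cz a0 g)
  uu : ∀ u ∈ U, ∀ u' ∈ U, u ≠ u' → dz a0 (cz w (cz u u')) ≠ 0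
  gg : ∀ g ∈ G, dz a0 (cz w g) ≠ 0

end Pool.SD
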